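import Pool.Agent.H22.OutF.Trace

/-!
MP_57eb62_al : an invertible matrix has a small power with trace different from one.
-/

set_option autoImplicit false

namespace Pool.Agent.H22.OutF

open Finset Polynomial

variable {ι : Type} [DecidableEq ι] [Fintype ι]

theorem charpoly_shift (A M : Matrix ι ι ℚ) (hM : (1 - A) * M = 1) :
    A.charpoly.comp (X + C 1) = C (1 - A).det * (1 + (X : ℚ[X]) • M.map C).det := by
  rw [← Matrix.charpoly_sub_scalar]
  have h1 : (A - Matrix.scalar ι 1).charmatrix = (1 - A).map C * (1 + (X : ℚ[X]) • M.map C) := by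
    have h2 : ((1 - A).map C) * (M.map C) = (1 : Matrix ι ι ℚ[X]) := by
      have h3 := congrArg (fun N => N.map (C : ℚ →+* ℚ[X])) hM
      simp only [Matrix.map_mul] at h3
      rw [h3]
      exact Matrix.map_one _ C.map_zero C.map_one
    rw [mul_add, mul_one, Matrix.mul_smul, h2]
    ext i j
    by_cases hij : i = j
    · subst hij
      simp [Matrix.charmatrix_apply_eq]
      ring
    · simp [Matrix.charmatrix_apply_ne _ _ _ hij, hij]
  unfold Matrix.charpoly
  rw [h1, Matrix.det_mul]
  congr 1
  exact (RingHom.map_det C (1 - A)).symm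

theorem det_zero_of_traces (A : Matrix ι ι ℚ) (hc : 2 ≤ Fintype.card ι)
    (h : ∀ m, 1 ≤ m → m ≤ Fintype.card ι → (A ^ m).trace = 1) : A.det = 0 := by
  set n := Fintype.card ι with hn
  have hne : Nonempty ι := Fintype.card_pos_iff.1 (by omega)
  set c : ℕ → ℚ := fun k => A.charpoly.coeff k with hcdef
  have hdeg : A.charpoly.natDegree = n := Matrix.charpoly_natDegree_eq_dim A
  have hchi : ∑ k ∈ range (n + 1), c k • A ^ k = 0 := by
    have h2 := Matrix.aeval_self_charpoly A
    rw [aeval_eq_sum_range, hdeg] at h2
    exact h2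
  have hev : A.charpoly.eval 1 = ∑ k ∈ range (n + 1), c k := by
    rw [eval_eq_sum_range, hdeg]
    simp [hcdef]
  have hsplit : ∑ k ∈ range (n + 1), c k = ∑ k ∈ range n, c (k + 1) + c 0 := sum_range_succ' _ _
  have e1 : ∑ k ∈ range n, c (k + 1) + c 0 * n = 0 := by
    have h3 := congrArg Matrix.trace hchi
    rw [Matrix.trace_sum, Matrix.trace_zero] at h3
    simp only [Matrix.trace_smul, smul_eq_mul] at h3
    rw [sum_range_succ', pow_zero, Matrix.trace_one, ← hn] at h3
    rw [← h3]
    congr 1
    refine sum_congr rfl fun k hk => ?_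
    rw [mem_range] at hk
    rw [h (k + 1) (by omega) (by omega), mul_one]
  have hdet : (1 - A).det = A.charpoly.eval 1 := by
    rw [Matrix.eval_charpoly]
    simp
  have hc0 : c 0 = 0 := by
    by_cases hz : A.charpoly.eval 1 = 0
    · rw [hev, hsplit] at hz
      have h4 : c 0 * ((n : ℚ) - 1) = 0 := by linarith
      rcases mul_eq_zero.1 h4 with h5 | h5
      · exact h5
      · exfalso
        have h6 : (n : ℚ) = 1 := by linarith
        have h7 : n = 1 := by exact_mod_cast h6
        omega
    · have hu : IsUnit (1 - A).det := by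
        rw [hdet]
        exact (Ne.isUnit hz)
      set M := (1 - A)⁻¹ with hMdef
      have hM : (1 - A) * M = 1 := Matrix.mul_nonsing_inv _ hu
      have hM' : M * (1 - A) = 1 := Matrix.nonsing_inv_mul _ hu
      have hsh := congrArg (fun p => p.derivative.eval 0) (charpoly_shift A M hM)
      simp only [derivative_comp, derivative_mul, derivative_C, zero_mul, zero_add, eval_mul,
        eval_C, Matrix.derivative_det_one_add_X_smul] at hsh
      have hd : (A.charpoly.derivative.comp (X + C 1)).eval 0 = A.charpoly.derivative.eval 1 := by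
        rw [eval_comp]
        simp
      have hd2 : (derivative (X + C 1 : ℚ[X])).eval 0 = 1 := by simp
      rw [hd, hd2, hdet] at hsh
      have hB : (∑ k ∈ range (n + 1), c k • ∑ j ∈ range k, A ^ j) =
          A.charpoly.eval 1 • M := by
        have h5 : (1 - A) * (∑ k ∈ range (n + 1), c k • ∑ j ∈ range k, A ^ j) =
            A.charpoly.eval 1 • (1 : Matrix ι ι ℚ) := by
          rw [mul_sum]
          have h6 : ∀ k ∈ range (n + 1), (1 - A) * (c k • ∑ j ∈ range k, A ^ j) =
              c k • (1 : Matrix ι ι ℚ) - c k • A ^ k := by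
            intro k _
            rw [Matrix.mul_smul, mul_neg_geom_sum, smul_sub]
          rw [sum_congr rfl h6, sum_sub_distrib, hchi, sub_zero, ← sum_smul, hev]
        calc (∑ k ∈ range (n + 1), c k • ∑ j ∈ range k, A ^ j)
            = M * ((1 - A) * (∑ k ∈ range (n + 1), c k • ∑ j ∈ range k, A ^ j)) := by
              rw [← mul_assoc, hM', one_mul]
          _ = A.charpoly.eval 1 • M := by rw [h5, Matrix.mul_smul, mul_one]
      have htB := congrArg Matrix.trace hB
      rw [Matrix.trace_sum, Matrix.trace_smul, smul_eq_mul] at htB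
      simp only [Matrix.trace_smul, Matrix.trace_sum, smul_eq_mul] at htB
      have h7 : ∀ k ∈ range n, c (k + 1) * ∑ j ∈ range (k + 1), (A ^ j).trace =
          c (k + 1) * ((n : ℚ) - 1) + c (k + 1) * ((k : ℚ) + 1) := by
        intro k hk
        rw [mem_range] at hk
        rw [sum_range_succ', pow_zero, Matrix.trace_one, ← hn]
        have h8 : ∑ j ∈ range k, (A ^ (j + 1)).trace = k := by
          rw [sum_congr rfl fun j hj => h (j + 1) (by omega) (by rw [mem_range] at hj; omega)]
          simp
        rw [h8]
        ring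
      rw [sum_range_succ', sum_congr rfl h7, sum_add_distrib, ← sum_mul] at htB
      have hder : A.charpoly.derivative.eval 1 = ∑ k ∈ range n, c (k + 1) * ((k : ℚ) + 1) := by
        rw [derivative_eval, sum_over_range' _ _ (n + 1) (by omega)]
        · rw [sum_range_succ']
          simp [hcdef]
        · simp
      rw [hder] at hsh
      simp only [range_zero, sum_empty, mul_zero, add_zero] at htB
      have h9 : (∑ k ∈ range n, c (k + 1)) * ((n : ℚ) - 1) = 0 := by linarith
      have h10 : ∑ k ∈ range n, c (k + 1) = 0 := by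
        rcases mul_eq_zero.1 h9 with h5 | h5
        · exact h5
        · exfalso
          have h6 : (n : ℚ) = 1 := by linarith
          have h7 : n = 1 := by exact_mod_cast h6
          omega
      rw [h10, zero_add] at e1
      rcases mul_eq_zero.1 e1 with h5 | h5
      · exact h5
      · exfalso
        have h7 : n = 0 := by exact_mod_cast h5
        omega
  rw [Matrix.det_eq_sign_charpoly_coeff, show A.charpoly.coeff 0 = 0 from hc0, mul_zero]

/-- Some power with exponent at most the rank has trace different from one. -/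
theorem exists_tr_pow_le (φ : MulAut (FreeGroup ι)) (hc : 2 ≤ Fintype.card ι) :
    ∃ m, 1 ≤ m ∧ m ≤ Fintype.card ι ∧ tr (φ ^ m) ≠ 1 := by
  by_contra hcon
  push Not at hcon
  have h1 : ab (φ : FreeGroup ι →* FreeGroup ι) *
      ab ((φ⁻¹ : MulAut (FreeGroup ι)) : FreeGroup ι →* FreeGroup ι) = 1 := by
    rw [← ab_comp, ← ab_id]
    congr 1
    ext x
    exact φ.symm_apply_apply _
  set A := ab (φ : FreeGroup ι →* FreeGroup ι) with hA
  have h2 : (A.map (Int.castRingHom ℚ)).det = 0 := by
    refine det_zero_of_traces _ hc fun m hm1 hm2 => ?_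
    have h3 := hcon m hm1 hm2
    unfold tr at h3
    rw [ab_pow, ← hA] at h3
    have h4 : A.map (Int.castRingHom ℚ) ^ m = (A ^ m).map (Int.castRingHom ℚ) :=
      (map_pow (Int.castRingHom ℚ).mapMatrix A m).symm
    rw [h4]
    have h5 : ((A ^ m).map (Int.castRingHom ℚ)).trace = Int.castRingHom ℚ (A ^ m).trace := by
      simp [Matrix.trace]
    rw [h5, h3, map_one]
  have h3 : (A.map (Int.castRingHom ℚ)).det = Int.castRingHom ℚ A.det :=
    (RingHom.map_det (Int.castRingHom ℚ) A).symm
  rw [h3] at h2
  have h4 : A.det = 0 := by simpa using h2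
  have h5 := congrArg Matrix.det h1
  rw [Matrix.det_mul, h4, zero_mul, Matrix.det_one] at h5
  exact zero_ne_one h5

end Pool.Agent.H22.OutF
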