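import Pool.Agent.H22.OutF.Base
import Pool.Agent.H22.OutF.Newton

/-!
MP_57eb62_al : the reduction of the conjugacy problem of `Out (F_n)` to larger ranks.
-/

set_option autoImplicit false

namespace Pool.Agent.H22.OutF

theorem red_single (n N m : ℕ) (hn : 1 ≤ n) (hm : 1 ≤ m) (hN : n + m + 1 ≤ N) :
    ∃ L : Wd n × Wd n → List (Wd N × Wd N), Primrec L ∧
      ∀ (φ ψ : MulAut (FreeGroup (Fin n))) (f g : Wd n), Rep f φ → Rep g ψ →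
        (∀ p ∈ L (f, g), ∃ φ' ψ', Rep p.1 φ' ∧ Rep p.2 ψ' ∧ (OConj φ' ψ' → OConj φ ψ)) ∧
        (tr (φ ^ m) ≠ 1 → OConj φ ψ →
          ∃ p ∈ L (f, g), ∃ φ' ψ', Rep p.1 φ' ∧ Rep p.2 ψ' ∧ AConj φ' ψ') := by
  obtain ⟨r, rfl⟩ : ∃ r, m = r + 1 := ⟨m - 1, by omega⟩
  obtain ⟨q, rfl⟩ : ∃ q, N = n + r + (q + 2) := ⟨N - n - r - 2, by omega⟩
  exact ⟨redF r q, prim_redF r q, fun φ ψ f g hf hg =>
    ⟨fun p hp => redF_sound r q hn φ ψ f g hf hg p hp,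
      fun htr h => redF_complete r q φ ψ f g hf hg htr h⟩⟩

theorem red_multi (n N : ℕ) (hn : 1 ≤ n) (M : ℕ) (hN : n + M + 1 ≤ N) :
    ∃ L : Wd n × Wd n → List (Wd N × Wd N), Primrec L ∧
      ∀ (φ ψ : MulAut (FreeGroup (Fin n))) (f g : Wd n), Rep f φ → Rep g ψ →
        (∀ p ∈ L (f, g), ∃ φ' ψ', Rep p.1 φ' ∧ Rep p.2 ψ' ∧ (OConj φ' ψ' → OConj φ ψ)) ∧
        ((∃ m, 1 ≤ m ∧ m ≤ M ∧ tr (φ ^ m) ≠ 1) → OConj φ ψ →
          ∃ p ∈ L (f, g), ∃ φ' ψ', Rep p.1 φ' ∧ Rep p.2 ψ' ∧ AConj φ' ψ') := by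
  induction M with
  | zero =>
    refine ⟨fun _ => [], Primrec.const _, fun φ ψ f g _ _ => ⟨fun p hp => ?_, ?_⟩⟩
    · simp at hp
    · rintro ⟨m, h1, h2, -⟩
      omega
  | succ M ih =>
    obtain ⟨L₁, hL₁, h₁⟩ := ih (by omega)
    obtain ⟨L₂, hL₂, h₂⟩ := red_single n N (M + 1) hn (by omega) (by omega)
    refine ⟨fun p => L₁ p ++ L₂ p, Primrec.list_append.comp hL₁ hL₂,
      fun φ ψ f g hf hg => ⟨fun p hp => ?_, ?_⟩⟩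
    · rcases List.mem_append.1 hp with hp | hp
      · exact (h₁ φ ψ f g hf hg).1 p hp
      · exact (h₂ φ ψ f g hf hg).1 p hp
    · rintro ⟨m, hm1, hm2, htr⟩ h
      rcases Nat.lt_or_ge m (M + 1) with h3 | h3
      · obtain ⟨p, hp, h4⟩ := (h₁ φ ψ f g hf hg).2 ⟨m, hm1, by omega, htr⟩ h
        exact ⟨p, List.mem_append_left _ hp, h4⟩
      · have h5 : m = M + 1 := by omega
        subst h5
        obtain ⟨p, hp, h4⟩ := (h₂ φ ψ f g hf hg).2 htr h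
        exact ⟨p, List.mem_append_right _ hp, h4⟩

theorem red_all (n N : ℕ) (hn : 2 ≤ n) (hN : 2 * n + 1 ≤ N) :
    ∃ L : Wd n × Wd n → List (Wd N × Wd N), Primrec L ∧
      ∀ (φ ψ : MulAut (FreeGroup (Fin n))) (f g : Wd n), Rep f φ → Rep g ψ →
        (∀ p ∈ L (f, g), ∃ φ' ψ', Rep p.1 φ' ∧ Rep p.2 ψ' ∧ (OConj φ' ψ' → OConj φ ψ)) ∧
        (OConj φ ψ →
          ∃ p ∈ L (f, g), ∃ φ' ψ', Rep p.1 φ' ∧ Rep p.2 ψ' ∧ AConj φ' ψ') := by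
  obtain ⟨L, hL, h⟩ := red_multi n N (by omega) n (by omega)
  refine ⟨L, hL, fun φ ψ f g hf hg => ⟨(h φ ψ f g hf hg).1, fun hc => ?_⟩⟩
  refine (h φ ψ f g hf hg).2 ?_ hc
  obtain ⟨m, h1, h2, h3⟩ := exists_tr_pow_le φ (by rw [Fintype.card_fin]; exact hn)
  rw [Fintype.card_fin] at h2
  exact ⟨m, h1, h2, h3⟩

/-- A disjunctive reduction transfers decision procedures. -/
theorem transfer (n N : ℕ) (P : MulAut (FreeGroup (Fin n)) → MulAut (FreeGroup (Fin n)) → Prop)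
    (Q : MulAut (FreeGroup (Fin N)) → MulAut (FreeGroup (Fin N)) → Prop)
    (L : Wd n × Wd n → List (Wd N × Wd N)) (hL : Primrec L)
    (h : ∀ (φ ψ : MulAut (FreeGroup (Fin n))) (f g : Wd n), Rep f φ → Rep g ψ →
      (∀ p ∈ L (f, g), ∃ φ' ψ', Rep p.1 φ' ∧ Rep p.2 ψ' ∧ (Q φ' ψ' → P φ ψ)) ∧
      (P φ ψ → ∃ p ∈ L (f, g), ∃ φ' ψ', Rep p.1 φ' ∧ Rep p.2 ψ' ∧ Q φ' ψ'))
    (hN : ∃ d : Wd N × Wd N → Bool, Computable d ∧
      ∀ (φ ψ : MulAut (FreeGroup (Fin N))) (f g : Wd N), Rep f φ → Rep g ψ →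
        (d (f, g) = true ↔ Q φ ψ)) :
    ∃ d : Wd n × Wd n → Bool, Computable d ∧
      ∀ (φ ψ : MulAut (FreeGroup (Fin n))) (f g : Wd n), Rep f φ → Rep g ψ →
        (d (f, g) = true ↔ P φ ψ) := by
  obtain ⟨d, hd, hdN⟩ := hN
  refine ⟨fun p => (L p).any d, comp_any hL.to_comp hd, fun φ ψ f g hf hg => ?_⟩
  rw [List.any_eq_true]
  constructor
  · rintro ⟨p, hp, h1⟩
    obtain ⟨φ', ψ', h2, h3, h4⟩ := (h φ ψ f g hf hg).1 p hp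
    exact h4 ((hdN φ' ψ' p.1 p.2 h2 h3).1 h1)
  · intro h1
    obtain ⟨p, hp, φ', ψ', h2, h3, h4⟩ := (h φ ψ f g hf hg).2 h1
    exact ⟨p, hp, (hdN φ' ψ' p.1 p.2 h2 h3).2 h4⟩

theorem osol_of_osol (n N : ℕ) (hN : 2 * n + 1 ≤ N) (h : OSol N) : OSol n := by
  rcases Nat.lt_or_ge n 2 with hn | hn
  · interval_cases n
    · exact osol_zero
    · exact osol_one
  · obtain ⟨L, hL, h1⟩ := red_all n N hn hN
    refine transfer n N OConj OConj L hL (fun φ ψ f g hf hg => ⟨(h1 φ ψ f g hf hg).1, ?_⟩) h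
    intro h2
    obtain ⟨p, hp, φ', ψ', h3, h4, h5⟩ := (h1 φ ψ f g hf hg).2 h2
    exact ⟨p, hp, φ', ψ', h3, h4, h5.oconj⟩

theorem osol_of_asol (n N : ℕ) (hN : 2 * n + 1 ≤ N) (h : ASol N) : OSol n := by
  rcases Nat.lt_or_ge n 2 with hn | hn
  · interval_cases n
    · exact osol_zero
    · exact osol_one
  · obtain ⟨L, hL, h1⟩ := red_all n N hn hN
    refine transfer n N OConj AConj L hL (fun φ ψ f g hf hg =>
      ⟨fun p hp => ?_, (h1 φ ψ f g hf hg).2⟩) h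
    obtain ⟨φ', ψ', h3, h4, h5⟩ := (h1 φ ψ f g hf hg).1 p hp
    exact ⟨φ', ψ', h3, h4, fun h6 => h5 h6.oconj⟩

end Pool.Agent.H22.OutF
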