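import Pool.Agent.H22.OutF.ARigid
import Pool.Agent.H22.OutF.Main

/-!
MP_57eb62_al : the reduction of the conjugacy problem of the automorphism groups to the one of the
outer automorphism groups.
-/

set_option autoImplicit false

namespace Pool.Agent.H22.OutF

theorem amarks {ι : Type} [DecidableEq ι] {q : ℕ} (φ ψ : MulAut (FreeGroup ι)) (c : ℕ)
    (h : AConj φ ψ) : AConj (sA φ 1 c : MulAut (Gf ι 0 q)) (sA ψ 1 c) := by
  obtain ⟨χ, h⟩ := h
  have h1 : ∀ y, χ (φ y) = ψ (χ y) := by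
    intro y
    have h2 := h (χ y)
    rwa [MulAut.inv_apply_self] at h2
  let Θ : MulAut (Gf ι 0 q) := mkAut
    (tH (χ : FreeGroup ι →* FreeGroup ι) fun _ => 1)
    (tH ((χ⁻¹ : MulAut (FreeGroup ι)) : FreeGroup ι →* FreeGroup ι) fun _ => 1)
    (tH_tH _ _ _ _ (fun y => MulAut.inv_apply_self _ χ y) fun j => j.elim0)
    (tH_tH _ _ _ _ (fun y => MulAut.apply_inv_self _ χ y) fun j => j.elim0)
  have hΘF : ∀ y, Θ (iF y) = iF (χ y) := fun y => tH_iF _ _ y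
  have hΘB : ∀ y, Θ (iB y) = iB y := fun y => tH_iB _ _ y
  have hE : (El (1 : FreeGroup ι) 1 : Gf ι 0 q) = (iB (FreeGroup.of 0))⁻¹ := by
    have e := El_last (r := 0) (q := q) (1 : FreeGroup ι)
    rw [zero_add] at e
    rw [e, map_one, inv_one, mul_one]
  have hΘE : Θ (El (1 : FreeGroup ι) 1) = El 1 1 := by
    rw [hE, map_inv, hΘB]
  have key : ∀ y, Θ (sA φ 1 c y) = sA ψ 1 c (Θ y) := by
    intro y
    refine gf_ext ((Θ : Gf ι 0 q →* Gf ι 0 q).comp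
      ((sA φ 1 c : MulAut (Gf ι 0 q)) : Gf ι 0 q →* Gf ι 0 q))
      (((sA ψ 1 c : MulAut (Gf ι 0 q)) : Gf ι 0 q →* Gf ι 0 q).comp
          (Θ : Gf ι 0 q →* Gf ι 0 q)) ?_ (fun j => j.elim0) ?_ y
    · intro u
      change Θ (sA φ 1 c (iF u)) = sA ψ 1 c (Θ (iF u))
      rw [sA_iF, map_mul, map_mul, map_inv, hΘE, hΘF, hΘF, sA_iF, h1]
    · intro u
      change Θ (sA φ 1 c (iB u)) = sA ψ 1 c (Θ (iB u))
      rw [sA_iB, hΘB, hΘB, sA_iB]
  refine ⟨Θ, fun y => ?_⟩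
  rw [key, MulAut.apply_inv_self]

/-- The parameter of the reduction. -/
def cA {n : ℕ} (p : Wd n × Wd n) : ℕ := 2 * (tot p.1 + tot p.2 + 2) + 1

/-- The reduction of the conjugacy problem of the automorphism groups. -/
def redA {n : ℕ} (q : ℕ) (p : Wd n × Wd n) : Wd (n + 0 + (q + 2)) × Wd (n + 0 + (q + 2)) :=
  (SW 0 q p.1 [] (cA p), SW 0 q p.2 [] (cA p))

theorem prim_redA {n : ℕ} (q : ℕ) : Primrec (redA (n := n) q) := by
  have hc : Primrec fun p : Wd n × Wd n => cA p :=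
    Primrec.succ.comp (Primrec.nat_mul.comp (Primrec.const 2) (Primrec.nat_add.comp
      (Primrec.nat_add.comp (prim_tot.comp Primrec.fst) (prim_tot.comp Primrec.snd))
      (Primrec.const 2)))
  exact Primrec.pair ((prim_SW 0 q).comp (Primrec.pair Primrec.fst
      (Primrec.pair (Primrec.const []) hc)))
    ((prim_SW 0 q).comp (Primrec.pair Primrec.snd (Primrec.pair (Primrec.const []) hc)))

theorem redA_spec {n : ℕ} (q : ℕ) (φ ψ : MulAut (FreeGroup (Fin n))) (f g : Wd n)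
    (hf : Rep f φ) (hg : Rep g ψ) :
    ∃ φ' ψ', Rep (redA q (f, g)).1 φ' ∧ Rep (redA q (f, g)).2 ψ' ∧
      (AConj φ ψ → AConj φ' ψ') ∧ (OConj φ' ψ' → AConj φ ψ) := by
  refine ⟨_, _, rep_SW 0 q f φ hf [] _, rep_SW 0 q g ψ hg [] _, fun h => ?_, fun h => ?_⟩
  · exact aconj_congr _ (amarks φ ψ _ h)
  · rw [oconj_congr] at h
    have hcA : cA (f, g) = 2 * (tot f + tot g + 2) + 1 := rfl
    refine arigid φ ψ (cA (f, g)) (tot f + tot g + 2) (by omega) (by omega) ?_ ?_ h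
    · intro i
      have h1 : (φ (FreeGroup.of i)).norm ≤ tot f := by
        rw [← hf]
        exact FreeGroup.norm_mk_le.trans (le_tot f i)
      omega
    · intro i
      have h1 : (ψ (FreeGroup.of i)).norm ≤ tot g := by
        rw [← hg]
        exact FreeGroup.norm_mk_le.trans (le_tot g i)
      omega

/-- The many-one reduction. -/
theorem red_aut (n N : ℕ) (hN : n + 2 ≤ N) :
    ∃ R : Wd n × Wd n → Wd N × Wd N, Primrec R ∧
      ∀ (φ ψ : MulAut (FreeGroup (Fin n))) (f g : Wd n), Rep f φ → Rep g ψ →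
        ∃ φ' ψ', Rep (R (f, g)).1 φ' ∧ Rep (R (f, g)).2 ψ' ∧
          (AConj φ ψ ↔ AConj φ' ψ') ∧ (AConj φ ψ ↔ OConj φ' ψ') := by
  obtain ⟨q, rfl⟩ : ∃ q, N = n + 0 + (q + 2) := ⟨N - n - 2, by omega⟩
  refine ⟨redA q, prim_redA q, fun φ ψ f g hf hg => ?_⟩
  obtain ⟨φ', ψ', h1, h2, h3, h4⟩ := redA_spec q φ ψ f g hf hg
  exact ⟨φ', ψ', h1, h2, ⟨h3, fun h => h4 h.oconj⟩, ⟨fun h => (h3 h).oconj, h4⟩⟩

theorem asol_of_asol (n N : ℕ) (hN : n + 2 ≤ N) (h : ASol N) : ASol n := by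
  obtain ⟨R, hR, h1⟩ := red_aut n N hN
  obtain ⟨d, hd, hdN⟩ := h
  refine ⟨fun p => d (R p), hd.comp hR.to_comp, fun φ ψ f g hf hg => ?_⟩
  obtain ⟨φ', ψ', h2, h3, h4, -⟩ := h1 φ ψ f g hf hg
  rw [h4]
  exact hdN φ' ψ' _ _ h2 h3

theorem asol_of_osol (n N : ℕ) (hN : n + 2 ≤ N) (h : OSol N) : ASol n := by
  obtain ⟨R, hR, h1⟩ := red_aut n N hN
  obtain ⟨d, hd, hdN⟩ := h
  refine ⟨fun p => d (R p), hd.comp hR.to_comp, fun φ ψ f g hf hg => ?_⟩
  obtain ⟨φ', ψ', h2, h3, -, h4⟩ := h1 φ ψ f g hf hg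
  rw [h4]
  exact hdN φ' ψ' _ _ h2 h3

end Pool.Agent.H22.OutF
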