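import Pool.Agent.H22.OutF.Rigid

/-!
MP_57eb62_al : conjugate outer automorphisms have conjugate marked extensions.
-/

set_option autoImplicit false

namespace Pool.Agent.H22.OutF

variable {ι : Type} [DecidableEq ι] {r q : ℕ}

/-- The twisted powers of an element. -/
def tw (ψ : MulAut (FreeGroup ι)) (g : FreeGroup ι) : ℕ → FreeGroup ι
  | 0 => 1
  | j + 1 => g * ψ (tw ψ g j)

theorem tw_conj (φ ψ χ : MulAut (FreeGroup ι)) (g : FreeGroup ι)
    (h : ∀ y, χ (φ y) = g * ψ (χ y) * g⁻¹) (j : ℕ) :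
    ∀ y, χ ((φ ^ j) y) = tw ψ g j * (ψ ^ j) (χ y) * (tw ψ g j)⁻¹ := by
  induction j with
  | zero => intro y; simp [tw]
  | succ j ih =>
    intro y
    rw [pow_succ', MulAut.mul_apply, h, ih, pow_succ', MulAut.mul_apply]
    simp only [tw, map_mul, map_inv]
    group

theorem marks [Fintype ι] (φ ψ : MulAut (FreeGroup ι)) (c : ℕ) (f f' : ι → List (ι × Bool))
    (hf : ∀ i, FreeGroup.mk (f i) = (φ ^ (r + 1)) (FreeGroup.of i))
    (hf' : ∀ i, FreeGroup.mk (f' i) = (ψ ^ (r + 1)) (FreeGroup.of i))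
    (htr : tr (φ ^ (r + 1)) ≠ 1)
    (h : ∃ (χ : MulAut (FreeGroup ι)) (w : FreeGroup ι),
      ∀ y, χ (φ (χ⁻¹ y)) = w * ψ y * w⁻¹) :
    ∃ x x', Pref f x ∧ Pref f' x' ∧ ∃ (Θ : MulAut (Big ι r q)) (w : Big ι r q),
      ∀ z, Θ (gT φ x c (Θ⁻¹ z)) = w * gT ψ x' c z * w⁻¹ := by
  obtain ⟨χ, g, h⟩ := h
  have h1 : ∀ y, χ (φ y) = g * ψ (χ y) * g⁻¹ := by
    intro y
    have h2 := h (χ y)
    rwa [MulAut.inv_apply_self] at h2
  have h2 := tw_conj φ ψ χ g h1 (r + 1)
  obtain ⟨x, x', z, hx, hx', h3⟩ := rt_match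
    ((φ ^ (r + 1) : MulAut (FreeGroup ι)) : FreeGroup ι →* FreeGroup ι)
    ((ψ ^ (r + 1) : MulAut (FreeGroup ι)) : FreeGroup ι →* FreeGroup ι)
    (χ : FreeGroup ι →* FreeGroup ι) ((χ⁻¹ : MulAut (FreeGroup ι)) : FreeGroup ι →* FreeGroup ι)
    (fun y => MulAut.apply_inv_self _ χ y) (fun y => MulAut.inv_apply_self _ χ y)
    (tw ψ g (r + 1)) h2 f f' hf hf' htr
  have h4 : (tw ψ g (r + 1))⁻¹ * χ x = (ψ ^ (r + 1)) z * x' * z⁻¹ := h3
  refine ⟨x, x', hx, hx', ?_⟩
  let p : Mk r q → FreeGroup ι := fun t => tw ψ g t.1 * (ψ ^ (t.1 : ℕ)) z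
  let Θ : MulAut (Big ι r q) := mkAut (cH (χ : FreeGroup ι →* FreeGroup ι) p)
    (cH ((χ⁻¹ : MulAut (FreeGroup ι)) : FreeGroup ι →* FreeGroup ι) fun t => (χ⁻¹ (p t))⁻¹)
    (cH_cH _ _ _ _ (fun y => MulAut.inv_apply_self _ χ y) fun t => mul_inv_cancel _)
    (cH_cH _ _ _ _ (fun y => MulAut.apply_inv_self _ χ y) fun t => by
      change χ (χ⁻¹ (p t))⁻¹ * p t = 1
      rw [map_inv, MulAut.apply_inv_self, inv_mul_cancel])
  have hΘi : ∀ y, Θ (inl y) = inl (χ y) := fun y => cH_inl _ _ y
  have hΘm : ∀ t, Θ (mkr t) = inl (p t) * mkr t * (inl (p t))⁻¹ := fun t => cH_mkr _ _ t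
  have key : ∀ z, Θ (gT φ x c z) = inl g * gT ψ x' c (Θ z) * (inl g)⁻¹ := by
    intro y
    refine big_ext ((Θ : Big ι r q →* Big ι r q).comp
      ((gT φ x c : MulAut (Big ι r q)) : Big ι r q →* Big ι r q))
      (((MulAut.conj (inl g : Big ι r q) : MulAut (Big ι r q)) : Big ι r q →* Big ι r q).comp
        (((gT ψ x' c : MulAut (Big ι r q)) : Big ι r q →* Big ι r q).comp
          (Θ : Big ι r q →* Big ι r q))) ?_ ?_ y
    · intro u
      change Θ (gT φ x c (inl u)) = inl g * gT ψ x' c (Θ (inl u)) * (inl g)⁻¹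
      rw [gT_inl, hΘi, hΘi, gT_inl, h1, map_mul, map_mul, map_inv]
    · intro t
      change Θ (gT φ x c (mkr t)) = inl g * gT ψ x' c (Θ (mkr t)) * (inl g)⁻¹
      rw [gT_mkr, hΘm, map_mul, map_mul, map_inv, gT_inl, gT_mkr]
      by_cases ht : t.1 + 1 = 0
      · simp only [ht, if_true]
        have hlast : (t.1 : ℕ) = r := by
          by_contra hne
          have h5 : (t.1 : ℕ) + 1 < r + 1 := by omega
          have h6 := congrArg Fin.val ht
          rw [Fin.val_add] at h6
          have h7 : ((1 : Fin (r + 1)) : ℕ) = 1 := by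
            change 1 % (r + 1) = 1
            exact Nat.mod_eq_of_lt (by omega)
          rw [h7, Nat.mod_eq_of_lt h5] at h6
          simp at h6
        have h5 : ∀ s : Fin (q + 2), Θ (wrd c s) = inl z * wrd c s * (inl z)⁻¹ := by
          intro s
          have h6 : ∀ s : Fin (q + 2), Θ (mkr (0, s)) = inl z * mkr (0, s) * (inl z)⁻¹ := by
            intro s
            rw [hΘm]
            have h7 : p (0, s) = z := by simp [p, tw]
            rw [h7]
          unfold wrd
          split_ifs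
          · rw [map_mul, map_pow, h6, h6, conj_pow]
            group
          · exact h6 s
        have h6 : g * ψ (p t) * x' = χ x * z := by
          have h7 : g * ψ (p t) = tw ψ g (r + 1) * (ψ ^ (r + 1)) z := by
            simp only [p, hlast, map_mul, tw]
            rw [pow_succ', MulAut.mul_apply]
            group
          rw [h7]
          calc tw ψ g (r + 1) * (ψ ^ (r + 1)) z * x'
              = tw ψ g (r + 1) * ((ψ ^ (r + 1)) z * x' * z⁻¹) * z := by group
            _ = χ x * z := by rw [← h4]; group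
        have h7 : (inl g : Big ι r q) * inl (ψ (p t)) * inl x' = inl (χ x) * inl z := by
          rw [← map_mul, ← map_mul, h6, map_mul]
        rw [map_mul, map_mul, map_inv, hΘi, h5]
        calc inl (χ x) * (inl z * wrd c (t.2 + 1) * (inl z)⁻¹) * (inl (χ x))⁻¹
            = (inl (χ x) * inl z) * wrd c (t.2 + 1) * (inl (χ x) * inl z)⁻¹ := by group
          _ = inl g * (inl (ψ (p t)) * (inl x' * wrd c (t.2 + 1) * (inl x')⁻¹) *
              (inl (ψ (p t)))⁻¹) * (inl g)⁻¹ := by rw [← h7]; group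
      · simp only [ht, if_false]
        have hnl : (t.1 : ℕ) + 1 < r + 1 := by
          by_contra hcon
          apply ht
          have h5 : (t.1 : ℕ) = r := by omega
          apply Fin.ext
          rw [Fin.val_add, h5]
          rcases Nat.eq_zero_or_pos r with h6 | h6
          · subst h6
            simp
          · have h7 : ((1 : Fin (r + 1)) : ℕ) = 1 := by
              change 1 % (r + 1) = 1
              exact Nat.mod_eq_of_lt (by omega)
            rw [h7]
            simp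
        have h5 : ((t.1 + 1 : Fin (r + 1)) : ℕ) = (t.1 : ℕ) + 1 := by
          rw [Fin.val_add]
          have h7 : ((1 : Fin (r + 1)) : ℕ) = 1 := by
            change 1 % (r + 1) = 1
            exact Nat.mod_eq_of_lt (by omega)
          rw [h7, Nat.mod_eq_of_lt hnl]
        have h6 : p (t.1 + 1, t.2) = g * ψ (p t) := by
          simp only [p, h5, tw, map_mul]
          rw [pow_succ', MulAut.mul_apply]
          group
        rw [hΘm, h6, map_mul]
        group
  refine ⟨Θ, inl g, fun y => ?_⟩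
  rw [key, MulAut.apply_inv_self]

end Pool.Agent.H22.OutF
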