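import Pool.Agent.H22.OutF.Flex
import Pool.Agent.H22.OutF.Match

/-!
MP_57eb62_al : conjugate outer automorphisms give conjugate gadgets, even in the automorphism
group.
-/

set_option autoImplicit false

namespace Pool.Agent.H22.OutF

variable {ι : Type} [DecidableEq ι] {r q : ℕ}

/-- The homomorphism that is `κ` on the small group, multiplies the extra letters and fixes the
marker letters. -/
def tH (κ : FreeGroup ι →* FreeGroup ι) (p : Fin r → FreeGroup ι) : Gf ι r q →* Gf ι r q :=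
  FreeGroup.lift (Sum.elim (Sum.elim (fun i => iF (κ (FreeGroup.of i)))
    (fun j : Fin r => el j * iF (p j))) (fun s => iB (FreeGroup.of s)))

omit [DecidableEq ι] in
theorem tH_iF (κ : FreeGroup ι →* FreeGroup ι) (p : Fin r → FreeGroup ι) (y : FreeGroup ι) :
    (tH κ p (iF y) : Gf ι r q) = iF (κ y) := by
  have : ((tH κ p).comp iF : FreeGroup ι →* Gf ι r q) = iF.comp κ := by
    ext i
    rw [MonoidHom.comp_apply, iF_of, tH, FreeGroup.lift_apply_of]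
    rfl
  exact DFunLike.congr_fun this y

omit [DecidableEq ι] in
theorem tH_iB (κ : FreeGroup ι →* FreeGroup ι) (p : Fin r → FreeGroup ι)
    (y : FreeGroup (Fin (q + 2))) : (tH κ p (iB y) : Gf ι r q) = iB y := by
  have : ((tH κ p).comp iB : FreeGroup (Fin (q + 2)) →* Gf ι r q) = iB := by
    ext s
    rw [MonoidHom.comp_apply, iB_of, tH, FreeGroup.lift_apply_of]
    exact iB_of s
  exact DFunLike.congr_fun this y

omit [DecidableEq ι] in
theorem tH_el (κ : FreeGroup ι →* FreeGroup ι) (p : Fin r → FreeGroup ι) (j : Fin r) :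
    (tH κ p (el j) : Gf ι r q) = el j * iF (p j) := by
  rw [el, tH, FreeGroup.lift_apply_of]
  rfl

omit [DecidableEq ι] in
theorem tH_tH (κ κ' : FreeGroup ι →* FreeGroup ι) (p p' : Fin r → FreeGroup ι)
    (h : ∀ y, κ' (κ y) = y) (hp : ∀ j, p' j * κ' (p j) = 1) (z : Gf ι r q) :
    tH κ' p' (tH κ p z) = z := by
  refine gf_ext ((tH κ' p').comp (tH κ p)) (MonoidHom.id _) ?_ ?_ ?_ z
  · intro y
    rw [MonoidHom.comp_apply, tH_iF, tH_iF, h, MonoidHom.id_apply]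
  · intro j
    rw [MonoidHom.comp_apply, tH_el, map_mul, tH_el, tH_iF, mul_assoc, ← map_mul, hp, map_one,
      mul_one, MonoidHom.id_apply]
  · intro y
    rw [MonoidHom.comp_apply, tH_iB, tH_iB, MonoidHom.id_apply]

theorem fmarks [Fintype ι] (φ ψ : MulAut (FreeGroup ι)) (c : ℕ) (f f' : ι → List (ι × Bool))
    (hf : ∀ i, FreeGroup.mk (f i) = (φ ^ (r + 1)) (FreeGroup.of i))
    (hf' : ∀ i, FreeGroup.mk (f' i) = (ψ ^ (r + 1)) (FreeGroup.of i))
    (htr : tr (φ ^ (r + 1)) ≠ 1)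
    (h : ∃ (χ : MulAut (FreeGroup ι)) (w : FreeGroup ι),
      ∀ y, χ (φ (χ⁻¹ y)) = w * ψ y * w⁻¹) :
    ∃ x x', Pref f x ∧ Pref f' x' ∧ ∃ (Θ : MulAut (Gf ι r q)),
      ∀ z, Θ (sA φ x c (Θ⁻¹ z)) = sA ψ x' c z := by
  obtain ⟨χ, g, h⟩ := h
  have h1 : ∀ y, χ (φ y) = g * ψ (χ y) * g⁻¹ := by
    intro y
    have h2 := h (χ y)
    rwa [MulAut.inv_apply_self] at h2
  have h2 := tw_conj φ ψ χ g h1 (r + 1)
  obtain ⟨x, x', z, hx, hx', h3⟩ := rt_match
    ((φ ^ (r + 1) : MulAut (FreeGroup ι)) : FreeGroup ι →* FreeGroup ι)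
    ((ψ ^ (r + 1) : MulAut (FreeGroup ι)) : FreeGroup ι →* FreeGroup ι)
    (χ : FreeGroup ι →* FreeGroup ι) ((χ⁻¹ : MulAut (FreeGroup ι)) : FreeGroup ι →* FreeGroup ι)
    (fun y => MulAut.apply_inv_self _ χ y) (fun y => MulAut.inv_apply_self _ χ y)
    (tw ψ g (r + 1)) h2 f f' hf hf' htr
  have h4 : (tw ψ g (r + 1))⁻¹ * χ x = (ψ ^ (r + 1)) z * x' * z⁻¹ := h3
  refine ⟨x, x', hx, hx', ?_⟩
  obtain ⟨hh, hhd⟩ : ∃ hh : ℕ → FreeGroup ι, ∀ j, hh j = z⁻¹ * tw ψ g j * (ψ ^ j) z :=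
    ⟨_, fun j => rfl⟩
  have hh0 : hh 0 = 1 := by
    rw [hhd]
    simp [tw]
  have hh1 : hh 1 = z⁻¹ * g * ψ z := by
    rw [hhd]
    simp [tw]
  have hhs : ∀ j, hh (j + 1) = hh 1 * ψ (hh j) := by
    intro j
    rw [hh1, hhd, hhd, pow_succ', MulAut.mul_apply]
    simp only [tw, map_mul, map_inv]
    group
  have hhl : z⁻¹ * χ x * z = hh (r + 1) * x' := by
    rw [hhd]
    calc z⁻¹ * χ x * z = z⁻¹ * tw ψ g (r + 1) * ((tw ψ g (r + 1))⁻¹ * χ x) * z := by group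
      _ = _ := by rw [h4]; group
  -- the small automorphism
  obtain ⟨κ, hκ⟩ : ∃ κ : MulAut (FreeGroup ι), ∀ y, κ y = z⁻¹ * χ y * z :=
    ⟨MulAut.conj z⁻¹ * χ, fun y => by simp [MulAut.conj_apply]⟩
  let Θ : MulAut (Gf ι r q) := mkAut
    (tH (κ : FreeGroup ι →* FreeGroup ι) fun j => (hh ((j : ℕ) + 1))⁻¹)
    (tH ((κ⁻¹ : MulAut (FreeGroup ι)) : FreeGroup ι →* FreeGroup ι)
      fun j => κ⁻¹ (hh ((j : ℕ) + 1)))
    (tH_tH _ _ _ _ (fun y => MulAut.inv_apply_self _ κ y) fun j => by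
      change κ⁻¹ (hh ((j : ℕ) + 1)) * κ⁻¹ (hh ((j : ℕ) + 1))⁻¹ = 1
      rw [← map_mul, mul_inv_cancel, map_one])
    (tH_tH _ _ _ _ (fun y => MulAut.apply_inv_self _ κ y) fun j => by
      change (hh ((j : ℕ) + 1))⁻¹ * κ (κ⁻¹ (hh ((j : ℕ) + 1))) = 1
      rw [MulAut.apply_inv_self, inv_mul_cancel])
  have hΘF : ∀ y, Θ (iF y) = iF (κ y) := fun y => tH_iF _ _ y
  have hΘB : ∀ y, Θ (iB y) = iB y := fun y => tH_iB _ _ y
  have hΘe : ∀ j : Fin r, Θ (el j) = el j * iF (hh ((j : ℕ) + 1))⁻¹ := fun j => tH_el _ _ j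
  have hΘE : ∀ j, j ≤ r + 1 → Θ (El x j) = El x' j * (iF (hh j))⁻¹ := by
    intro j hj
    rcases Nat.lt_or_ge j (r + 1) with h5 | h5
    · rcases j with _ | j
      · rw [El_zero, El_zero, map_one, hh0, map_one, inv_one, mul_one]
      · have e1 := El_succ (q := q) x (⟨j, by omega⟩ : Fin r)
        have e2 := El_succ (q := q) x' (⟨j, by omega⟩ : Fin r)
        simp only at e1 e2
        rw [e1, e2, hΘe, map_inv]
    · have h6 : j = r + 1 := le_antisymm hj h5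
      subst h6
      rw [El_last, El_last, map_mul, map_inv, map_inv, hΘB, hΘF, hκ, hhl, map_mul]
      group
  have key : ∀ y, Θ (sA φ x c y) = sA ψ x' c (Θ y) := by
    intro y
    refine gf_ext ((Θ : Gf ι r q →* Gf ι r q).comp
      ((sA φ x c : MulAut (Gf ι r q)) : Gf ι r q →* Gf ι r q))
      (((sA ψ x' c : MulAut (Gf ι r q)) : Gf ι r q →* Gf ι r q).comp
          (Θ : Gf ι r q →* Gf ι r q)) ?_ ?_ ?_ y
    · intro u
      change Θ (sA φ x c (iF u)) = sA ψ x' c (Θ (iF u))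
      rw [sA_iF, map_mul, map_mul, map_inv, hΘE 1 (by omega), hΘF, hΘF, sA_iF]
      have h5 : (hh 1)⁻¹ * κ (φ u) * hh 1 = ψ (κ u) := by
        rw [hκ, hκ, hh1, h1, map_mul, map_mul, map_inv]
        group
      have h6 : (iF (hh 1) : Gf ι r q)⁻¹ * iF (κ (φ u)) * iF (hh 1) = iF (ψ (κ u)) := by
        rw [← h5, map_mul, map_mul, map_inv]
      rw [← h6]
      group
    · intro j
      change Θ (sA φ x c (el j)) = sA ψ x' c (Θ (el j))
      have hj := j.2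
      have a1 : sA φ x c (el j : Gf ι r q) = El x ((j : ℕ) + 1 + 1) * (El x 1)⁻¹ := by
        rw [← El_succ (q := q) x j]
        exact sA_El _ _ _ _ (by omega)
      have a2 : sA ψ x' c (el j : Gf ι r q) = El x' ((j : ℕ) + 1 + 1) * (El x' 1)⁻¹ := by
        rw [← El_succ (q := q) x' j]
        exact sA_El _ _ _ _ (by omega)
      rw [hΘe, a1, map_mul, map_mul, map_inv, hΘE _ (by omega), hΘE 1 (by omega), a2,
        sA_iF, map_inv ψ, map_inv iF, hhs ((j : ℕ) + 1), map_mul]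
      group
    · intro u
      change Θ (sA φ x c (iB u)) = sA ψ x' c (Θ (iB u))
      rw [sA_iB, hΘB, hΘB, sA_iB]
  refine ⟨Θ, fun y => ?_⟩
  rw [key, MulAut.apply_inv_self]

end Pool.Agent.H22.OutF
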