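import Pool.Agent.H22.OutF.Comp
import Mathlib.Computability.Partrec

/-!
MP_57eb62_al : the reduction is primitive recursive.
-/

set_option autoImplicit false

namespace Pool.Agent.H22.OutF

theorem prim_pi {α σ : Type} [Primcodable α] [Primcodable σ] {n : ℕ} {F : α → Fin n → σ}
    (h : ∀ k, Primrec fun a => F a k) : Primrec F := by
  rw [Primrec.fin_curry]
  have h1 : Primrec₂ fun (k : Fin n) (a : α) => F a k := Primrec.fin_curry₁.2 h
  exact (h1.comp Primrec.snd Primrec.fst : Primrec fun p : α × Fin n => F p.1 p.2)

theorem prim_iv {α : Type} [Primcodable α] :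
    Primrec (iv : List (α × Bool) → List (α × Bool)) :=
  Primrec.list_reverse.comp (Primrec.list_map Primrec.id
    ((Primrec.fst.comp Primrec.snd).pair
      (Primrec.not.comp (Primrec.snd.comp Primrec.snd)) : Primrec
        fun p : List (α × Bool) × (α × Bool) => (p.2.1, !p.2.2)).to₂)

theorem prim_subL {n : ℕ} : Primrec₂ (subL : Wd n → List (Fin n × Bool) → _) := by
  refine (Primrec.list_flatMap Primrec.snd ?_ : Primrec
    fun p : Wd n × List (Fin n × Bool) => p.2.flatMap fun s =>
      if s.2 then p.1 s.1 else iv (p.1 s.1))
  have h1 : Primrec fun p : (Wd n × List (Fin n × Bool)) × (Fin n × Bool) => p.1.1 p.2.1 :=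
    Primrec.fin_app.comp (Primrec.fst.comp Primrec.fst) (Primrec.fst.comp Primrec.snd)
  refine Primrec.ite (c := fun p : (Wd n × List (Fin n × Bool)) × (Fin n × Bool) =>
    p.2.2 = true) ?_ h1 (prim_iv.comp h1)
  exact Primrec.eq.comp (Primrec.snd.comp Primrec.snd) (Primrec.const true)

theorem prim_powL {n : ℕ} (m : ℕ) : Primrec fun f : Wd n => powL f m := by
  induction m with
  | zero => exact Primrec.const _
  | succ m ih =>
    refine prim_pi fun i => ?_
    exact prim_subL.comp Primrec.id (Primrec.fin_app.comp ih (Primrec.const i))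

theorem prim_prefs {n : ℕ} : Primrec (prefs : Wd n → _) := by
  refine Primrec.list_cons.comp (Primrec.const []) (Primrec.list_flatMap (Primrec.const _) ?_)
  have h1 : Primrec fun p : Wd n × Fin n => p.1 p.2 :=
    Primrec.fin_app.comp Primrec.fst Primrec.snd
  refine Primrec.list_map (Primrec.list_range.comp
    (Primrec.succ.comp (Primrec.list_length.comp h1))) ?_
  exact Primrec.list_take.comp Primrec.snd (h1.comp Primrec.fst)

theorem prim_tot {n : ℕ} : Primrec (tot : Wd n → ℕ) :=
  Primrec.list_length.comp (Primrec.list_flatMap (Primrec.const _) Primrec.fin_app)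

theorem prim_emb {n : ℕ} (r q : ℕ) : Primrec (emb (n := n) r q) :=
  Primrec.list_map Primrec.id ((Primrec.dom_finite fun a : Fin n × Bool =>
    (eN n r q (Sum.inl a.1), a.2)).comp Primrec.snd).to₂

theorem prim_replicate {α : Type} [Primcodable α] (a : α) :
    Primrec fun c : ℕ => List.replicate c a := by
  have h : Primrec fun c : ℕ => (List.range c).map fun _ => a :=
    Primrec.list_map Primrec.list_range (Primrec.const a).to₂
  refine h.of_eq fun c => ?_
  simp

theorem prim_wrdL {n : ℕ} (r q : ℕ) (s : Fin (q + 2)) :
    Primrec fun c : ℕ => wrdL (n := n) r q c s := by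
  unfold wrdL
  by_cases h : s = 1
  · simp only [h, if_true]
    exact Primrec.list_append.comp (prim_replicate _) (Primrec.const _)
  · simp only [h, if_false]
    exact Primrec.const _

theorem prim_gW {n : ℕ} (r q : ℕ) :
    Primrec fun p : Wd n × (List (Fin n × Bool) × ℕ) => gW r q p.1 p.2.1 p.2.2 := by
  refine prim_pi fun k => ?_
  unfold gW
  rcases hk : (eN n r q).symm k with i | t
  · simp only
    exact (prim_emb r q).comp (Primrec.fin_app.comp Primrec.fst (Primrec.const i))
  · simp only
    by_cases h : t.1 + 1 = 0
    · simp only [h, if_true]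
      have h1 : Primrec fun p : Wd n × (List (Fin n × Bool) × ℕ) => emb r q p.2.1 :=
        (prim_emb r q).comp (Primrec.fst.comp Primrec.snd)
      refine Primrec.list_append.comp h1 (Primrec.list_append.comp ?_ (prim_iv.comp h1))
      exact (prim_wrdL r q (t.2 + 1)).comp (Primrec.snd.comp Primrec.snd)
    · simp only [h, if_false]
      exact Primrec.const _

theorem prim_redL {n : ℕ} (r q : ℕ) : Primrec (redL (n := n) r q) := by
  have hF : Primrec fun p : Wd n × Wd n => powL p.1 (r + 1) :=
    (prim_powL (r + 1)).comp Primrec.fst
  have hG : Primrec fun p : Wd n × Wd n => powL p.2 (r + 1) :=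
    (prim_powL (r + 1)).comp Primrec.snd
  have hc : Primrec fun p : Wd n × Wd n =>
      2 * (tot (powL p.1 (r + 1)) + tot (powL p.2 (r + 1)) + 2) + 1 :=
    Primrec.succ.comp (Primrec.nat_mul.comp (Primrec.const 2) (Primrec.succ.comp
      (Primrec.succ.comp (Primrec.nat_add.comp (prim_tot.comp hF) (prim_tot.comp hG)))))
  refine Primrec.list_flatMap (prim_prefs.comp hF) ?_
  refine Primrec.list_map ((prim_prefs.comp hG).comp Primrec.fst) ?_
  have hc' := hc.comp (Primrec.fst.comp (Primrec.fst (α := (Wd n × Wd n) × List (Fin n × Bool))
    (β := List (Fin n × Bool))))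
  refine Primrec.pair ?_ ?_
  · exact (prim_gW r q).comp (Primrec.pair (Primrec.fst.comp (Primrec.fst.comp Primrec.fst))
      (Primrec.pair (Primrec.snd.comp Primrec.fst) hc'))
  · exact (prim_gW r q).comp (Primrec.pair (Primrec.snd.comp (Primrec.fst.comp Primrec.fst))
      (Primrec.pair Primrec.snd hc'))

theorem comp_any {α β : Type} [Primcodable α] [Primcodable β] {L : α → List β} {d : β → Bool}
    (hL : Computable L) (hd : Computable d) : Computable fun a => (L a).any d := by
  have h1 : Computable fun p : α × ℕ => Nat.rec (motive := fun _ => Bool) false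
      (fun y IH => IH || (match (L p.1)[y]? with | none => false | some b => d b)) p.2 := by
    have hs : Computable fun p : α × ℕ => p.2 := Computable.snd
    refine Computable.nat_rec (h := fun (p : α × ℕ) (s : ℕ × Bool) => s.2 ||
      (match (L p.1)[s.1]? with | none => false | some b => d b)) hs (Computable.const false) ?_
    have h2 : Computable fun t : (α × ℕ) × (ℕ × Bool) =>
        (match (L t.1.1)[t.2.1]? with | none => false | some b => d b : Bool) := by
      have h3 : Computable fun t : (α × ℕ) × (ℕ × Bool) => (L t.1.1)[t.2.1]? :=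
        Computable.list_getElem?.comp (hL.comp (Computable.fst.comp Computable.fst))
          (Computable.fst.comp Computable.snd)
      have h0 : Computable₂ fun (_ : (α × ℕ) × (ℕ × Bool)) (b : β) => d b :=
        hd.comp Computable.snd
      have h4 := Computable.option_casesOn h3 (Computable.const false) h0
      refine h4.of_eq fun t => ?_
      cases (L t.1.1)[t.2.1]? <;> rfl
    exact (Primrec.or.to_comp.comp (Computable.snd.comp Computable.snd) h2).to₂
  have h5 := h1.comp (Computable.id.pair (Computable.list_length.comp hL))
  refine h5.of_eq fun a => ?_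
  have h6 : ∀ k, (Nat.rec (motive := fun _ => Bool) false
      (fun y IH => IH || (match (L a)[y]? with | none => false | some b => d b)) k) =
      ((L a).take k).any d := by
    intro k
    induction k with
    | zero => simp
    | succ k ih =>
      change (_ || _) = _
      rw [ih, List.take_add_one, List.any_append]
      congr 1
      cases (L a)[k]? <;> simp
  exact (h6 (L a).length).trans (by rw [List.take_length])

end Pool.Agent.H22.OutF
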