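import Pool.Agent.H22.OutF.FRigid
import Pool.Agent.H22.OutF.FMatch
import Pool.Agent.H22.OutF.Prim

/-!
MP_57eb62_al : the flexible gadget on the level of words.
-/

set_option autoImplicit false

namespace Pool.Agent.H22.OutF

/-- Conjugacy in the automorphism group. -/
def AConj {G : Type} [Group G] (φ ψ : MulAut G) : Prop :=
  ∃ χ : MulAut G, ∀ x, χ (φ (χ⁻¹ x)) = ψ x

theorem AConj.oconj {G : Type} [Group G] {φ ψ : MulAut G} (h : AConj φ ψ) : OConj φ ψ := by
  obtain ⟨χ, h⟩ := h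
  exact ⟨χ, 1, fun x => by rw [h, one_mul, inv_one, mul_one]⟩

theorem aconj_congr {G H : Type} [Group G] [Group H] (E : G ≃* H) {φ ψ : MulAut G}
    (h : AConj φ ψ) : AConj (MulAut.congr E φ) (MulAut.congr E ψ) := by
  obtain ⟨χ, h⟩ := h
  refine ⟨MulAut.congr E χ, fun x => ?_⟩
  have h1 := h (E.symm x)
  have h4 : (MulAut.congr E χ)⁻¹ x = E (χ⁻¹ (E.symm x)) := by
    rw [← map_inv]
    rfl
  have h5 : ∀ (χ : MulAut G) y, MulAut.congr E χ y = E (χ (E.symm y)) := fun χ y => rfl
  rw [h4, h5, h5, h5, MulEquiv.symm_apply_apply, MulEquiv.symm_apply_apply, h1]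

section gadget

variable {n : ℕ} (r q : ℕ)

/-- The index bijection. -/
def eF (n r q : ℕ) : (Fin n ⊕ Fin r) ⊕ Fin (q + 2) ≃ Fin (n + r + (q + 2)) :=
  (Equiv.sumCongr finSumFinEquiv (Equiv.refl _)).trans finSumFinEquiv

/-- The words of the small group as words of the big group. -/
def embF (w : List (Fin n × Bool)) : List (Fin (n + r + (q + 2)) × Bool) :=
  w.map fun a => (eF n r q (Sum.inl (Sum.inl a.1)), a.2)

/-- The words of the elements `e_j`. -/
def ElW (X : List (Fin n × Bool)) (j : ℕ) : List (Fin (n + r + (q + 2)) × Bool) :=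
  if j = 0 then [] else if h : j - 1 < r then
    [(eF n r q (Sum.inl (Sum.inr ⟨j - 1, h⟩)), true)] else
    [(eF n r q (Sum.inr 0), false)] ++ iv (embF r q X)

/-- The words of the gadget. -/
def SW (f : Wd n) (X : List (Fin n × Bool)) (c : ℕ) : Wd (n + r + (q + 2)) := fun k =>
  match (eF n r q).symm k with
  | Sum.inl (Sum.inl i) => ElW r q X 1 ++ (embF r q (f i) ++ iv (ElW r q X 1))
  | Sum.inl (Sum.inr j) => ElW r q X ((j : ℕ) + 2) ++ iv (ElW r q X 1)
  | Sum.inr s => if s = 0 then List.replicate c (eF n r q (Sum.inr 0), true) ++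
      [(eF n r q (Sum.inr 1), true)] else [(eF n r q (Sum.inr (s + 1)), true)]

/-- The isomorphism of the big groups. -/
def EF (n r q : ℕ) : Gf (Fin n) r q ≃* FreeGroup (Fin (n + r + (q + 2))) :=
  FreeGroup.freeGroupCongr (eF n r q)

theorem EF_of (a : (Fin n ⊕ Fin r) ⊕ Fin (q + 2)) :
    EF n r q (FreeGroup.of a) = FreeGroup.of (eF n r q a) := by
  simp [EF]

theorem EF_symm_of (k : Fin (n + r + (q + 2))) :
    (EF n r q).symm (FreeGroup.of k) = FreeGroup.of ((eF n r q).symm k) := by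
  rw [MulEquiv.symm_apply_eq, EF_of, Equiv.apply_symm_apply]

theorem mk_embF (w : List (Fin n × Bool)) :
    FreeGroup.mk (embF r q w) = EF n r q (iF (FreeGroup.mk w)) := by
  unfold EF iF embF
  have h : ∀ z : Gf (Fin n) r q,
      FreeGroup.freeGroupCongr (eF n r q) z = FreeGroup.map (eF n r q) z := fun _ => rfl
  rw [FreeGroup.map.mk, h, FreeGroup.map.mk, List.map_map]
  rfl

theorem mk_ElW (X : List (Fin n × Bool)) (j : ℕ) :
    FreeGroup.mk (ElW r q X j) = EF n r q (El (FreeGroup.mk X) j) := by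
  unfold ElW El
  split_ifs with h1 h2
  · rw [map_one]
    rfl
  · rw [el, EF_of]
    rfl
  · rw [← FreeGroup.mul_mk, mk_iv, mk_embF, map_mul, map_inv, map_inv, iB_of, EF_of]
    rfl

theorem rep_SW (f : Wd n) (φ : MulAut (FreeGroup (Fin n))) (hf : Rep f φ)
    (X : List (Fin n × Bool)) (c : ℕ) :
    Rep (SW r q f X c) (MulAut.congr (EF n r q) (sA φ (FreeGroup.mk X) c)) := by
  intro k
  have h0 : (MulAut.congr (EF n r q) (sA φ (FreeGroup.mk X) c)) (FreeGroup.of k) =
      EF n r q (sA φ (FreeGroup.mk X) c ((EF n r q).symm (FreeGroup.of k))) := rfl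
  rw [h0, EF_symm_of]
  unfold SW
  rcases hk : (eF n r q).symm k with (i | j) | s
  · simp only
    rw [← iF_of, sA_iF, ← FreeGroup.mul_mk, ← FreeGroup.mul_mk, mk_iv, mk_embF, mk_ElW, hf,
      map_mul, map_mul, map_inv, mul_assoc]
  · simp only
    have hj := j.2
    have h1 : (FreeGroup.of (Sum.inl (Sum.inr j)) : Gf (Fin n) r q) =
        El (FreeGroup.mk X) ((j : ℕ) + 1) := (El_succ (q := q) (FreeGroup.mk X) j).symm
    rw [h1, sA_El _ _ _ _ (by omega), ← FreeGroup.mul_mk, mk_iv, mk_ElW, mk_ElW, map_mul,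
      map_inv]
  · simp only
    rw [← iB_of, sA_iB, bH_of]
    split_ifs with h2
    · rw [← FreeGroup.mul_mk, mk_replicate, map_mul, map_pow, map_mul, map_pow, iB_of, iB_of,
        EF_of, EF_of]
      rfl
    · rw [iB_of, EF_of]
      rfl

/-- The bound for the lengths. -/
def cL (r : ℕ) (p : Wd n × Wd n) : ℕ :=
  tot p.1 + tot p.2 + 2 * (tot (powL p.1 (r + 1)) + tot (powL p.2 (r + 1)) + 1)

/-- The reduction. -/
def redF (p : Wd n × Wd n) : List (Wd (n + r + (q + 2)) × Wd (n + r + (q + 2))) :=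
  (prefs (powL p.1 (r + 1))).flatMap fun X => (prefs (powL p.2 (r + 1))).map fun Y =>
    (SW r q p.1 X ((r + 1) * (2 * cL r p + 1)), SW r q p.2 Y ((r + 1) * (2 * cL r p + 1)))

theorem length_prefs (f : Wd n) (X : List (Fin n × Bool)) (hX : X ∈ prefs f) :
    X.length ≤ tot f := by
  unfold prefs at hX
  rcases List.mem_cons.1 hX with rfl | hX
  · exact Nat.zero_le _
  · rw [List.mem_flatMap] at hX
    obtain ⟨i, -, hX⟩ := hX
    rw [List.mem_map] at hX
    obtain ⟨k, -, rfl⟩ := hX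
    rw [List.length_take]
    exact (Nat.min_le_right _ _).trans (le_tot f i)

theorem redF_sound (hn : 1 ≤ n) (φ ψ : MulAut (FreeGroup (Fin n))) (f g : Wd n)
    (hf : Rep f φ) (hg : Rep g ψ) (p) (hp : p ∈ redF r q (f, g)) :
    ∃ φ' ψ', Rep p.1 φ' ∧ Rep p.2 ψ' ∧ (OConj φ' ψ' → OConj φ ψ) := by
  unfold redF at hp
  rw [List.mem_flatMap] at hp
  obtain ⟨X, hX, hp⟩ := hp
  rw [List.mem_map] at hp
  obtain ⟨Y, hY, rfl⟩ := hp
  refine ⟨_, _, rep_SW r q f φ hf X _, rep_SW r q g ψ hg Y _, fun h => ?_⟩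
  rw [oconj_congr] at h
  have hX' := length_prefs _ X hX
  have hY' := length_prefs _ Y hY
  have hx := (FreeGroup.norm_mk_le (L₁ := X)).trans hX'
  have hy := (FreeGroup.norm_mk_le (L₁ := Y)).trans hY'
  have : Nonempty (Fin n) := ⟨⟨0, hn⟩⟩
  have hcL : cL r (f, g) = tot f + tot g +
    2 * (tot (powL f (r + 1)) + tot (powL g (r + 1)) + 1) := rfl
  have hx2 : (FreeGroup.mk X).norm ≤ tot (powL f (r + 1)) := hx
  have hy2 : (FreeGroup.mk Y).norm ≤ tot (powL g (r + 1)) := hy
  refine frigid φ ψ (FreeGroup.mk X) (FreeGroup.mk Y) _ (cL r (f, g)) (by omega)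
    (Nat.le_mul_of_pos_left _ (Nat.succ_pos r)) (Dvd.intro _ rfl) ?_ ?_ h
  · intro i
    have h1 : (φ (FreeGroup.of i)).norm ≤ tot f := by
      rw [← hf]
      exact FreeGroup.norm_mk_le.trans (le_tot f i)
    omega
  · intro i
    have h1 : (ψ (FreeGroup.of i)).norm ≤ tot g := by
      rw [← hg]
      exact FreeGroup.norm_mk_le.trans (le_tot g i)
    omega

theorem redF_complete (φ ψ : MulAut (FreeGroup (Fin n))) (f g : Wd n) (hf : Rep f φ)
    (hg : Rep g ψ) (htr : tr (φ ^ (r + 1)) ≠ 1) (h : OConj φ ψ) :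
    ∃ p ∈ redF r q (f, g), ∃ φ' ψ', Rep p.1 φ' ∧ Rep p.2 ψ' ∧ AConj φ' ψ' := by
  obtain ⟨x, x', hx, hx', h1⟩ := fmarks (r := r) (q := q) φ ψ
    ((r + 1) * (2 * cL r (f, g) + 1)) (powL f (r + 1))
    (powL g (r + 1)) (rep_powL f φ hf (r + 1)) (rep_powL g ψ hg (r + 1)) htr h
  obtain ⟨X, hX, rfl⟩ := mem_prefs _ _ hx
  obtain ⟨Y, hY, rfl⟩ := mem_prefs _ _ hx'
  exact ⟨_, List.mem_flatMap.2 ⟨X, hX, List.mem_map.2 ⟨Y, hY, rfl⟩⟩, _, _,
    rep_SW r q f φ hf X _, rep_SW r q g ψ hg Y _, aconj_congr _ h1⟩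

theorem prim_embF : Primrec (embF (n := n) r q) :=
  Primrec.list_map Primrec.id ((Primrec.dom_finite fun a : Fin n × Bool =>
    (eF n r q (Sum.inl (Sum.inl a.1)), a.2)).comp Primrec.snd).to₂

theorem prim_ElW (j : ℕ) : Primrec fun X : List (Fin n × Bool) => ElW r q X j := by
  unfold ElW
  by_cases h1 : j = 0
  · simp only [h1, if_true]
    exact Primrec.const _
  · simp only [h1, if_false]
    by_cases h2 : j - 1 < r
    · simp only [h2, dif_pos]
      exact Primrec.const _
    · simp only [h2, dif_neg, not_false_eq_true]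
      exact Primrec.list_append.comp (Primrec.const _) (prim_iv.comp (prim_embF r q))

theorem prim_SW : Primrec fun p : Wd n × (List (Fin n × Bool) × ℕ) =>
    SW r q p.1 p.2.1 p.2.2 := by
  refine prim_pi fun k => ?_
  unfold SW
  have hX : Primrec fun p : Wd n × (List (Fin n × Bool) × ℕ) => p.2.1 :=
    Primrec.fst.comp Primrec.snd
  have hE : ∀ j, Primrec fun p : Wd n × (List (Fin n × Bool) × ℕ) => ElW r q p.2.1 j :=
    fun j => (prim_ElW r q j).comp hX
  rcases hk : (eF n r q).symm k with (i | j) | s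
  · simp only
    exact Primrec.list_append.comp (hE 1) (Primrec.list_append.comp
      ((prim_embF r q).comp (Primrec.fin_app.comp Primrec.fst (Primrec.const i)))
      (prim_iv.comp (hE 1)))
  · simp only
    exact Primrec.list_append.comp (hE _) (prim_iv.comp (hE 1))
  · simp only
    by_cases h : s = 0
    · simp only [h, if_true]
      exact Primrec.list_append.comp ((prim_replicate _).comp (Primrec.snd.comp Primrec.snd))
        (Primrec.const _)
    · simp only [h, if_false]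
      exact Primrec.const _

theorem prim_redF : Primrec (redF (n := n) r q) := by
  have hF : Primrec fun p : Wd n × Wd n => powL p.1 (r + 1) :=
    (prim_powL (r + 1)).comp Primrec.fst
  have hG : Primrec fun p : Wd n × Wd n => powL p.2 (r + 1) :=
    (prim_powL (r + 1)).comp Primrec.snd
  have hL : Primrec fun p : Wd n × Wd n => cL r p :=
    Primrec.nat_add.comp (Primrec.nat_add.comp (prim_tot.comp Primrec.fst)
      (prim_tot.comp Primrec.snd)) (Primrec.nat_mul.comp (Primrec.const 2)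
        (Primrec.succ.comp (Primrec.nat_add.comp (prim_tot.comp hF) (prim_tot.comp hG))))
  have hc : Primrec fun p : Wd n × Wd n => (r + 1) * (2 * cL r p + 1) :=
    Primrec.nat_mul.comp (Primrec.const (r + 1)) (Primrec.succ.comp
      (Primrec.nat_mul.comp (Primrec.const 2) hL))
  refine Primrec.list_flatMap (prim_prefs.comp hF) ?_
  refine Primrec.list_map ((prim_prefs.comp hG).comp Primrec.fst) ?_
  have hc' := hc.comp (Primrec.fst.comp (Primrec.fst (α := (Wd n × Wd n) × List (Fin n × Bool))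
    (β := List (Fin n × Bool))))
  refine Primrec.pair ?_ ?_
  · exact (prim_SW r q).comp (Primrec.pair (Primrec.fst.comp (Primrec.fst.comp Primrec.fst))
      (Primrec.pair (Primrec.snd.comp Primrec.fst) hc'))
  · exact (prim_SW r q).comp (Primrec.pair (Primrec.snd.comp (Primrec.fst.comp Primrec.fst))
      (Primrec.pair Primrec.snd hc'))

end gadget

end Pool.Agent.H22.OutF
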