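import Pool.Agent.H22.OutF.RCross
import Pool.Agent.H22.OutF.FComp

/-!
MP_57eb62_al : the gadget with trivial mark detects conjugacy in the automorphism group.
-/

set_option autoImplicit false

namespace Pool.Agent.H22.OutF

open Finset

variable {ι : Type} [DecidableEq ι] {q : ℕ}

omit [DecidableEq ι] in
theorem pB_El1 : pB (El (1 : FreeGroup ι) 1 : Gf ι 0 q) = 1 := by
  have h := El_last (r := 0) (q := q) (1 : FreeGroup ι)
  rw [zero_add] at h
  rw [h, map_mul, map_inv, map_inv, pB_iB, map_one, map_one, inv_one, mul_one]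

omit [DecidableEq ι] in
theorem pB_sA1 (φ : MulAut (FreeGroup ι)) (c : ℕ) (a : MulAut (Ba ι 0))
    (ha : ∀ z : Gf ι 0 q, pB (sA φ 1 c z) = a (pB z)) (y : FreeGroup ι) :
    a (iS y) = iS (φ y) := by
  have h := ha (iF y)
  rw [pB_iF, sA_iF, map_mul, map_mul, map_inv, pB_El1, pB_iF, one_mul, inv_one, mul_one] at h
  exact h.symm

/-- The matrix of the conjugacy on the marker letters is scalar. -/
theorem scalar_eq (c : ℕ) (hc : 2 ≤ c) (l : ℝ) (hl1 : (c : ℝ) < l)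
    (hl2 : l ^ (q + 2) = c * l ^ (q + 1) + 1) (w : Ba ι 0) (a : MulAut (Ba ι 0))
    (P : Fin (q + 2) → RF (ι ⊕ Fin 0))
    (h0 : (c : ℝ) • P 0 + P 1 = l • TT w a (P 0))
    (h1 : ∀ t, t ≠ 0 → P (t + 1) = l • TT w a (P t)) :
    TT w a (P 1) = P 1 ∧ ∀ t, P t = mu q l t • P 1 := by
  obtain ⟨T, hT⟩ : ∃ T, T = TT w a := ⟨_, rfl⟩
  rw [← hT] at h0 h1 ⊢
  have hv : ∀ j : ℕ, ((Fin.ofNat (q + 2) j : Fin (q + 2)) : ℕ) = j % (q + 2) := fun j => rfl
  have hsc : ∀ j : ℕ, Fin.ofNat (q + 2) (j + 1) = Fin.ofNat (q + 2) j + 1 := by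
    intro j
    apply Fin.ext
    rw [Fin.val_add, hv, hv, Fin.val_one, Nat.mod_add_mod]
  have hcast : ∀ j : ℕ, j + 1 ≤ q + 1 → Fin.ofNat (q + 2) (j + 1) ≠ 0 := by
    intro j hj h
    have h2 := hv (j + 1)
    rw [Nat.mod_eq_of_lt (by omega), h] at h2
    simp at h2
  have hP : ∀ j : ℕ, j ≤ q + 1 → P (Fin.ofNat (q + 2) (j + 1)) = l ^ j • (T ^ j) (P 1) := by
    intro j
    induction j with
    | zero =>
      intro _
      rw [pow_zero, pow_zero, one_smul, Module.End.one_apply]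
      rfl
    | succ j ih =>
      intro hj
      rw [hsc, h1 _ (hcast j hj), ih (by omega), map_smul, smul_smul, ← pow_succ',
        pow_succ' T, Module.End.mul_apply]
  have hP0 : P 0 = l ^ (q + 1) • (T ^ (q + 1)) (P 1) := by
    rw [← hP (q + 1) le_rfl]
    congr 1
    apply Fin.ext
    rw [hv, Nat.mod_self]
    rfl
  have hΔ : T (P 1) - P 1 = 0 := by
    rw [hT]
    refine TT_zero w a _ (q + 1) (l ^ (q + 2)) ?_ ?_
    · have h2 : ((q + 2 : ℕ) : ℝ) < ((2 ^ (q + 2) : ℕ) : ℝ) :=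
        Nat.cast_lt.2 Nat.lt_two_pow_self
      have hc2 : (2 : ℝ) ≤ c := by exact_mod_cast hc
      have h3 : (2 : ℝ) ^ (q + 2) ≤ l ^ (q + 2) := pow_le_pow_left₀ (by norm_num) (by linarith) _
      push_cast at h2 ⊢
      linarith
    · rw [← hT]
      have h2 : ∑ i ∈ range (q + 1), (T ^ i) (T (P 1) - P 1) = (T ^ (q + 1)) (P 1) - P 1 := by
        have h3 := sum_range_sub (fun i => (T ^ i) (P 1)) (q + 1)
        rw [pow_zero, Module.End.one_apply] at h3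
        rw [← h3]
        refine sum_congr rfl fun i _ => ?_
        rw [map_sub, pow_succ, Module.End.mul_apply]
      have h4 : l ^ (q + 2) • T ((T ^ (q + 1)) (P 1)) =
          (c * l ^ (q + 1)) • (T ^ (q + 1)) (P 1) + P 1 := by
        rw [hP0, smul_smul, map_smul, smul_smul, ← pow_succ'] at h0
        exact h0.symm
      rw [h2, map_sub, smul_sub]
      have h5 : (T ^ (q + 1)) (T (P 1)) = T ((T ^ (q + 1)) (P 1)) := by
        rw [← Module.End.mul_apply, ← Module.End.mul_apply, ← pow_succ, pow_succ']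
      rw [h5, h4, hl2, add_smul, one_smul]
      abel
  have hT1 : T (P 1) = P 1 := sub_eq_zero.1 hΔ
  have hTj : ∀ j : ℕ, (T ^ j) (P 1) = P 1 := by
    intro j
    induction j with
    | zero => rfl
    | succ j ih => rw [pow_succ, Module.End.mul_apply, hT1, ih]
  refine ⟨hT1, fun t => ?_⟩
  by_cases ht : t = 0
  · rw [ht, hP0, hTj, mu_zero]
  · have ht0 : (t : ℕ) ≠ 0 := fun h => ht (Fin.ext h)
    have ht1 := t.2
    have h2 : Fin.ofNat (q + 2) ((t : ℕ) - 1 + 1) = t := by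
      apply Fin.ext
      rw [hv, Nat.sub_add_cancel (by omega), Nat.mod_eq_of_lt ht1]
    have h3 := hP ((t : ℕ) - 1) (by omega)
    rw [h2, hTj] at h3
    rw [h3, mu, if_neg ht]

/-- An element of the group ring that is matched with a unit is a trivial unit. -/
theorem exists_fixed (c : ℕ) (l : ℝ) (w : Gf ι 0 q) (a θ : MulAut (Ba ι 0))
    (Θ : MulAut (Gf ι 0 q)) (hθ : ∀ z, pB (Θ z) = θ (pB z))
    (h1 : TT (pB w) a (DR c (mu q l) (Θ (iB (FreeGroup.of 1)))) =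
      DR c (mu q l) (Θ (iB (FreeGroup.of 1))))
    (h2 : ∀ t, DR c (mu q l) (Θ (iB (FreeGroup.of t))) =
      mu q l t • DR c (mu q l) (Θ (iB (FreeGroup.of 1)))) :
    ∃ g : Ba ι 0, pB w * a g = g := by
  obtain ⟨C, hC⟩ : ∃ C, C = DR c (mu q l) (Θ (iB (FreeGroup.of 1))) := ⟨_, rfl⟩
  rw [← hC] at h1 h2
  have key : ∀ z, DR c (mu q l) (Θ z) =
      -(rR (θ : Ba ι 0 →* Ba ι 0) (DR c (mu q l) z) * C) +
        DR c (mu q l) (Θ (sB (pB z))) := by
    intro z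
    refine crsR_ext ((θ : Ba ι 0 →* Ba ι 0).comp (pB : Gf ι 0 q →* Ba ι 0))
      (fun z => DR c (mu q l) (Θ z))
      (fun z => -(rR (θ : Ba ι 0 →* Ba ι 0) (DR c (mu q l) z) * C) +
        DR c (mu q l) (Θ (sB (pB z)))) ?_ ?_ ?_ z
    · intro x y
      change DR c (mu q l) (Θ (x * y)) = _ + emR (θ (pB x)) * _
      rw [map_mul, DR_mul, hθ]
    · intro x y
      change -(rR (θ : Ba ι 0 →* Ba ι 0) (DR c (mu q l) (x * y)) * C) +
        DR c (mu q l) (Θ (sB (pB (x * y)))) = _ + emR (θ (pB x)) * _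
      have e1 : pB (Θ (sB (pB x))) = θ (pB x) := by rw [hθ, pB_sB]
      rw [DR_mul, map_add, map_mul (rR _), rR_emR, map_mul pB, map_mul sB, map_mul Θ, DR_mul, e1]
      change -((_ + emR (θ (pB x)) * _) * C) + _ = _
      noncomm_ring
    · intro b
      rcases b with (i | j) | t
      · have e1 : (sB (pB (iF (FreeGroup.of i) : Gf ι 0 q)) : Gf ι 0 q) =
            iF (FreeGroup.of i) := by
          rw [pB_iF, iF_of, iS_of]
          simp [sB]
        rw [← iF_of, DR_iF, map_zero, zero_mul, neg_zero, zero_add, e1]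
      · exact j.elim0
      · rw [← iB_of, h2, DR_bl, pB_iB, map_one sB, map_one Θ, DR_one, add_zero, map_smul, map_one,
          smul_mul_assoc, one_mul, neg_smul, neg_neg]
  have h3 := key (Θ⁻¹ (iB (FreeGroup.of 1)))
  have h4 : pB (Θ⁻¹ (iB (FreeGroup.of 1)) : Gf ι 0 q) = 1 := by
    apply θ.injective
    rw [← hθ, MulAut.apply_inv_self, pB_iB, map_one]
  rw [MulAut.apply_inv_self, h4, map_one sB, map_one Θ, DR_one, add_zero, DR_bl, mu_one, neg_smul,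
    one_smul, neg_inj] at h3
  obtain ⟨g, hg⟩ := trivial_unit _ _ h3.symm
  refine ⟨g, ?_⟩
  have h5 := coeff_TT (pB w) a C g
  rw [h1] at h5
  have h6 : C.coeff g ≠ 0 := by
    rw [← Finsupp.mem_support_iff, hg]
    exact mem_singleton_self g
  rw [← h5, ← Finsupp.mem_support_iff, hg, mem_singleton] at h6
  exact h6

/-- The isomorphism of the small group with the base group. -/
noncomputable def Jm (ι : Type) [DecidableEq ι] : FreeGroup ι ≃* Ba ι 0 :=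
  MulEquiv.ofBijective (iS : FreeGroup ι →* Ba ι 0) ⟨iS_inj, fun y => by
    have h : (iS : FreeGroup ι →* Ba ι 0).comp
        (FreeGroup.lift (Sum.elim FreeGroup.of fun j : Fin 0 => j.elim0)) = MonoidHom.id _ := by
      ext b
      rcases b with i | j
      · simp [iS]
      · exact j.elim0
    exact ⟨_, DFunLike.congr_fun h y⟩⟩

theorem Jm_apply (x : FreeGroup ι) : Jm ι x = iS x := rfl

theorem arigid [Finite ι] (φ ψ : MulAut (FreeGroup ι)) (c L : ℕ)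
    (hL : 2 ≤ L) (hc : 2 * L + 1 ≤ c)
    (hφ : ∀ i, (φ (FreeGroup.of i)).norm + 2 ≤ L)
    (hψ : ∀ i, (ψ (FreeGroup.of i)).norm + 2 ≤ L)
    (h : OConj (sA φ 1 c : MulAut (Gf ι 0 q)) (sA ψ 1 c)) : AConj φ ψ := by
  obtain ⟨Θ, w, h⟩ := h
  have h1 : ∀ z, Θ (sA φ 1 c z) = w * sA ψ 1 c (Θ z) * w⁻¹ := by
    intro z
    have h2 := h (Θ z)
    rwa [MulAut.inv_apply_self] at h2
  have h2 : ∀ z, Θ⁻¹ (sA ψ 1 c z) = (Θ⁻¹ w)⁻¹ * sA φ 1 c (Θ⁻¹ z) * (Θ⁻¹ w)⁻¹⁻¹ := by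
    intro z
    apply Θ.injective
    rw [map_mul, map_mul, map_inv, map_inv, map_inv, MulAut.apply_inv_self,
      MulAut.apply_inv_self, h]
    group
  have k1 : ∀ s, pB (Θ (iB (FreeGroup.of s))) = 1 := fun s =>
    fkill φ ψ 1 1 c L hL hc (fun i => by rw [FreeGroup.norm_one]; have := hψ i; omega)
      (by rw [FreeGroup.norm_one]; omega) Θ w h1 s
  have k2 : ∀ s, pB (Θ⁻¹ (iB (FreeGroup.of s))) = 1 := fun s =>
    fkill ψ φ 1 1 c L hL hc (fun i => by rw [FreeGroup.norm_one]; have := hφ i; omega)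
      (by rw [FreeGroup.norm_one]; omega) Θ⁻¹ (Θ⁻¹ w)⁻¹ h2 s
  obtain ⟨θ, hθ⟩ := descend Θ k1 k2
  obtain ⟨aφ, haφ⟩ := sA_descend (r := 0) (q := q) φ 1 c
  obtain ⟨aψ, haψ⟩ := sA_descend (r := 0) (q := q) ψ 1 c
  obtain ⟨l, hl1, hl2⟩ := exists_lam c q (by omega)
  have hstep : ∀ z, pB z = 1 → DR c (mu q l) (Θ (sA φ 1 c z)) =
      l • TT (pB w) aψ (DR c (mu q l) (Θ z)) := by
    intro z hz
    have e1 : pB (Θ z) = 1 := by rw [hθ, hz, map_one]
    have e2 : pB (sA ψ 1 c (Θ z)) = 1 := by rw [haψ, e1, map_one]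
    rw [h1, DR_conj _ _ _ _ e2, DR_sA ψ 1 c aψ haψ l hl2 _ e1, mul_smul_comm, TT_apply]
  have hP0 : (c : ℝ) • DR c (mu q l) (Θ (iB (FreeGroup.of 0))) +
      DR c (mu q l) (Θ (iB (FreeGroup.of 1))) =
      l • TT (pB w) aψ (DR c (mu q l) (Θ (iB (FreeGroup.of 0)))) := by
    rw [← hstep _ (pB_iB _), sA_iB, bH_of, if_pos rfl, map_mul, map_mul, map_pow, map_pow, DR_mul,
      DR_pow _ _ _ (k1 0), map_pow, k1 0, one_pow, map_one, one_mul]
  have hP1 : ∀ t : Fin (q + 2), t ≠ 0 → DR c (mu q l) (Θ (iB (FreeGroup.of (t + 1)))) =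
      l • TT (pB w) aψ (DR c (mu q l) (Θ (iB (FreeGroup.of t)))) := by
    intro t ht
    rw [← hstep _ (pB_iB _), sA_iB, bH_of, if_neg ht]
  obtain ⟨h3, h4⟩ := scalar_eq c (by omega) l hl1 hl2 (pB w) aψ
    (fun t => DR c (mu q l) (Θ (iB (FreeGroup.of t)))) hP0 hP1
  obtain ⟨g, hg⟩ := exists_fixed c l w aψ θ Θ hθ h3 h4
  have hθ' : ∀ y, θ (aφ y) = pB w * aψ (θ y) * (pB w)⁻¹ := by
    intro y
    have e1 := h1 (sB y)
    have e2 := congrArg pB e1
    rw [hθ, haφ, pB_sB, map_mul, map_mul, map_inv, haψ, hθ, pB_sB] at e2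
    exact e2
  have hw : pB w = g * (aψ g)⁻¹ := by
    rw [eq_mul_inv_iff_mul_eq]
    exact hg
  obtain ⟨χ₀, hχ₀⟩ : ∃ χ₀ : MulAut (Ba ι 0), ∀ y, χ₀ y = g⁻¹ * θ y * g :=
    ⟨MulAut.conj g⁻¹ * θ, fun y => by simp⟩
  have hχ1 : ∀ y, χ₀ (aφ y) = aψ (χ₀ y) := by
    intro y
    rw [hχ₀, hχ₀, hθ', hw, map_mul, map_mul, map_inv]
    group
  refine ⟨MulAut.congr (Jm ι).symm χ₀, fun x => ?_⟩
  have h5 : ∀ y, iS (MulAut.congr (Jm ι).symm χ₀ y) = χ₀ (iS y) := by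
    intro y
    have e1 : MulAut.congr (Jm ι).symm χ₀ y = (Jm ι).symm (χ₀ (Jm ι y)) := rfl
    rw [e1, ← Jm_apply, MulEquiv.apply_symm_apply, Jm_apply]
  have h6 : ∀ y, MulAut.congr (Jm ι).symm χ₀ (φ y) = ψ (MulAut.congr (Jm ι).symm χ₀ y) := by
    intro y
    apply iS_inj (r := 0)
    rw [h5, ← pB_sA1 φ c aφ haφ, hχ1, ← pB_sA1 ψ c aψ haψ, h5]
  rw [h6, MulAut.apply_inv_self]

end Pool.Agent.H22.OutF
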