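import Pool.Agent.H22.OutF.FComp

/-!
MP_57eb62_al : the free groups of rank zero and one.
-/

set_option autoImplicit false

namespace Pool.Agent.H22.OutF

/-- The exponent sum on the free group of rank one. -/
def E1 : FreeGroup (Fin 1) →* Multiplicative ℤ := FreeGroup.lift fun _ => Multiplicative.ofAdd 1

theorem E1_pow (x : FreeGroup (Fin 1)) : x = FreeGroup.of 0 ^ (E1 x).toAdd := by
  have h : MonoidHom.id (FreeGroup (Fin 1)) =
      (zpowersHom (FreeGroup (Fin 1)) (FreeGroup.of 0)).comp E1 := by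
    ext i
    have hi : i = 0 := Subsingleton.elim _ _
    subst hi
    simp [E1]
  have h1 := DFunLike.congr_fun h x
  simpa using h1

theorem E1_inj {x y : FreeGroup (Fin 1)} (h : E1 x = E1 y) : x = y := by
  rw [E1_pow x, E1_pow y, h]

theorem E1_of (i : Fin 1) : E1 (FreeGroup.of i) = Multiplicative.ofAdd 1 := by
  simp [E1]

theorem comm1 (x y : FreeGroup (Fin 1)) : x * y = y * x := by
  apply E1_inj
  rw [map_mul, map_mul, mul_comm]

theorem E1_map (φ : MulAut (FreeGroup (Fin 1))) (x : FreeGroup (Fin 1)) :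
    (E1 (φ x)).toAdd = (E1 x).toAdd * (E1 (φ (FreeGroup.of 0))).toAdd := by
  conv_lhs => rw [E1_pow x]
  rw [map_zpow, map_zpow]
  simp

theorem oconj1 (φ ψ : MulAut (FreeGroup (Fin 1))) :
    OConj φ ψ ↔ E1 (φ (FreeGroup.of 0)) = E1 (ψ (FreeGroup.of 0)) := by
  constructor
  · rintro ⟨χ, w, h⟩
    have h1 := h (FreeGroup.of 0)
    rw [comm1 w, mul_inv_cancel_right] at h1
    have h2 : (E1 (χ (φ (χ⁻¹ (FreeGroup.of 0))))).toAdd =
        (E1 (χ (χ⁻¹ (FreeGroup.of 0)))).toAdd * (E1 (φ (FreeGroup.of 0))).toAdd := by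
      rw [E1_map χ (φ (χ⁻¹ (FreeGroup.of 0))), E1_map φ (χ⁻¹ (FreeGroup.of 0)),
        E1_map χ (χ⁻¹ (FreeGroup.of 0))]
      ring
    rw [MulAut.apply_inv_self, h1, E1_of] at h2
    have h3 : (E1 (ψ (FreeGroup.of 0))).toAdd = (E1 (φ (FreeGroup.of 0))).toAdd := by
      rw [h2]
      simp
    exact (Multiplicative.toAdd.injective h3).symm
  · intro h
    have h1 : φ = ψ := by
      ext x
      apply E1_inj
      apply Multiplicative.toAdd.injective
      rw [E1_map φ, E1_map ψ, h]
    exact ⟨1, 1, fun x => by rw [h1]; simp⟩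

theorem aconj1 (φ ψ : MulAut (FreeGroup (Fin 1))) :
    AConj φ ψ ↔ E1 (φ (FreeGroup.of 0)) = E1 (ψ (FreeGroup.of 0)) := by
  constructor
  · exact fun h => (oconj1 φ ψ).1 h.oconj
  · intro h
    have h1 : φ = ψ := by
      ext x
      apply E1_inj
      apply Multiplicative.toAdd.injective
      rw [E1_map φ, E1_map ψ, h]
    exact ⟨1, fun x => by rw [h1]; simp⟩

/-- The number of the letters with a given sign. -/
def cnt (b : Bool) (w : List (Fin 1 × Bool)) : ℕ :=
  (w.flatMap fun s => if s.2 = b then [()] else []).length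

theorem E1_mk (w : List (Fin 1 × Bool)) :
    (E1 (FreeGroup.mk w)).toAdd = (cnt true w : ℤ) - cnt false w := by
  induction w with
  | nil =>
    have h1 : (FreeGroup.mk [] : FreeGroup (Fin 1)) = 1 := rfl
    rw [h1, map_one]
    simp [cnt]
  | cons s w ih =>
    have h1 : (FreeGroup.mk (s :: w) : FreeGroup (Fin 1)) =
        FreeGroup.mk [s] * FreeGroup.mk w := rfl
    have h2 : ∀ b, cnt b (s :: w) = (if s.2 = b then 1 else 0) + cnt b w := by
      intro b
      unfold cnt
      rw [List.flatMap_cons, List.length_append]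
      split_ifs <;> simp
    rw [h1, map_mul, toAdd_mul, ih, h2, h2]
    obtain ⟨i, b⟩ := s
    cases b
    · have h3 : (FreeGroup.mk [(i, false)] : FreeGroup (Fin 1)) = (FreeGroup.of i)⁻¹ := rfl
      rw [h3, map_inv, E1_of]
      simp
      ring
    · have h3 : (FreeGroup.mk [(i, true)] : FreeGroup (Fin 1)) = FreeGroup.of i := rfl
      rw [h3, E1_of]
      simp
      ring

theorem prim_cnt (b : Bool) : Primrec (cnt b) := by
  refine Primrec.list_length.comp (Primrec.list_flatMap Primrec.id ?_)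
  refine Primrec.ite (c := fun p : List (Fin 1 × Bool) × (Fin 1 × Bool) => p.2.2 = b) ?_
    (Primrec.const _) (Primrec.const _)
  exact Primrec.eq.comp (Primrec.snd.comp Primrec.snd) (Primrec.const b)

/-- The decision procedure in rank one. -/
def dec1 (p : Wd 1 × Wd 1) : Bool :=
  decide (cnt true (p.1 0) + cnt false (p.2 0) = cnt true (p.2 0) + cnt false (p.1 0))

theorem prim_dec1 : Primrec dec1 := by
  have h1 : ∀ b, Primrec fun p : Wd 1 × Wd 1 => cnt b (p.1 0) := fun b =>
    (prim_cnt b).comp (Primrec.fin_app.comp Primrec.fst (Primrec.const 0))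
  have h2 : ∀ b, Primrec fun p : Wd 1 × Wd 1 => cnt b (p.2 0) := fun b =>
    (prim_cnt b).comp (Primrec.fin_app.comp Primrec.snd (Primrec.const 0))
  exact (Primrec.eq.comp (Primrec.nat_add.comp (h1 true) (h2 false))
    (Primrec.nat_add.comp (h2 true) (h1 false))).decide

theorem dec1_iff (φ ψ : MulAut (FreeGroup (Fin 1))) (f g : Wd 1) (hf : Rep f φ)
    (hg : Rep g ψ) :
    dec1 (f, g) = true ↔ E1 (φ (FreeGroup.of 0)) = E1 (ψ (FreeGroup.of 0)) := by
  unfold dec1
  rw [decide_eq_true_iff, ← hf, ← hg, ← Multiplicative.toAdd.injective.eq_iff, E1_mk, E1_mk]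
  constructor
  · intro h
    have : ((cnt true (f 0) + cnt false (g 0) : ℕ) : ℤ) =
        ((cnt true (g 0) + cnt false (f 0) : ℕ) : ℤ) := by
      exact_mod_cast h
    push_cast at this
    linarith
  · intro h
    have : (cnt true (f 0) : ℤ) + cnt false (g 0) = cnt true (g 0) + cnt false (f 0) := by
      linarith
    exact_mod_cast this

/-- Solvability of the conjugacy problem of `Out (F_n)`. -/
def OSol (n : ℕ) : Prop :=
  ∃ d : Wd n × Wd n → Bool, Computable d ∧
    ∀ (φ ψ : MulAut (FreeGroup (Fin n))) (f g : Wd n), Rep f φ → Rep g ψ →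
      (d (f, g) = true ↔ OConj φ ψ)

/-- Solvability of the conjugacy problem of `Aut (F_n)`. -/
def ASol (n : ℕ) : Prop :=
  ∃ d : Wd n × Wd n → Bool, Computable d ∧
    ∀ (φ ψ : MulAut (FreeGroup (Fin n))) (f g : Wd n), Rep f φ → Rep g ψ →
      (d (f, g) = true ↔ AConj φ ψ)

theorem osol_one : OSol 1 :=
  ⟨dec1, prim_dec1.to_comp, fun φ ψ f g hf hg => by rw [dec1_iff φ ψ f g hf hg, oconj1]⟩

theorem asol_one : ASol 1 :=
  ⟨dec1, prim_dec1.to_comp, fun φ ψ f g hf hg => by rw [dec1_iff φ ψ f g hf hg, aconj1]⟩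

theorem osol_zero : OSol 0 :=
  ⟨fun _ => true, Computable.const _, fun φ ψ f g _ _ => by
    simp only [true_iff]
    exact ⟨1, 1, fun x => Subsingleton.elim _ _⟩⟩

theorem asol_zero : ASol 0 :=
  ⟨fun _ => true, Computable.const _, fun φ ψ f g _ _ => by
    simp only [true_iff]
    exact ⟨1, fun x => Subsingleton.elim _ _⟩⟩

end Pool.Agent.H22.OutF
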