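import Pool.Agent.H22.OutF.Match

/-!
MP_57eb62_al : the reduction between the conjugacy problems, on the level of words.
-/

set_option autoImplicit false

namespace Pool.Agent.H22.OutF

/-- Tuples of words. -/
abbrev Wd (n : ℕ) : Type := Fin n → List (Fin n × Bool)

/-- The words `f` describe the automorphism `φ`. -/
def Rep {n : ℕ} (f : Wd n) (φ : MulAut (FreeGroup (Fin n))) : Prop :=
  ∀ i, FreeGroup.mk (f i) = φ (FreeGroup.of i)

/-- Conjugacy of the outer classes. -/
def OConj {G : Type} [Group G] (φ ψ : MulAut G) : Prop :=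
  ∃ (χ : MulAut G) (w : G), ∀ x, χ (φ (χ⁻¹ x)) = w * ψ x * w⁻¹

/-- The formal inverse of a word. -/
def iv {α : Type} (w : List (α × Bool)) : List (α × Bool) :=
  (w.map fun a => (a.1, !a.2)).reverse

theorem mk_iv {α : Type} (w : List (α × Bool)) :
    FreeGroup.mk (iv w) = (FreeGroup.mk w)⁻¹ := by
  rw [FreeGroup.inv_mk]
  rfl

/-- Substitution of words. -/
def subL {n : ℕ} (f : Wd n) (w : List (Fin n × Bool)) : List (Fin n × Bool) :=
  w.flatMap fun s => if s.2 then f s.1 else iv (f s.1)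

theorem mk_subL {n : ℕ} (f : Wd n) (φ : MulAut (FreeGroup (Fin n))) (hf : Rep f φ)
    (w : List (Fin n × Bool)) : FreeGroup.mk (subL f w) = φ (FreeGroup.mk w) := by
  induction w with
  | nil =>
    change (1 : FreeGroup (Fin n)) = φ 1
    rw [map_one]
  | cons s w ih =>
    have h1 : subL f (s :: w) = (if s.2 then f s.1 else iv (f s.1)) ++ subL f w := rfl
    have h2 : FreeGroup.mk (s :: w) = FreeGroup.mk [s] * FreeGroup.mk w := by
      rw [FreeGroup.mul_mk]
      rfl
    rw [h1, ← FreeGroup.mul_mk, ih, h2, map_mul]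
    congr 1
    rcases s with ⟨i, b⟩
    cases b
    · have h3 : FreeGroup.mk [(i, false)] = (FreeGroup.of i)⁻¹ := rfl
      simp only [Bool.false_eq_true, if_false]
      rw [mk_iv, hf, h3, map_inv]
    · simp only [if_true]
      rw [hf]
      rfl

/-- The words of a power. -/
def powL {n : ℕ} (f : Wd n) : ℕ → Wd n
  | 0 => fun i => [(i, true)]
  | m + 1 => fun i => subL f (powL f m i)

theorem rep_powL {n : ℕ} (f : Wd n) (φ : MulAut (FreeGroup (Fin n))) (hf : Rep f φ) (m : ℕ) :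
    Rep (powL f m) (φ ^ m) := by
  induction m with
  | zero => intro i; rfl
  | succ m ih =>
    intro i
    change FreeGroup.mk (subL f (powL f m i)) = _
    rw [mk_subL f φ hf, ih i, pow_succ', MulAut.mul_apply]

/-- The list of the prefixes. -/
def prefs {n : ℕ} (f : Wd n) : List (List (Fin n × Bool)) :=
  [] :: (List.finRange n).flatMap fun i =>
    (List.range ((f i).length + 1)).map fun k => (f i).take k

theorem mem_prefs {n : ℕ} (f : Wd n) (x : FreeGroup (Fin n)) (hx : Pref f x) :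
    ∃ X ∈ prefs f, FreeGroup.mk X = x := by
  rcases hx with hx | ⟨i, U, V, hU, hx⟩
  · exact ⟨[], List.mem_cons_self, hx.symm⟩
  · refine ⟨U, List.mem_cons_of_mem _ ?_, hx.symm⟩
    rw [List.mem_flatMap]
    refine ⟨i, List.mem_finRange i, ?_⟩
    rw [List.mem_map]
    refine ⟨U.length, ?_, ?_⟩
    · rw [List.mem_range, hU, List.length_append]
      omega
    · rw [hU]
      exact List.take_left

/-- The total length. -/
def tot {n : ℕ} (f : Wd n) : ℕ := ((List.finRange n).flatMap f).length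

theorem le_tot {n : ℕ} (f : Wd n) (i : Fin n) : (f i).length ≤ tot f := by
  have h1 : (f i).Sublist ((List.finRange n).flatMap f) := by
    have h2 : f i ∈ (List.finRange n).map f := List.mem_map_of_mem (List.mem_finRange i)
    exact List.sublist_flatten_of_mem h2
  exact h1.length_le

section gadget

variable {n : ℕ} (r q : ℕ)

/-- The index bijection. -/
def eN (n r q : ℕ) : Fin n ⊕ Mk r q ≃ Fin (n + (r + 1) * (q + 2)) :=
  (Equiv.sumCongr (Equiv.refl _) finProdFinEquiv).trans finSumFinEquiv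

/-- The word of the marker automorphism. -/
def wrdL (c : ℕ) (s : Fin (q + 2)) : List (Fin (n + (r + 1) * (q + 2)) × Bool) :=
  if s = 1 then List.replicate c (eN n r q (Sum.inr (0, 0)), true) ++
    [(eN n r q (Sum.inr (0, 1)), true)] else [(eN n r q (Sum.inr (0, s)), true)]

/-- The words of the small group as words of the big group. -/
def emb (w : List (Fin n × Bool)) : List (Fin (n + (r + 1) * (q + 2)) × Bool) :=
  w.map fun a => (eN n r q (Sum.inl a.1), a.2)

/-- The words of the marked extension. -/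
def gW (f : Wd n) (X : List (Fin n × Bool)) (c : ℕ) : Wd (n + (r + 1) * (q + 2)) := fun k =>
  match (eN n r q).symm k with
  | Sum.inl i => emb r q (f i)
  | Sum.inr t => if t.1 + 1 = 0 then emb r q X ++ (wrdL r q c (t.2 + 1) ++ iv (emb r q X))
      else [(eN n r q (Sum.inr (t.1 + 1, t.2)), true)]

/-- The isomorphism of the big groups. -/
def EE (n r q : ℕ) : Big (Fin n) r q ≃* FreeGroup (Fin (n + (r + 1) * (q + 2))) :=
  FreeGroup.freeGroupCongr (eN n r q)

theorem EE_of (a : Fin n ⊕ Mk r q) : EE n r q (FreeGroup.of a) = FreeGroup.of (eN n r q a) := by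
  simp [EE]

theorem EE_symm_of (k : Fin (n + (r + 1) * (q + 2))) :
    (EE n r q).symm (FreeGroup.of k) = FreeGroup.of ((eN n r q).symm k) := by
  rw [MulEquiv.symm_apply_eq, EE_of, Equiv.apply_symm_apply]

theorem mk_emb (w : List (Fin n × Bool)) :
    FreeGroup.mk (emb r q w) = EE n r q (inl (FreeGroup.mk w)) := by
  unfold EE inl emb
  have h : ∀ z : Big (Fin n) r q,
      FreeGroup.freeGroupCongr (eN n r q) z = FreeGroup.map (eN n r q) z := fun _ => rfl
  rw [FreeGroup.map.mk, h, FreeGroup.map.mk, List.map_map]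
  rfl

theorem mk_replicate {α : Type} (a : α) (c : ℕ) :
    FreeGroup.mk (List.replicate c (a, true)) = FreeGroup.of a ^ c := by
  induction c with
  | zero => rfl
  | succ c ih =>
    rw [List.replicate_succ, pow_succ', ← ih]
    change _ = FreeGroup.mk [(a, true)] * _
    rw [FreeGroup.mul_mk]
    rfl

theorem mk_wrdL (c : ℕ) (s : Fin (q + 2)) :
    FreeGroup.mk (wrdL (n := n) r q c s) = EE n r q (wrd c s) := by
  unfold wrdL wrd
  split_ifs with h
  · rw [← FreeGroup.mul_mk, mk_replicate, map_mul, map_pow]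
    unfold mkr
    rw [EE_of, EE_of]
    rfl
  · unfold mkr
    rw [EE_of]
    rfl

theorem rep_gW (f : Wd n) (φ : MulAut (FreeGroup (Fin n))) (hf : Rep f φ)
    (X : List (Fin n × Bool)) (c : ℕ) :
    Rep (gW r q f X c) (MulAut.congr (EE n r q) (gT φ (FreeGroup.mk X) c)) := by
  intro k
  have h0 : (MulAut.congr (EE n r q) (gT φ (FreeGroup.mk X) c)) (FreeGroup.of k) =
      EE n r q (gT φ (FreeGroup.mk X) c ((EE n r q).symm (FreeGroup.of k))) := rfl
  rw [h0, EE_symm_of]
  unfold gW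
  rcases hk : (eN n r q).symm k with i | t
  · simp only
    rw [mk_emb, hf, ← inl_of, gT_inl]
  · simp only
    have h1 : (FreeGroup.of (Sum.inr t) : Big (Fin n) r q) = mkr t := rfl
    rw [h1, gT_mkr]
    split_ifs with h2
    · rw [← FreeGroup.mul_mk, ← FreeGroup.mul_mk, mk_iv, mk_emb, mk_wrdL, map_mul, map_mul,
        map_inv, mul_assoc]
    · unfold mkr
      rw [EE_of]
      rfl

theorem oconj_congr {G H : Type} [Group G] [Group H] (E : G ≃* H) (φ ψ : MulAut G) :
    OConj (MulAut.congr E φ) (MulAut.congr E ψ) ↔ OConj φ ψ := by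
  constructor
  · rintro ⟨χ, w, h⟩
    refine ⟨(MulAut.congr E).symm χ, E.symm w, fun x => ?_⟩
    have h1 := h (E x)
    have h2 : MulAut.congr E φ (χ⁻¹ (E x)) = E (φ (E.symm (χ⁻¹ (E x)))) := rfl
    have h3 : MulAut.congr E ψ (E x) = E (ψ (E.symm (E x))) := rfl
    rw [h2, h3, MulEquiv.symm_apply_apply] at h1
    have h4 : ((MulAut.congr E).symm χ)⁻¹ x = E.symm (χ⁻¹ (E x)) := by
      rw [← map_inv]
      rfl
    have h5 : ∀ y, (MulAut.congr E).symm χ y = E.symm (χ (E y)) := fun y => rfl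
    rw [h4, h5, h1]
    simp
  · rintro ⟨χ, w, h⟩
    refine ⟨MulAut.congr E χ, E w, fun x => ?_⟩
    have h1 := h (E.symm x)
    have h4 : (MulAut.congr E χ)⁻¹ x = E (χ⁻¹ (E.symm x)) := by
      rw [← map_inv]
      rfl
    have h5 : ∀ (χ : MulAut G) y, MulAut.congr E χ y = E (χ (E.symm y)) := fun χ y => rfl
    rw [h4, h5, h5, h5, MulEquiv.symm_apply_apply, MulEquiv.symm_apply_apply, h1]
    simp

/-- The reduction. -/
def redL (p : Wd n × Wd n) :
    List (Wd (n + (r + 1) * (q + 2)) × Wd (n + (r + 1) * (q + 2))) :=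
  (prefs (powL p.1 (r + 1))).flatMap fun X => (prefs (powL p.2 (r + 1))).map fun Y =>
    (gW r q p.1 X (2 * (tot (powL p.1 (r + 1)) + tot (powL p.2 (r + 1)) + 2) + 1),
      gW r q p.2 Y (2 * (tot (powL p.1 (r + 1)) + tot (powL p.2 (r + 1)) + 2) + 1))

theorem rep_unique {n : ℕ} (f : Wd n) (φ φ' : MulAut (FreeGroup (Fin n))) (h : Rep f φ)
    (h' : Rep f φ') : φ = φ' := by
  have h1 : (φ : FreeGroup (Fin n) →* FreeGroup (Fin n)) = φ' := by
    ext i
    change φ (FreeGroup.of i) = φ' (FreeGroup.of i)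
    rw [← h, ← h']
  ext x
  exact DFunLike.congr_fun h1 x

theorem redL_rep (φ ψ : MulAut (FreeGroup (Fin n))) (f g : Wd n) (hf : Rep f φ) (hg : Rep g ψ)
    (p) (hp : p ∈ redL r q (f, g)) : ∃ φ' ψ', Rep p.1 φ' ∧ Rep p.2 ψ' := by
  unfold redL at hp
  rw [List.mem_flatMap] at hp
  obtain ⟨X, -, hp⟩ := hp
  rw [List.mem_map] at hp
  obtain ⟨Y, -, rfl⟩ := hp
  exact ⟨_, _, rep_gW r q f φ hf X _, rep_gW r q g ψ hg Y _⟩

theorem redL_sound (φ ψ : MulAut (FreeGroup (Fin n))) (f g : Wd n) (hf : Rep f φ) (hg : Rep g ψ)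
    (p) (hp : p ∈ redL r q (f, g)) (φ' ψ') (h1 : Rep p.1 φ') (h2 : Rep p.2 ψ')
    (h : OConj φ' ψ') : OConj φ ψ := by
  unfold redL at hp
  rw [List.mem_flatMap] at hp
  obtain ⟨X, -, hp⟩ := hp
  rw [List.mem_map] at hp
  obtain ⟨Y, -, rfl⟩ := hp
  have e1 := rep_unique _ _ _ h1 (rep_gW r q f φ hf X _)
  have e2 := rep_unique _ _ _ h2 (rep_gW r q g ψ hg Y _)
  rw [e1, e2, oconj_congr] at h
  refine rigid φ ψ (FreeGroup.mk X) (FreeGroup.mk Y) _
    (tot (powL f (r + 1)) + tot (powL g (r + 1)) + 2) (by omega) le_rfl ?_ ?_ h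
  · intro i
    rw [← rep_powL f φ hf (r + 1) i]
    have h3 := le_tot (powL f (r + 1)) i
    exact FreeGroup.norm_mk_le.trans (by omega)
  · intro i
    rw [← rep_powL g ψ hg (r + 1) i]
    have h3 := le_tot (powL g (r + 1)) i
    exact FreeGroup.norm_mk_le.trans (by omega)

theorem redL_complete (φ ψ : MulAut (FreeGroup (Fin n))) (f g : Wd n) (hf : Rep f φ)
    (hg : Rep g ψ) (htr : tr (φ ^ (r + 1)) ≠ 1) (h : OConj φ ψ) :
    ∃ p ∈ redL r q (f, g), ∃ φ' ψ', Rep p.1 φ' ∧ Rep p.2 ψ' ∧ OConj φ' ψ' := by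
  obtain ⟨x, x', hx, hx', h1⟩ := marks (r := r) (q := q) φ ψ
    (2 * (tot (powL f (r + 1)) + tot (powL g (r + 1)) + 2) + 1) (powL f (r + 1))
    (powL g (r + 1)) (rep_powL f φ hf (r + 1)) (rep_powL g ψ hg (r + 1)) htr h
  obtain ⟨X, hX, rfl⟩ := mem_prefs _ _ hx
  obtain ⟨Y, hY, rfl⟩ := mem_prefs _ _ hx'
  refine ⟨_, List.mem_flatMap.2 ⟨X, hX, List.mem_map.2 ⟨Y, hY, rfl⟩⟩, _, _,
    rep_gW r q f φ hf X _, rep_gW r q g ψ hg Y _, ?_⟩
  rw [oconj_congr]
  exact h1

end gadget

end Pool.Agent.H22.OutF
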