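import Pool.Agent.H22.OutF.Fox

/-!
MP_57eb62_al : crossed homomorphisms from a free group to the group ring of another one.
-/

set_option autoImplicit false

namespace Pool.Agent.H22.OutF

open Finset

variable {α β : Type} [DecidableEq α] [DecidableEq β]

/-- The affine action that defines a crossed homomorphism. -/
noncomputable def affc (Φ : FreeGroup α →* FreeGroup β) (v : α → ℤ) :
    FreeGroup α →* Equiv.Perm (ZF β) :=
  FreeGroup.lift fun a =>
    { toFun := fun r => em (Φ (FreeGroup.of a)) * r + v a • (1 : ZF β)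
      invFun := fun r => em (Φ (FreeGroup.of a))⁻¹ * (r - v a • (1 : ZF β))
      left_inv := fun r => by
        simp only [add_sub_cancel_right]
        rw [← mul_assoc, em_inv_mul, one_mul]
      right_inv := fun r => by
        simp only
        rw [← mul_assoc, em_mul_inv, one_mul, sub_add_cancel] }

/-- The crossed homomorphism along `Φ` with the given integral values on the letters. -/
noncomputable def cr (Φ : FreeGroup α →* FreeGroup β) (v : α → ℤ) (x : FreeGroup α) : ZF β :=
  affc Φ v x 0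

theorem affc_of (Φ : FreeGroup α →* FreeGroup β) (v : α → ℤ) (a : α) (r : ZF β) :
    affc Φ v (FreeGroup.of a) r = em (Φ (FreeGroup.of a)) * r + v a • (1 : ZF β) := by
  rw [affc, FreeGroup.lift_apply_of]
  rfl

theorem affc_of_inv (Φ : FreeGroup α →* FreeGroup β) (v : α → ℤ) (a : α) (r : ZF β) :
    affc Φ v (FreeGroup.of a)⁻¹ r =
      em (Φ (FreeGroup.of a))⁻¹ * (r - v a • (1 : ZF β)) := by
  rw [map_inv, affc, FreeGroup.lift_apply_of]
  rfl

theorem affc_apply (Φ : FreeGroup α →* FreeGroup β) (v : α → ℤ) (x : FreeGroup α) (r : ZF β) :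
    affc Φ v x r = em (Φ x) * r + cr Φ v x := by
  unfold cr
  induction x using FreeGroup.induction_on generalizing r with
  | C1 =>
    rw [map_one (affc Φ v), map_one Φ, map_one em, one_mul]
    change r = r + 0
    rw [add_zero]
  | of j => rw [affc_of, affc_of, mul_zero, zero_add]
  | inv_of j _ =>
    rw [affc_of_inv, affc_of_inv, mul_sub, mul_sub, map_inv Φ (FreeGroup.of j), mul_zero,
      zero_sub, sub_eq_add_neg]
  | mul x y hx hy =>
    rw [map_mul, Equiv.Perm.mul_apply, Equiv.Perm.mul_apply, hx, hy, hx (affc Φ v y 0), map_mul,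
      map_mul]
    rw [mul_add, mul_assoc, add_assoc]

theorem cr_mul (Φ : FreeGroup α →* FreeGroup β) (v : α → ℤ) (x y : FreeGroup α) :
    cr Φ v (x * y) = cr Φ v x + em (Φ x) * cr Φ v y := by
  unfold cr
  rw [map_mul, Equiv.Perm.mul_apply, affc_apply Φ v x]
  unfold cr
  rw [add_comm]

theorem cr_one (Φ : FreeGroup α →* FreeGroup β) (v : α → ℤ) : cr Φ v 1 = 0 := by
  unfold cr
  rw [map_one]
  rfl

theorem cr_of (Φ : FreeGroup α →* FreeGroup β) (v : α → ℤ) (a : α) :
    cr Φ v (FreeGroup.of a) = v a • (1 : ZF β) := by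
  unfold cr
  rw [affc_of, mul_zero, zero_add]

theorem cr_inv (Φ : FreeGroup α →* FreeGroup β) (v : α → ℤ) (x : FreeGroup α) :
    cr Φ v x⁻¹ = -(em (Φ x)⁻¹ * cr Φ v x) := by
  have h := cr_mul Φ v x⁻¹ x
  rw [inv_mul_cancel, cr_one, map_inv Φ x] at h
  exact eq_neg_of_add_eq_zero_left h.symm

/-- Crossed homomorphisms are determined by their values on the letters. -/
theorem crs_ext (Φ : FreeGroup α →* FreeGroup β) (u v : FreeGroup α → ZF β)
    (hu : ∀ x y, u (x * y) = u x + em (Φ x) * u y)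
    (hv : ∀ x y, v (x * y) = v x + em (Φ x) * v y)
    (h : ∀ j, u (FreeGroup.of j) = v (FreeGroup.of j)) (x : FreeGroup α) : u x = v x := by
  have h1 : ∀ w : FreeGroup α → ZF β, (∀ x y, w (x * y) = w x + em (Φ x) * w y) →
      w 1 = 0 := by
    intro w hw
    have h2 := hw 1 1
    rw [one_mul, map_one, map_one, one_mul] at h2
    exact left_eq_add.1 h2
  have h2 : ∀ w : FreeGroup α → ZF β, (∀ x y, w (x * y) = w x + em (Φ x) * w y) →
      ∀ x, w x⁻¹ = -(em (Φ x⁻¹) * w x) := by
    intro w hw x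
    have h3 := hw x⁻¹ x
    rw [inv_mul_cancel, h1 w hw] at h3
    exact eq_neg_of_add_eq_zero_left h3.symm
  induction x using FreeGroup.induction_on with
  | C1 => rw [h1 u hu, h1 v hv]
  | of j => exact h j
  | inv_of j hj => rw [h2 u hu, h2 v hv, hj]
  | mul x y hx hy => rw [hu, hv, hx, hy]

theorem cr_conj (Φ : FreeGroup α →* FreeGroup β) (v : α → ℤ) (w x : FreeGroup α) :
    cr Φ v (w * x * w⁻¹) =
      (1 - em (Φ (w * x * w⁻¹))) * cr Φ v w + em (Φ w) * cr Φ v x := by
  rw [cr_mul, cr_mul, cr_inv, mul_neg, ← mul_assoc, ← map_mul, ← map_inv, ← map_mul, sub_mul,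
    one_mul]
  abel

/-- The value of an invariant functional on a multiple of `1 - z` vanishes. -/
theorem ev_inv (κ : FreeGroup β → ℤ) (z : FreeGroup β) (h : ∀ g, κ (z * g) = κ g) (r : ZF β) :
    ev κ ((1 - em z) * r) = 0 := by
  refine add_ext ((ev κ).comp (AddMonoidHom.mulLeft (1 - em z))) 0 (fun g => ?_) r
  change ev κ ((1 - em z) * em g) = 0
  rw [sub_mul, one_mul, ← map_mul, map_sub, ev_em, ev_em, h, sub_self]

/-- The extension of a homomorphism to the group rings. -/
noncomputable def rg (Φ : FreeGroup α →* FreeGroup β) : ZF α →+* ZF β :=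
  MonoidAlgebra.mapDomainRingHom ℤ Φ

theorem rg_em (Φ : FreeGroup α →* FreeGroup β) (x : FreeGroup α) :
    rg Φ (em x) = em (Φ x) := by
  simp [rg, em, MonoidAlgebra.of_apply, MonoidAlgebra.mapDomain_single]

theorem ev_rg (κ : FreeGroup β → ℤ) (g : FreeGroup β) (Φ : FreeGroup α →* FreeGroup β)
    (r : ZF α) : ev κ (em g * rg Φ r) = ev (fun x => κ (g * Φ x)) r := by
  refine (add_ext (ev fun x => κ (g * Φ x))
    ((ev κ).comp ((AddMonoidHom.mulLeft (em g)).comp (rg Φ).toAddMonoidHom)) (fun x => ?_) r).symm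
  change ev (fun x => κ (g * Φ x)) (em x) = ev κ (em g * rg Φ (em x))
  rw [ev_em, rg_em, ← map_mul, ev_em]

theorem ev_em_mul (κ : FreeGroup β → ℤ) (g : FreeGroup β) (r : ZF β) :
    ev κ (em g * r) = ev (fun x => κ (g * x)) r := by
  refine (add_ext (ev fun x => κ (g * x))
    ((ev κ).comp (AddMonoidHom.mulLeft (em g))) (fun x => ?_) r).symm
  change ev (fun x => κ (g * x)) (em x) = ev κ (em g * em x)
  rw [ev_em, ← map_mul, ev_em]

/-- A linear bound in the word length. -/
theorem cr_bound (Φ : FreeGroup α →* FreeGroup β) (v : α → ℤ) (C : ℕ)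
    (hv : ∀ a, (v a).natAbs ≤ C) (κ : FreeGroup β → ℤ) (hκ : ∀ g, (κ g).natAbs ≤ 1)
    (x : FreeGroup α) : (ev κ (cr Φ v x)).natAbs ≤ C * x.norm := by
  have h1 : ∀ (g : FreeGroup β) (a : α), (ev κ (em g * (v a • (1 : ZF β)))).natAbs ≤ C := by
    intro g a
    rw [mul_smul_comm, mul_one, map_zsmul, ev_em, smul_eq_mul, Int.natAbs_mul]
    calc (v a).natAbs * (κ g).natAbs ≤ C * 1 := Nat.mul_le_mul (hv a) (hκ g)
      _ = C := mul_one C
  have key : ∀ W : List (α × Bool), (ev κ (cr Φ v (FreeGroup.mk W))).natAbs ≤ C * W.length := by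
    intro W
    induction W using List.reverseRecOn with
    | nil =>
      have h2 : (FreeGroup.mk [] : FreeGroup α) = 1 := rfl
      rw [h2, cr_one, map_zero]
      exact Nat.zero_le _
    | append_singleton W s ih =>
      obtain ⟨a, b⟩ := s
      have h2 : (FreeGroup.mk (W ++ [(a, b)]) : FreeGroup α) =
          FreeGroup.mk W * FreeGroup.mk [(a, b)] := rfl
      have h3 : (ev κ (em (Φ (FreeGroup.mk W)) * cr Φ v (FreeGroup.mk [(a, b)]))).natAbs ≤ C := by
        cases b
        · have h5 : (FreeGroup.mk [(a, false)] : FreeGroup α) = (FreeGroup.of a)⁻¹ := rfl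
          rw [h5, cr_inv, cr_of, mul_neg, map_neg, Int.natAbs_neg, ← mul_assoc, ← map_mul]
          exact h1 _ a
        · have h5 : (FreeGroup.mk [(a, true)] : FreeGroup α) = FreeGroup.of a := rfl
          rw [h5, cr_of]
          exact h1 _ a
      rw [h2, cr_mul, map_add, List.length_append]
      simp only [List.length_cons, List.length_nil, zero_add, mul_add, mul_one]
      exact (Int.natAbs_add_le _ _).trans (Nat.add_le_add ih h3)
  have h2 := key x.toWord
  rw [FreeGroup.mk_toWord] at h2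
  exact h2

/-- Linearity in the values. -/
theorem cr_add (Φ : FreeGroup α →* FreeGroup β) (v v' : α → ℤ) (x : FreeGroup α) :
    cr Φ (fun a => v a + v' a) x = cr Φ v x + cr Φ v' x := by
  refine crs_ext Φ _ (fun x => cr Φ v x + cr Φ v' x) (cr_mul Φ _) ?_ ?_ x
  · intro x y
    rw [cr_mul, cr_mul, mul_add]
    abel
  · intro a
    rw [cr_of, cr_of, cr_of, add_smul]

theorem cr_smul (Φ : FreeGroup α →* FreeGroup β) (n : ℤ) (v : α → ℤ) (x : FreeGroup α) :
    cr Φ (fun a => n * v a) x = n • cr Φ v x := by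
  refine crs_ext Φ _ (fun x => n • cr Φ v x) (cr_mul Φ _) ?_ ?_ x
  · intro x y
    rw [cr_mul, smul_add, mul_smul_comm]
  · intro a
    rw [cr_of, cr_of, mul_smul]

theorem cr_zero (Φ : FreeGroup α →* FreeGroup β) (x : FreeGroup α) :
    cr Φ (fun _ => 0) x = 0 := by
  refine crs_ext Φ _ (fun _ => 0) (cr_mul Φ _) ?_ ?_ x
  · intro x y
    rw [mul_zero, add_zero]
  · intro a
    rw [cr_of, zero_smul]

end Pool.Agent.H22.OutF
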