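import Mathlib

/-!
MP_57eb62_al : homomorphisms to the integers on finitely generated subgroups of free groups.
-/

set_option autoImplicit false

namespace Pool.Agent.H22.OutF

variable {ι : Type} [DecidableEq ι]

/-- Every prefix of the word has its value in `I * P`. -/
def GoodW (I : Subgroup (FreeGroup ι)) (P : Set (FreeGroup ι)) (W : List (ι × Bool)) : Prop :=
  ∀ U V : List (ι × Bool), W = U ++ V → ∃ a ∈ I, ∃ r ∈ P, FreeGroup.mk U = a * r

theorem GoodW.step {I : Subgroup (FreeGroup ι)} {P : Set (FreeGroup ι)}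
    {W W' : List (ι × Bool)} (h : GoodW I P W) (hs : FreeGroup.Red.Step W W') :
    GoodW I P W' := by
  cases hs with | @not L₁ L₂ x b => ?_
  intro U V hUV
  rcases List.append_eq_append_iff.1 hUV with ⟨T, hT, -⟩ | ⟨T, hT, hT'⟩
  · -- the prefix `U` contains `L₁`
    have h1 := h (L₁ ++ (x, b) :: (x, !b) :: T) V (by
      have : L₂ = T ++ V := by
        rw [hT, List.append_assoc] at hUV
        exact List.append_cancel_left hUV
      rw [this]
      simp)
    obtain ⟨a, ha, r, hr, h2⟩ := h1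
    refine ⟨a, ha, r, hr, ?_⟩
    rw [← h2, hT]
    exact (Quot.sound FreeGroup.Red.Step.not).symm
  · exact h U (T ++ (x, b) :: (x, !b) :: L₂) (by rw [hT]; simp)

theorem GoodW.red {I : Subgroup (FreeGroup ι)} {P : Set (FreeGroup ι)}
    {W W' : List (ι × Bool)} (h : GoodW I P W) (hs : FreeGroup.Red W W') : GoodW I P W' := by
  induction hs with
  | refl => exact h
  | tail _ h1 ih => exact ih.step h1

theorem exists_goodW {κ : Type} (y : κ → FreeGroup ι) (z : FreeGroup ι)
    (hz : z ∈ Subgroup.closure (Set.range y)) :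
    ∃ W : List (ι × Bool), FreeGroup.mk W = z ∧
      GoodW (Subgroup.closure (Set.range y))
        ({r | ∃ k U V, (y k).toWord = U ++ V ∧ r = FreeGroup.mk U} ∪ {1}) W := by
  induction hz using Subgroup.closure_induction with
  | mem x hx =>
    obtain ⟨k, rfl⟩ := hx
    refine ⟨(y k).toWord, FreeGroup.mk_toWord, fun U V h => ?_⟩
    exact ⟨1, one_mem _, FreeGroup.mk U, Or.inl ⟨k, U, V, h, rfl⟩, (one_mul _).symm⟩
  | one =>
    refine ⟨[], rfl, fun U V h => ⟨1, one_mem _, 1, Or.inr rfl, ?_⟩⟩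
    have : U = [] := by
      cases U with
      | nil => rfl
      | cons a l => simp at h
    rw [this, one_mul]
    rfl
  | mul x z hx hz ihx ihz =>
    obtain ⟨W₁, h1, g1⟩ := ihx
    obtain ⟨W₂, h2, g2⟩ := ihz
    refine ⟨W₁ ++ W₂, by rw [← h1, ← h2]; rfl, fun U V h => ?_⟩
    rcases List.append_eq_append_iff.1 h with ⟨T, hT, hT'⟩ | ⟨T, hT, -⟩
    · obtain ⟨a, ha, r, hr, h3⟩ := g2 T V hT'
      refine ⟨x * a, mul_mem hx ha, r, hr, ?_⟩
      rw [hT, ← FreeGroup.mul_mk, h1, h3, mul_assoc]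
    · exact g1 U T hT
  | inv x hx ihx =>
    obtain ⟨W, h1, g1⟩ := ihx
    refine ⟨FreeGroup.invRev W, by rw [← h1]; rfl, fun U V h => ?_⟩
    obtain ⟨a, ha, r, hr, h3⟩ := g1 (FreeGroup.invRev V) (FreeGroup.invRev U) (by
      rw [← FreeGroup.invRev_append, ← h, FreeGroup.invRev_invRev])
    refine ⟨x⁻¹ * a, mul_mem (inv_mem hx) ha, r, hr, ?_⟩
    have h4 : (FreeGroup.mk (FreeGroup.invRev W) : FreeGroup ι) = FreeGroup.mk U * FreeGroup.mk V := by
      rw [h]
      rfl
    have h5 : (FreeGroup.mk (FreeGroup.invRev W) : FreeGroup ι) = x⁻¹ := by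
      rw [← h1]
      rfl
    have h6 : (FreeGroup.mk (FreeGroup.invRev V) : FreeGroup ι) = (FreeGroup.mk V)⁻¹ := rfl
    rw [mul_assoc, ← h3, h6, ← h5, h4]
    group

theorem goodW_toWord {κ : Type} (y : κ → FreeGroup ι) (z : FreeGroup ι)
    (hz : z ∈ Subgroup.closure (Set.range y)) :
    GoodW (Subgroup.closure (Set.range y))
      ({r | ∃ k U V, (y k).toWord = U ++ V ∧ r = FreeGroup.mk U} ∪ {1}) z.toWord := by
  obtain ⟨W, h1, h2⟩ := exists_goodW y z hz
  rw [← h1, FreeGroup.toWord_mk]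
  exact h2.red FreeGroup.reduce.red

theorem finite_prefixes {κ : Type} [Finite κ] (y : κ → FreeGroup ι) :
    ({r | ∃ k U V, (y k).toWord = U ++ V ∧ r = FreeGroup.mk U} ∪ {1} :
      Set (FreeGroup ι)).Finite := by
  refine Set.Finite.union ?_ (Set.finite_singleton 1)
  have h : ({r | ∃ k U V, (y k).toWord = U ++ V ∧ r = FreeGroup.mk U} : Set (FreeGroup ι)) ⊆
      ⋃ k : κ, (fun U => (FreeGroup.mk U : FreeGroup ι)) '' {U | U ∈ (y k).toWord.inits} := by
    rintro r ⟨k, U, V, h, rfl⟩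
    refine Set.mem_iUnion.2 ⟨k, U, ?_, rfl⟩
    change U ∈ (y k).toWord.inits
    rw [List.mem_inits]
    exact ⟨V, h.symm⟩
  exact (Set.finite_iUnion fun k => Set.Finite.image _ (List.finite_toSet _)).subset h

/-- A homomorphism to the integers on a finitely generated subgroup of a free group is bounded
by a multiple of the word length. -/
theorem hom_bound {κ : Type} [Finite κ] [Finite ι] (y : κ → FreeGroup ι)
    (I : Subgroup (FreeGroup ι)) (hI : I = Subgroup.closure (Set.range y))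
    (e : I →* Multiplicative ℤ) :
    ∃ D : ℕ, ∀ z : I, (e z).toAdd.natAbs ≤ D * ((z : FreeGroup ι).norm + 1) := by
  classical
  let P : Set (FreeGroup ι) :=
    {r | ∃ k U V, (y k).toWord = U ++ V ∧ r = FreeGroup.mk U} ∪ {1}
  have hPf : P.Finite := finite_prefixes y
  let E : FreeGroup ι → ℕ := fun b => if h : b ∈ I then (e ⟨b, h⟩).toAdd.natAbs else 0
  have hE : ∀ z : I, E z = (e z).toAdd.natAbs := fun z => dif_pos z.2
  let Q : Set (FreeGroup ι) := (fun t : FreeGroup ι × (ι × Bool) × FreeGroup ι =>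
    t.1 * FreeGroup.mk [t.2.1] * t.2.2⁻¹) '' (P ×ˢ (Set.univ ×ˢ P)) ∪ P
  have hQ : Q.Finite := by
    refine Set.Finite.union (Set.Finite.image _ ?_) hPf
    exact hPf.prod (Set.finite_univ.prod hPf)
  obtain ⟨D, hD⟩ : ∃ D : ℕ, ∀ b ∈ Q, E b ≤ D := by
    obtain ⟨D, hD⟩ := (hQ.image E).bddAbove
    exact ⟨D, fun b hb => hD ⟨b, hb, rfl⟩⟩
  have hmul : ∀ a b : FreeGroup ι, a ∈ I → b ∈ I → E (a * b) ≤ E a + E b := by
    intro a b ha hb
    have h1 : (e ⟨a * b, mul_mem ha hb⟩).toAdd = (e ⟨a, ha⟩).toAdd + (e ⟨b, hb⟩).toAdd := by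
      have : (⟨a * b, mul_mem ha hb⟩ : I) = ⟨a, ha⟩ * ⟨b, hb⟩ := rfl
      rw [this, map_mul]
      rfl
    simp only [E, dif_pos ha, dif_pos hb, dif_pos (mul_mem ha hb), h1]
    exact Int.natAbs_add_le _ _
  refine ⟨D, fun z => ?_⟩
  have hgood := goodW_toWord y z (by rw [← hI]; exact z.2)
  rw [← hI] at hgood
  have key : ∀ U V : List (ι × Bool), (z : FreeGroup ι).toWord = U ++ V →
      ∃ a ∈ I, ∃ r ∈ P, FreeGroup.mk U = a * r ∧ E a ≤ D * U.length := by
    intro U
    induction U using List.reverseRecOn with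
    | nil =>
      intro V _
      refine ⟨1, one_mem _, 1, Or.inr rfl, by rw [one_mul]; rfl, ?_⟩
      simp only [E, dif_pos (one_mem I), List.length_nil, mul_zero]
      have h0 : (⟨1, one_mem I⟩ : I) = 1 := rfl
      rw [h0, map_one]
      rfl
    | append_singleton U s ih =>
      intro V hV
      obtain ⟨a, ha, r, hr, h1, h2⟩ := ih (s :: V) (by rw [hV]; simp)
      obtain ⟨a', ha', r', hr', h3⟩ := hgood (U ++ [s]) V hV
      refine ⟨a', ha', r', hr', h3, ?_⟩
      have h4 : a' = a * (r * FreeGroup.mk [s] * r'⁻¹) := by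
        have h5 : (FreeGroup.mk (U ++ [s]) : FreeGroup ι) = a * r * FreeGroup.mk [s] := by
          rw [← h1]
          rfl
        rw [h5] at h3
        rw [← mul_assoc, ← mul_assoc, h3]
        group
      have h6 : r * FreeGroup.mk [s] * r'⁻¹ ∈ I := by
        have : r * FreeGroup.mk [s] * r'⁻¹ = a⁻¹ * a' := by rw [h4]; group
        rw [this]
        exact mul_mem (inv_mem ha) ha'
      have h7 : E (r * FreeGroup.mk [s] * r'⁻¹) ≤ D :=
        hD _ (Or.inl ⟨(r, s, r'), ⟨hr, trivial, hr'⟩, rfl⟩)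
      have h8 := hmul a _ ha h6
      rw [← h4] at h8
      rw [List.length_append, List.length_singleton, mul_add, mul_one]
      omega
  obtain ⟨a, ha, r, hr, h1, h2⟩ := key z.1.toWord [] (by simp)
  rw [FreeGroup.mk_toWord] at h1
  have hrI : r ∈ I := by
    have : r = a⁻¹ * z := by rw [h1]; group
    rw [this]
    exact mul_mem (inv_mem ha) z.2
  have h3 := hmul a r ha hrI
  have h4 : E r ≤ D := hD r (Or.inr hr)
  rw [← h1, hE] at h3
  have h5 : (z : FreeGroup ι).norm = z.1.toWord.length := rfl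
  rw [h5, mul_add, mul_one]
  omega

/-- A nontrivial subgroup of a free group has a nontrivial homomorphism to the integers. -/
theorem exists_hom {κ : Type} (y : κ → FreeGroup ι) (h : ∃ k, y k ≠ 1)
    (I : Subgroup (FreeGroup ι)) (hI : I = Subgroup.closure (Set.range y)) :
    ∃ e : I →* Multiplicative ℤ, ∃ (k : κ) (hk : y k ∈ I), e ⟨y k, hk⟩ ≠ 1 := by
  classical
  have hyI : ∀ k, y k ∈ I := fun k => by rw [hI]; exact Subgroup.subset_closure ⟨k, rfl⟩
  have hfree : IsFreeGroup I := inferInstance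
  obtain ⟨k, hk⟩ := h
  have hgen : Nonempty (IsFreeGroup.Generators I) := by
    by_contra hne
    rw [not_nonempty_iff] at hne
    have h1 : (⟨y k, hyI k⟩ : I) = 1 := by
      apply (IsFreeGroup.toFreeGroup I).injective
      exact Subsingleton.elim _ _
    exact hk (congrArg Subtype.val h1)
  obtain ⟨g⟩ := hgen
  let e : I →* Multiplicative ℤ := IsFreeGroup.lift fun _ => Multiplicative.ofAdd 1
  refine ⟨e, ?_⟩
  by_contra hne
  push Not at hne
  have key : ∀ z ∈ Subgroup.closure (Set.range y), ∀ hz : z ∈ I, (e ⟨z, hz⟩).toAdd = 0 := by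
    intro z hz
    induction hz using Subgroup.closure_induction with
    | mem x hx =>
      obtain ⟨j, rfl⟩ := hx
      intro hz
      exact congrArg Multiplicative.toAdd (hne j hz)
    | one => exact fun _ => congrArg Multiplicative.toAdd (map_one e)
    | mul a b ha hb iha ihb =>
      intro hz
      have ha' : a ∈ I := by rw [hI]; exact ha
      have hb' : b ∈ I := by rw [hI]; exact hb
      have h2 : (⟨a * b, hz⟩ : I) = ⟨a, ha'⟩ * ⟨b, hb'⟩ := rfl
      rw [h2, map_mul]
      change (e ⟨a, ha'⟩).toAdd + (e ⟨b, hb'⟩).toAdd = 0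
      rw [iha ha', ihb hb', add_zero]
    | inv a ha iha =>
      intro hz
      have ha' : a ∈ I := by rw [hI]; exact ha
      have h2 : (⟨a⁻¹, hz⟩ : I) = (⟨a, ha'⟩ : I)⁻¹ := rfl
      rw [h2, map_inv]
      change -(e ⟨a, ha'⟩).toAdd = 0
      rw [iha ha', neg_zero]
  have h1 : e = 1 := by
    ext z
    exact key z (by rw [← hI]; exact z.2) z.2
  have h2 : e (IsFreeGroup.of g) = Multiplicative.ofAdd 1 := by
    simp [e]
  rw [h1] at h2
  have h3 : (0 : ℤ) = 1 := congrArg Multiplicative.toAdd h2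
  omega

end Pool.Agent.H22.OutF
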