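import Pool.Agent.H22.OutF.FGrow

/-!
MP_57eb62_al : the equivariant crossed homomorphism of the gadget.
-/

set_option autoImplicit false

namespace Pool.Agent.H22.OutF

open Finset

variable {ι : Type} [DecidableEq ι] {r q : ℕ}

/-- The values of the crossed homomorphism on the letters. -/
def vv (c : ℕ) : (ι ⊕ Fin r) ⊕ Fin (q + 2) → Fin (q + 2) → ℤ
  | Sum.inl (Sum.inl _), _ => 0
  | Sum.inl (Sum.inr j), s => gs q c ((j : ℕ) + 1) (bv 0) s
  | Sum.inr t, s => -gs q c (r + 1) (bv t) s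

/-- The crossed homomorphism. -/
noncomputable def Dc (c : ℕ) (s : Fin (q + 2)) (z : Gf ι r q) : ZF (ι ⊕ Fin r) :=
  cr pB (fun a => vv c a s) z

theorem Dc_mul (c : ℕ) (s : Fin (q + 2)) (x y : Gf ι r q) :
    Dc c s (x * y) = Dc c s x + em (pB x) * Dc c s y := cr_mul _ _ x y

theorem Dc_inv (c : ℕ) (s : Fin (q + 2)) (x : Gf ι r q) :
    Dc c s x⁻¹ = -(em (pB x)⁻¹ * Dc c s x) := cr_inv _ _ x

theorem Dc_conj (c : ℕ) (s : Fin (q + 2)) (w x : Gf ι r q) :
    Dc c s (w * x * w⁻¹) = (1 - em (pB (w * x * w⁻¹))) * Dc c s w + em (pB w) * Dc c s x :=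
  cr_conj _ _ w x

theorem Dc_iF (c : ℕ) (s : Fin (q + 2)) (y : FreeGroup ι) : Dc c s (iF y : Gf ι r q) = 0 := by
  refine crs_ext ((pB : Gf ι r q →* Ba ι r).comp iF) (fun y => Dc c s (iF y : Gf ι r q))
    (fun _ => 0) ?_ ?_ ?_ y
  · intro x y
    rw [map_mul, Dc_mul]
    rfl
  · intro x y
    rw [mul_zero, add_zero]
  · intro i
    rw [iF_of, Dc, cr_of]
    exact zero_smul _ _

theorem Dc_el (c : ℕ) (s : Fin (q + 2)) (j : Fin r) :
    Dc c s (el j : Gf ι r q) = gs q c ((j : ℕ) + 1) (bv 0) s • (1 : ZF (ι ⊕ Fin r)) := by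
  rw [el, Dc, cr_of]
  rfl

theorem Dc_bl (c : ℕ) (s t : Fin (q + 2)) :
    Dc c s (iB (FreeGroup.of t) : Gf ι r q) =
      (-gs q c (r + 1) (bv t) s) • (1 : ZF (ι ⊕ Fin r)) := by
  rw [iB_of, Dc, cr_of]
  rfl

theorem Dc_iB_mul (c : ℕ) (s : Fin (q + 2)) (x y : FreeGroup (Fin (q + 2))) :
    Dc c s (iB (x * y) : Gf ι r q) = Dc c s (iB x : Gf ι r q) + Dc c s (iB y) := by
  rw [map_mul, Dc_mul, pB_iB, map_one, one_mul]

theorem Dc_iB_pow (c : ℕ) (s : Fin (q + 2)) (x : FreeGroup (Fin (q + 2))) (n : ℕ) :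
    Dc c s (iB (x ^ n) : Gf ι r q) = (n : ℤ) • Dc c s (iB x : Gf ι r q) := by
  induction n with
  | zero =>
    rw [pow_zero, map_one, Dc, cr_one, Nat.cast_zero, zero_smul]
  | succ n ih =>
    rw [pow_succ, Dc_iB_mul, ih, Nat.cast_succ, add_smul, one_smul]

theorem Dc_bH (c : ℕ) (s t : Fin (q + 2)) :
    Dc c s (iB (bH q c (FreeGroup.of t)) : Gf ι r q) =
      (-(Aop q c (gs q c (r + 1) (bv t))) s) • (1 : ZF (ι ⊕ Fin r)) := by
  have h0 : Aop q c (gs q c (r + 1) (bv t)) = gs q c (r + 1) (Aop q c (bv t)) := by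
    have := congrArg (fun E : Module.End ℤ (Fin (q + 2) → ℤ) => E (bv t)) (gs_comm (q := q) c (r + 1))
    exact this.symm
  rw [h0, Aop_bv, map_add, map_smul, bH_of]
  by_cases ht : t = 0
  · subst ht
    rw [if_pos rfl, if_pos rfl, Dc_iB_mul, Dc_iB_pow, Dc_bl, Dc_bl, zero_add]
    simp only [Pi.add_apply, Pi.smul_apply, smul_eq_mul]
    rw [smul_smul, ← add_smul]
    congr 1
    ring
  · rw [if_neg ht, if_neg ht, Dc_bl, zero_smul, add_zero]

theorem Dc_El (c : ℕ) (s : Fin (q + 2)) (x : FreeGroup ι) (j : ℕ) (hj : j ≤ r + 1) :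
    Dc c s (El x j : Gf ι r q) = gs q c j (bv 0) s • (1 : ZF (ι ⊕ Fin r)) := by
  rcases Nat.lt_or_ge j (r + 1) with h | h
  · rcases j with _ | j
    · rw [El_zero, Dc, cr_one]
      simp [gs]
    · have h1 := El_succ (q := q) x (⟨j, by omega⟩ : Fin r)
      simp only at h1
      rw [h1, Dc_el]
  · have h1 : j = r + 1 := le_antisymm hj h
    subst h1
    rw [El_last, Dc_mul, Dc_inv, Dc_inv, Dc_iF, mul_zero, neg_zero, mul_zero, add_zero, Dc_bl,
      pB_iB, inv_one, map_one, one_mul, neg_smul, neg_neg]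

/-- The equivariance of the crossed homomorphism. -/
theorem Dc_sA (ψ : MulAut (FreeGroup ι)) (x : FreeGroup ι) (c : ℕ) (αb : MulAut (Ba ι r))
    (hα : ∀ z : Gf ι r q, pB (sA ψ x c z) = αb (pB z)) (s : Fin (q + 2)) (z : Gf ι r q) :
    Dc c s (sA ψ x c z) = rg (αb : Ba ι r →* Ba ι r) (Dc c (s - 1) z) +
      (if s = 0 then (c : ℤ) • rg (αb : Ba ι r →* Ba ι r) (Dc c 0 z) else 0) +
      (1 - em (pB (sA ψ x c z))) * Dc c s (El x 1 : Gf ι r q) := by
  have hrg1 : ∀ n : ℤ, rg (αb : Ba ι r →* Ba ι r) (n • (1 : ZF (ι ⊕ Fin r))) =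
      n • (1 : ZF (ι ⊕ Fin r)) := by
    intro n
    rw [map_zsmul, map_one]
  refine crs_ext ((pB : Gf ι r q →* Ba ι r).comp
    ((sA ψ x c : MulAut (Gf ι r q)) : Gf ι r q →* Gf ι r q))
    (fun z => Dc c s (sA ψ x c z))
    (fun z => rg (αb : Ba ι r →* Ba ι r) (Dc c (s - 1) z) +
      (if s = 0 then (c : ℤ) • rg (αb : Ba ι r →* Ba ι r) (Dc c 0 z) else 0) +
      (1 - em (pB (sA ψ x c z))) * Dc c s (El x 1 : Gf ι r q)) ?_ ?_ ?_ z
  · intro y z
    rw [map_mul, Dc_mul]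
    rfl
  · intro y z
    change _ = _ + em (pB (sA ψ x c y)) * _
    have h1 : em (pB (sA ψ x c (y * z))) =
        em (pB (sA ψ x c y)) * em (pB (sA ψ x c z)) := by
      rw [map_mul, map_mul, map_mul]
    have h2 : ∀ t, rg (αb : Ba ι r →* Ba ι r) (Dc c t (y * z)) =
        rg (αb : Ba ι r →* Ba ι r) (Dc c t y) +
          em (pB (sA ψ x c y)) * rg (αb : Ba ι r →* Ba ι r) (Dc c t z) := by
      intro t
      rw [Dc_mul, map_add, map_mul, rg_em, hα]
      rfl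
    rw [h1, h2, h2]
    split_ifs
    · rw [smul_add, ← mul_smul_comm]
      noncomm_ring
    · noncomm_ring
  · intro a
    rcases a with (i | j) | t
    · rw [← iF_of, sA_iF, Dc_conj, Dc_iF, Dc_iF, Dc_iF, map_zero, smul_zero, ite_self,
        mul_zero, zero_add, zero_add, add_zero]
    · change Dc c s (sA ψ x c (el j)) = rg (αb : Ba ι r →* Ba ι r) (Dc c (s - 1) (el j)) +
        (if s = 0 then (c : ℤ) • rg (αb : Ba ι r →* Ba ι r) (Dc c 0 (el j)) else 0) +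
        (1 - em (pB (sA ψ x c (el j)))) * Dc c s (El x 1 : Gf ι r q)
      have hj := j.2
      have a1 : sA ψ x c (el j : Gf ι r q) = El x ((j : ℕ) + 1 + 1) * (El x 1)⁻¹ := by
        rw [← El_succ (q := q) x j]
        exact sA_El _ _ _ _ (by omega)
      have a2 : pB (sA ψ x c (el j : Gf ι r q)) =
          pB (El x ((j : ℕ) + 1 + 1) : Gf ι r q) * (pB (El x 1 : Gf ι r q))⁻¹ := by
        rw [a1, map_mul, map_inv]
      have a3 : Dc c s (sA ψ x c (el j : Gf ι r q)) =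
          gs q c ((j : ℕ) + 1 + 1) (bv 0) s • (1 : ZF (ι ⊕ Fin r)) -
            em (pB (sA ψ x c (el j : Gf ι r q))) * Dc c s (El x 1 : Gf ι r q) := by
        rw [a2, map_mul em, a1, Dc_mul, Dc_inv, Dc_El _ _ _ _ (by omega), mul_neg, ← mul_assoc,
          sub_eq_add_neg]
      have h1 : gs q c ((j : ℕ) + 1 + 1) (bv 0) s =
          bv 0 s + Aop q c (gs q c ((j : ℕ) + 1) (bv 0)) s := by
        rw [gs_succ]
        rfl
      have h2 : gs q c 1 (bv 0) s = bv 0 s := by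
        simp [gs]
      have h3 : Dc c s (El x 1 : Gf ι r q) = bv 0 s • (1 : ZF (ι ⊕ Fin r)) := by
        rw [Dc_El c s x 1 (by omega), h2]
      have h4 : gs q c ((j : ℕ) + 1 + 1) (bv 0) s • (1 : ZF (ι ⊕ Fin r)) =
          (rg (αb : Ba ι r →* Ba ι r) (Dc c (s - 1) (el j : Gf ι r q)) +
            (if s = 0 then (c : ℤ) • rg (αb : Ba ι r →* Ba ι r) (Dc c 0 (el j : Gf ι r q))
              else 0)) + Dc c s (El x 1 : Gf ι r q) := by
        rw [h1, h3, Dc_el, Dc_el, hrg1, hrg1, Aop_apply, add_smul, add_smul]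
        split_ifs
        · rw [mul_smul, add_comm]
        · rw [zero_smul, add_comm]
      rw [a3, h4, sub_mul, one_mul]
      abel
    · rw [← iB_of, sA_iB, Dc_bH, Dc_bl, Dc_bl, hrg1, hrg1, pB_iB, map_one, sub_self, zero_mul,
        add_zero, Aop_apply]
      split_ifs
      · rw [smul_smul, ← add_smul]
        congr 1
        ring
      · rw [add_zero, add_zero]

end Pool.Agent.H22.OutF
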