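import Pool.Agent.H22.OutF.FKill

/-!
MP_57eb62_al : the crossed homomorphism of the gadget and its growth.
-/

set_option autoImplicit false

namespace Pool.Agent.H22.OutF

open Finset

section lin

variable {q : ℕ}

/-- The action of the marker automorphism on the homology of the marker letters. -/
def Aop (q c : ℕ) : Module.End ℤ (Fin (q + 2) → ℤ) where
  toFun w := fun s => w (s - 1) + if s = 0 then (c : ℤ) * w 0 else 0
  map_add' v w := by
    funext s
    simp only [Pi.add_apply]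
    split_ifs <;> ring
  map_smul' n w := by
    funext s
    simp only [Pi.smul_apply, smul_eq_mul, RingHom.id_apply]
    split_ifs <;> ring

theorem Aop_apply (c : ℕ) (w : Fin (q + 2) → ℤ) (s : Fin (q + 2)) :
    Aop q c w s = w (s - 1) + if s = 0 then (c : ℤ) * w 0 else 0 := rfl

/-- The partial geometric sums. -/
def gs (q c j : ℕ) : Module.End ℤ (Fin (q + 2) → ℤ) := ∑ i ∈ range j, Aop q c ^ i

theorem gs_succ (c j : ℕ) : gs q c (j + 1) = 1 + Aop q c * gs q c j := by
  unfold gs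
  rw [sum_range_succ', pow_zero, mul_sum]
  have h1 : ∑ k ∈ range j, Aop q c ^ (k + 1) = ∑ i ∈ range j, Aop q c * Aop q c ^ i :=
    sum_congr rfl fun i _ => by rw [pow_succ']
  rw [h1]
  exact add_comm _ _

theorem gs_comm (c j : ℕ) : gs q c j * Aop q c = Aop q c * gs q c j := by
  unfold gs
  rw [sum_mul, mul_sum]
  exact sum_congr rfl fun i _ => by rw [← pow_succ, ← pow_succ']

/-- The basis vectors. -/
def bv (t : Fin (q + 2)) : Fin (q + 2) → ℤ := fun s => if s = t then 1 else 0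

theorem Aop_bv (c : ℕ) (t : Fin (q + 2)) :
    Aop q c (bv t) = bv (t + 1) + (if t = 0 then (c : ℤ) else 0) • bv 0 := by
  funext s
  rw [Aop_apply]
  simp only [bv, Pi.add_apply, Pi.smul_apply, smul_eq_mul]
  have h1 : (if s - 1 = t then (1 : ℤ) else 0) = if s = t + 1 then 1 else 0 := by
    simp only [sub_eq_iff_eq_add]
  rw [h1]
  congr 1
  by_cases hs : s = 0
  · by_cases ht : t = 0
    · simp [hs, ht]
    · have h2 : ¬ (0 = t) := fun h => ht h.symm
      simp [hs, ht, h2]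
  · simp [hs]

theorem sum_Aop (c : ℕ) (w : Fin (q + 2) → ℤ) :
    ∑ s, Aop q c w s = ∑ s, w s + c * w 0 := by
  simp only [Aop_apply]
  rw [sum_add_distrib]
  congr 1
  · exact Equiv.sum_comp (Equiv.subRight (1 : Fin (q + 2))) w
  · rw [sum_ite_eq' univ (0 : Fin (q + 2)) fun _ => (c : ℤ) * w 0]
    simp

theorem sum_gs (c m : ℕ) (hm : m ∣ c) (j : ℕ) (w : Fin (q + 2) → ℤ) :
    (m : ℤ) ∣ (∑ s, gs q c j w s) - j * ∑ s, w s := by
  have hmc : (m : ℤ) ∣ (c : ℤ) := Int.natCast_dvd_natCast.2 hm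
  induction j with
  | zero => simp [gs]
  | succ j ih =>
    rw [gs_succ]
    have h1 : ∑ s, (1 + Aop q c * gs q c j) w s = ∑ s, w s + ∑ s, Aop q c (gs q c j w) s := by
      rw [← sum_add_distrib]
      rfl
    rw [h1, sum_Aop]
    have h2 : ∑ s, w s + (∑ s, gs q c j w s + c * gs q c j w 0) - ((j + 1 : ℕ) : ℤ) * ∑ s, w s =
        (∑ s, gs q c j w s - j * ∑ s, w s) + c * gs q c j w 0 := by
      push_cast
      ring
    rw [h2]
    exact dvd_add ih (Dvd.dvd.mul_right hmc _)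

theorem sum_bv (t : Fin (q + 2)) : ∑ s, bv t s = 1 := by
  unfold bv
  simp

theorem Aop_chain (c : ℕ) (w : Fin (q + 2) → ℤ) (j k i : ℕ) (h : i + k < q + 2) :
    (Aop q c ^ (j + k)) w ⟨i + k, h⟩ = (Aop q c ^ j) w ⟨i, by omega⟩ := by
  induction k with
  | zero => rfl
  | succ k ih =>
    rw [← add_assoc, pow_succ']
    change Aop q c ((Aop q c ^ (j + k)) w) _ = _
    rw [Aop_apply, if_neg, add_zero, ← ih (by omega)]
    · have h9 : (⟨i + (k + 1), h⟩ : Fin (q + 2)) - 1 = ⟨i + k, by omega⟩ := ?_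
      · rw [h9]
      rw [sub_eq_iff_eq_add]
      apply Fin.ext
      rw [Fin.val_add]
      change i + k + 1 = ((i + k) + (1 : Fin (q + 2)).val) % (q + 2)
      have h1 : (1 : Fin (q + 2)).val = 1 := by
        change 1 % (q + 2) = 1
        exact Nat.mod_eq_of_lt (by omega)
      rw [h1, Nat.mod_eq_of_lt (by omega)]
    · intro h1
      have := congrArg Fin.val h1
      simp at this

theorem Aop_rec (c : ℕ) (w : Fin (q + 2) → ℤ) (j : ℕ) :
    (Aop q c ^ (j + q + 2)) w 0 = c * (Aop q c ^ (j + q + 1)) w 0 + (Aop q c ^ j) w 0 := by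
  have h1 := Aop_chain c w j (q + 1) 0 (by omega)
  rw [show j + q + 2 = (j + q + 1) + 1 by omega, pow_succ']
  change Aop q c ((Aop q c ^ (j + q + 1)) w) 0 = _
  rw [Aop_apply, if_pos rfl]
  have h2 : (0 - 1 : Fin (q + 2)) = ⟨0 + (q + 1), by omega⟩ := by
    rw [zero_sub, neg_eq_iff_add_eq_zero]
    apply Fin.ext
    rw [Fin.val_add]
    change ((1 : Fin (q + 2)).val + (0 + (q + 1))) % (q + 2) = 0
    have h1 : (1 : Fin (q + 2)).val = 1 := by
      change 1 % (q + 2) = 1
      exact Nat.mod_eq_of_lt (by omega)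
    rw [h1, show 1 + (0 + (q + 1)) = q + 2 by omega, Nat.mod_self]
  rw [h2, show j + q + 1 = j + (q + 1) by omega, h1]
  have h3 : (⟨0, by omega⟩ : Fin (q + 2)) = 0 := rfl
  rw [h3]
  ring

theorem Aop_zero (c : ℕ) (w : Fin (q + 2) → ℤ) (h : ∀ j, (Aop q c ^ j) w 0 = 0) : w = 0 := by
  have h1 : ∀ j, (Aop q c ^ j) w (0 - 1) = 0 := by
    intro j
    have h2 := h (j + 1)
    rw [pow_succ'] at h2
    change Aop q c ((Aop q c ^ j) w) 0 = 0 at h2
    rw [Aop_apply, if_pos rfl, h j, mul_zero, add_zero] at h2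
    exact h2
  funext ⟨i, hi⟩
  have h2 := Aop_chain c w 0 (q + 1 - i) i (by omega)
  have h3 : (⟨i + (q + 1 - i), by omega⟩ : Fin (q + 2)) = 0 - 1 := by
    rw [zero_sub, eq_neg_iff_add_eq_zero]
    apply Fin.ext
    rw [Fin.val_add]
    change ((i + (q + 1 - i)) + (1 : Fin (q + 2)).val) % (q + 2) = 0
    have h1 : (1 : Fin (q + 2)).val = 1 := by
      change 1 % (q + 2) = 1
      exact Nat.mod_eq_of_lt (by omega)
    rw [h1, show i + (q + 1 - i) + 1 = q + 2 by omega, Nat.mod_self]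
  rw [h3, h1] at h2
  exact h2.symm

end lin

end Pool.Agent.H22.OutF
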