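import Pool.Agent.H22.OutF.Dist

/-!
MP_57eb62_al : growth of the marker automorphism.
-/

set_option autoImplicit false

namespace Pool.Agent.H22.OutF

/-- A nonzero integer sequence with `a (j + p) = c a (j + p - 1) + a j` grows at least like
`(c - 1) ^ j`. -/
theorem rec_growth (a : ℕ → ℤ) (q : ℕ) (c : ℕ) (hc : 2 ≤ c)
    (h : ∀ j, a (j + q + 2) = c * a (j + q + 1) + a j) (hne : ∃ j, a j ≠ 0) :
    ∃ J, ∀ k, (c - 1) ^ k ≤ (a (J + k)).natAbs := by
  -- backwards: if all late terms vanish, all terms vanish
  have hback : ∀ J, (∀ j, J ≤ j → a j = 0) → ∀ j, a j = 0 := by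
    intro J
    induction J with
    | zero => intro h1 j; exact h1 j (Nat.zero_le j)
    | succ J ih =>
      intro h1
      apply ih
      intro j hj
      rcases Nat.lt_or_ge J j with h2 | h2
      · exact h1 j h2
      · have h3 : j = J := le_antisymm h2 hj
        subst h3
        have h4 := h j
        rw [h1 (j + q + 2) (by omega), h1 (j + q + 1) (by omega)] at h4
        omega
  -- a window whose last term is the largest
  obtain ⟨J, hJ0, hJ⟩ : ∃ J, a (J + q + 1) ≠ 0 ∧
      ∀ i, i ≤ q → (a (J + i)).natAbs ≤ (a (J + q + 1)).natAbs := by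
    by_contra hcon
    push Not at hcon
    -- the maximum over a window
    let M : ℕ → ℕ := fun J => (Finset.range (q + 1)).sup fun i => (a (J + i)).natAbs
    have hM : ∀ J i, i ≤ q → (a (J + i)).natAbs ≤ M J := fun J i hi =>
      Finset.le_sup (f := fun i => (a (J + i)).natAbs) (Finset.mem_range.2 (by omega))
    have hlt : ∀ J, (a (J + q + 1)).natAbs ≤ M J ∧ (0 < M J → (a (J + q + 1)).natAbs < M J) := by
      intro J
      by_cases h0 : a (J + q + 1) = 0
      · rw [h0]
        exact ⟨Nat.zero_le _, fun h1 => h1⟩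
      · obtain ⟨i, hi, h1⟩ := hcon J h0
        have h2 := hM J i hi
        exact ⟨by omega, fun _ => by omega⟩
    -- choose a window with minimal maximum
    obtain ⟨J, hJ⟩ : ∃ J, ∀ J', M J ≤ M J' := by
      have hne' : (Set.range M).Nonempty := ⟨M 0, 0, rfl⟩
      obtain ⟨J, hJ⟩ := Nat.sInf_mem hne'
      exact ⟨J, fun J' => by rw [hJ]; exact Nat.sInf_le ⟨J', rfl⟩⟩
    have hle : ∀ k, M (J + k) ≤ M J := by
      intro k
      induction k with
      | zero => exact le_refl _
      | succ k ih =>
        refine Finset.sup_le fun i hi => ?_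
        rw [Finset.mem_range] at hi
        rcases Nat.lt_or_ge i q with h1 | h1
        · have h2 := hM (J + k) (i + 1) (by omega)
          have h3 : J + (k + 1) + i = J + k + (i + 1) := by ring
          rw [h3]
          omega
        · have h2 : i = q := by omega
          subst h2
          have h3 := (hlt (J + k)).1
          have h4 : J + (k + 1) + i = J + k + i + 1 := by ring
          rw [h4]
          omega
    rcases Nat.eq_zero_or_pos (M J) with h0 | h0
    · obtain ⟨j, hj⟩ := hne
      apply hj
      apply hback J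
      intro j hj
      have h1 := hM j 0 (Nat.zero_le _)
      have h2 := hle (j - J)
      rw [show J + (j - J) = j by omega] at h2
      rw [Nat.add_zero] at h1
      omega
    · have h1 := hJ (J + (q + 1))
      have h2 : M (J + (q + 1)) < M J := by
        rw [Finset.sup_lt_iff (by simpa using h0)]
        intro i hi
        rw [Finset.mem_range] at hi
        have h3 := (hlt (J + i)).2
        have h4 := hle i
        have h5 := (hlt (J + i)).1
        have h6 : J + (q + 1) + i = J + i + q + 1 := by ring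
        rw [h6]
        rcases Nat.eq_zero_or_pos (M (J + i)) with h7 | h7
        · omega
        · have := h3 h7
          omega
      omega
  -- now the growth
  have key : ∀ k, a (J + k + q + 1) ≠ 0 ∧
      (∀ i, i ≤ q → (a (J + k + i)).natAbs ≤ (a (J + k + q + 1)).natAbs) ∧
      (c - 1) ^ k ≤ (a (J + k + q + 1)).natAbs := by
    intro k
    induction k with
    | zero =>
      refine ⟨hJ0, hJ, ?_⟩
      rw [pow_zero]
      have : (a (J + 0 + q + 1)).natAbs ≠ 0 := by
        rw [Int.natAbs_ne_zero]
        exact hJ0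
      omega
    | succ k ih =>
      obtain ⟨h1, h2, h3⟩ := ih
      have h4 := h (J + k)
      have h5 := h2 0 (Nat.zero_le _)
      rw [Nat.add_zero] at h5
      have h6 : (c - 1) * (a (J + k + q + 1)).natAbs ≤ (a (J + k + q + 2)).natAbs := by
        have h7 : (c * a (J + k + q + 1)).natAbs ≤ (a (J + k + q + 2)).natAbs +
            (a (J + k)).natAbs := by
          have : (c : ℤ) * a (J + k + q + 1) = a (J + k + q + 2) - a (J + k) := by
            rw [h4]; ring
          rw [this]
          exact Int.natAbs_sub_le _ _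
        rw [Int.natAbs_mul, Int.natAbs_natCast] at h7
        obtain ⟨c', rfl⟩ : ∃ c', c = c' + 1 := ⟨c - 1, by omega⟩
        rw [Nat.add_sub_cancel]
        rw [add_mul, one_mul] at h7
        omega
      have h8 : 1 ≤ c - 1 := by omega
      have h9 : (a (J + k + q + 1)).natAbs ≤ (a (J + k + q + 2)).natAbs :=
        le_trans (Nat.le_mul_of_pos_left _ h8) h6
      have h10 : J + (k + 1) + q + 1 = J + k + q + 2 := by ring
      rw [h10]
      refine ⟨?_, ?_, ?_⟩
      · rw [← Int.natAbs_ne_zero] at h1 ⊢
        omega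
      · intro i hi
        rcases Nat.lt_or_ge i q with h11 | h11
        · have h12 := h2 (i + 1) (by omega)
          rw [show J + (k + 1) + i = J + k + (i + 1) by ring]
          omega
        · have h12 : i = q := by omega
          subst h12
          rw [show J + (k + 1) + i = J + k + i + 1 by ring]
          exact h9
      · rw [pow_succ, mul_comm]
        exact le_trans (Nat.mul_le_mul_left _ h3) h6
  refine ⟨J + q + 1, fun k => ?_⟩
  rw [show J + q + 1 + k = J + k + q + 1 by ring]
  exact (key k).2.2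

variable {ι : Type} [DecidableEq ι]

theorem norm_map_le (ψ : FreeGroup ι →* FreeGroup ι) (L : ℕ)
    (hψ : ∀ i, (ψ (FreeGroup.of i)).norm ≤ L) (z : FreeGroup ι) : (ψ z).norm ≤ L * z.norm := by
  have key : ∀ W : List (ι × Bool), (ψ (FreeGroup.mk W)).norm ≤ L * W.length := by
    intro W
    induction W with
    | nil =>
      have : (FreeGroup.mk [] : FreeGroup ι) = 1 := rfl
      rw [this, map_one, FreeGroup.norm_one]
      exact Nat.zero_le _
    | cons s W ih =>
      obtain ⟨i, b⟩ := s
      have h1 : (FreeGroup.mk ((i, b) :: W) : FreeGroup ι) =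
          FreeGroup.mk [(i, b)] * FreeGroup.mk W := rfl
      have h2 : (ψ (FreeGroup.mk [(i, b)])).norm ≤ L := by
        cases b
        · have h3 : (FreeGroup.mk [(i, false)] : FreeGroup ι) = (FreeGroup.of i)⁻¹ := rfl
          rw [h3, map_inv, FreeGroup.norm_inv_eq]
          exact hψ i
        · exact hψ i
      rw [h1, map_mul, List.length_cons, mul_add, mul_one]
      have h4 := FreeGroup.norm_mul_le (ψ (FreeGroup.mk [(i, b)])) (ψ (FreeGroup.mk W))
      omega
  have h1 := key z.toWord
  rw [FreeGroup.mk_toWord] at h1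
  exact h1

/-- There is no nontrivial tuple in a free group on which an automorphism of small growth acts
like the marker automorphism. -/
theorem no_grow [Finite ι] (h : FreeGroup ι →* FreeGroup ι) (v : FreeGroup ι)
    (ψ : FreeGroup ι →* FreeGroup ι) (hh : ∀ z, h z = v * ψ z * v⁻¹) (L : ℕ) (hL : 2 ≤ L)
    (hψ : ∀ i, (ψ (FreeGroup.of i)).norm ≤ L) (q c : ℕ) (hc : 2 * L + 1 ≤ c)
    (y : Fin (q + 2) → FreeGroup ι) (h0 : h (y 0) = y 0 ^ c * y 1)
    (h1 : ∀ s : Fin (q + 2), 1 ≤ (s : ℕ) → h (y s) = y (s + 1)) : ∀ s, y s = 1 := by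
  classical
  by_contra hcon
  push Not at hcon
  obtain ⟨I, hI⟩ : ∃ I, I = Subgroup.closure (Set.range y) := ⟨_, rfl⟩
  obtain ⟨e, k₀, hk₀, he⟩ := exists_hom y hcon I hI
  have hyI : ∀ s, y s ∈ I := fun s => by rw [hI]; exact Subgroup.subset_closure ⟨s, rfl⟩
  have hmap : ∀ z ∈ I, h z ∈ I := by
    intro z hz
    rw [hI] at hz
    induction hz using Subgroup.closure_induction with
    | mem x hx =>
      obtain ⟨s, rfl⟩ := hx
      rcases Nat.eq_zero_or_pos (s : ℕ) with h2 | h2
      · have h3 : s = 0 := Fin.ext h2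
        rw [h3, h0]
        exact mul_mem (pow_mem (hyI 0) c) (hyI 1)
      · rw [h1 s h2]
        exact hyI _
    | one => rw [map_one]; exact one_mem _
    | mul a b _ _ ha hb => rw [map_mul]; exact mul_mem ha hb
    | inv a _ ha => rw [map_inv]; exact inv_mem ha
  let hI' : I →* I := (h.comp I.subtype).codRestrict I fun z => hmap z z.2
  have hI'c : ∀ z : I, ((hI' z : I) : FreeGroup ι) = h z := fun z => rfl
  let Y : Fin (q + 2) → I := fun s => ⟨y s, hyI s⟩
  have hY0 : hI' (Y 0) = Y 0 ^ c * Y 1 := Subtype.ext h0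
  have hY1 : ∀ s : Fin (q + 2), 1 ≤ (s : ℕ) → hI' (Y s) = Y (s + 1) := fun s hs =>
    Subtype.ext (h1 s hs)
  let E : ℕ → I → ℤ := fun j z => (e ((hI')^[j] z)).toAdd
  have hEs : ∀ j z, E (j + 1) z = E j (hI' z) := by
    intro j z
    simp only [E, Function.iterate_succ_apply]
  have hiter : ∀ j (x z : I), (hI')^[j] (x * z) = (hI')^[j] x * (hI')^[j] z := by
    intro j
    induction j with
    | zero => intro x z; rfl
    | succ j ih =>
      intro x z
      rw [Function.iterate_succ_apply, Function.iterate_succ_apply, Function.iterate_succ_apply,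
        map_mul, ih]
  have hEm : ∀ j (x z : I), E j (x * z) = E j x + E j z := by
    intro j x z
    simp only [E, hiter, map_mul]
    rfl
  have hEp : ∀ j (x : I) (n : ℕ), E j (x ^ n) = n * E j x := by
    intro j x n
    induction n with
    | zero =>
      have h2 := hEm j 1 1
      rw [one_mul] at h2
      rw [pow_zero, Nat.cast_zero, zero_mul]
      omega
    | succ n ih =>
      rw [pow_succ, hEm, ih]
      push_cast
      ring
  have hE0 : ∀ j, E (j + 1) (Y 0) = c * E j (Y 0) + E j (Y 1) := by
    intro j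
    rw [hEs, hY0, hEm, hEp]
  have hE1 : ∀ j (s : Fin (q + 2)), 1 ≤ (s : ℕ) → E (j + 1) (Y s) = E j (Y (s + 1)) := by
    intro j s hs
    rw [hEs, hY1 s hs]
  -- moving along the cycle
  have hE2 : ∀ (k : ℕ) (hk : k + 1 < q + 2) (j : ℕ), E (j + k) (Y 1) = E j (Y ⟨k + 1, hk⟩) := by
    intro k
    induction k with
    | zero => intro hk j; rfl
    | succ k ih =>
      intro hk j
      have h2 := ih (by omega) (j + 1)
      rw [show j + 1 + k = j + (k + 1) by ring] at h2
      rw [h2, hE1 j ⟨k + 1, by omega⟩ (by simp)]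
      congr 2
      apply Fin.ext
      rw [Fin.val_add]
      simp only [Fin.val_one]
      exact Nat.mod_eq_of_lt hk
  have hE3 : ∀ j, E (j + q + 1) (Y 1) = E j (Y 0) := by
    intro j
    have h2 := hE2 q (by omega) (j + 1)
    rw [show j + 1 + q = j + q + 1 by ring] at h2
    rw [h2, hE1 j ⟨q + 1, by omega⟩ (by simp)]
    congr 2
    apply Fin.ext
    rw [Fin.val_add]
    simp only [Fin.val_one, Fin.val_zero]
    exact Nat.mod_self (q + 2)
  have hrec : ∀ j, E (j + q + 2) (Y 0) = c * E (j + q + 1) (Y 0) + E j (Y 0) := by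
    intro j
    have h2 := hE0 (j + q + 1)
    rw [hE3] at h2
    exact h2
  have hne : ∃ j, E j (Y 0) ≠ 0 := by
    by_contra hz
    push Not at hz
    have h2 : ∀ j, E j (Y 1) = 0 := by
      intro j
      have h3 := hE0 j
      rw [hz, hz, mul_zero, zero_add] at h3
      exact h3.symm
    have h4 : ∀ s : Fin (q + 2), E 0 (Y s) = 0 := by
      intro s
      rcases Nat.eq_zero_or_pos (s : ℕ) with h5 | h5
      · have h6 : s = 0 := Fin.ext h5
        rw [h6]
        exact hz 0
      · have h6 := hE2 ((s : ℕ) - 1) (by omega) 0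
        rw [h2] at h6
        have h7 : (⟨(s : ℕ) - 1 + 1, by omega⟩ : Fin (q + 2)) = s :=
          Fin.ext (by simp only []; omega)
        rw [h7] at h6
        exact h6.symm
    exact he (Multiplicative.toAdd.injective (h4 k₀))
  obtain ⟨J, hJ⟩ := rec_growth (fun j => E j (Y 0)) q c (by omega) hrec hne
  -- the upper bound
  obtain ⟨D, hD⟩ := hom_bound y I hI e
  have hnorm : ∀ (j : ℕ) (z : I), (((hI')^[j] z : I) : FreeGroup ι).norm + 2 * v.norm ≤
      L ^ j * ((z : FreeGroup ι).norm + 2 * v.norm) := by
    intro j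
    induction j with
    | zero => intro z; rw [pow_zero, one_mul]; exact le_refl _
    | succ j ih =>
      intro z
      rw [Function.iterate_succ_apply]
      refine le_trans (ih (hI' z)) ?_
      rw [pow_succ, mul_assoc]
      apply Nat.mul_le_mul_left
      rw [hI'c, hh]
      have h2 := FreeGroup.norm_mul_le (v * ψ z) v⁻¹
      have h3 := FreeGroup.norm_mul_le v (ψ z)
      have h4 := norm_map_le ψ L hψ z
      rw [FreeGroup.norm_inv_eq] at h2
      have h5 : 2 * (2 * v.norm) ≤ L * (2 * v.norm) := Nat.mul_le_mul_right _ hL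
      rw [mul_add]
      omega
  set K := (y 0).norm + 2 * v.norm + 1 with hK
  have hup : ∀ k, (E (J + k) (Y 0)).natAbs ≤ D * (L ^ (J + k) * K) := by
    intro k
    refine le_trans (hD _) (Nat.mul_le_mul_left _ ?_)
    have h2 := hnorm (J + k) (Y 0)
    have h3 : ((Y 0 : I) : FreeGroup ι) = y 0 := rfl
    rw [h3] at h2
    have h4 : 1 ≤ L ^ (J + k) := Nat.one_le_pow _ _ (by omega)
    rw [hK, mul_add, mul_one]
    omega
  obtain ⟨k, hk⟩ : ∃ k, D * (L ^ J * K) < 2 ^ k := ⟨_, Nat.lt_two_pow_self⟩
  have h2 := le_trans (hJ k) (hup k)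
  have h3 : (2 * L) ^ k ≤ (c - 1) ^ k := Nat.pow_le_pow_left (by omega) k
  have h4 : D * (L ^ (J + k) * K) = D * (L ^ J * K) * L ^ k := by
    rw [pow_add]; ring
  rw [h4] at h2
  have h5 : D * (L ^ J * K) * L ^ k < 2 ^ k * L ^ k :=
    Nat.mul_lt_mul_of_pos_right hk (Nat.pow_pos (by omega))
  rw [← mul_pow] at h5
  omega

end Pool.Agent.H22.OutF
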