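import Pool.Agent.H22.OutF.Flex
import Pool.Agent.H22.OutF.Grow

/-!
MP_57eb62_al : a conjugacy between gadgets preserves the normal closure of the marker letters.
-/

set_option autoImplicit false

namespace Pool.Agent.H22.OutF

theorem norm_hom_le {α β : Type} [DecidableEq α] [DecidableEq β]
    (ψ : FreeGroup α →* FreeGroup β) (L : ℕ)
    (hψ : ∀ i, (ψ (FreeGroup.of i)).norm ≤ L) (z : FreeGroup α) : (ψ z).norm ≤ L * z.norm := by
  have key : ∀ W : List (α × Bool), (ψ (FreeGroup.mk W)).norm ≤ L * W.length := by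
    intro W
    induction W with
    | nil =>
      have : (FreeGroup.mk [] : FreeGroup α) = 1 := rfl
      rw [this, map_one, FreeGroup.norm_one]
      exact Nat.zero_le _
    | cons s W ih =>
      obtain ⟨i, b⟩ := s
      have h1 : (FreeGroup.mk ((i, b) :: W) : FreeGroup α) =
          FreeGroup.mk [(i, b)] * FreeGroup.mk W := rfl
      have h2 : (ψ (FreeGroup.mk [(i, b)])).norm ≤ L := by
        cases b
        · have h3 : (FreeGroup.mk [(i, false)] : FreeGroup α) = (FreeGroup.of i)⁻¹ := rfl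
          rw [h3, map_inv, FreeGroup.norm_inv_eq]
          exact hψ i
        · exact hψ i
      rw [h1, map_mul, List.length_cons, mul_add, mul_one]
      have h4 := FreeGroup.norm_mul_le (ψ (FreeGroup.mk [(i, b)])) (ψ (FreeGroup.mk W))
      omega
  have h1 := key z.toWord
  rw [FreeGroup.mk_toWord] at h1
  exact h1

variable {ι : Type} [DecidableEq ι] {r q : ℕ}

theorem norm_iS (z : FreeGroup ι) : (iS z : Ba ι r).norm ≤ z.norm := by
  have h := norm_hom_le (iS : FreeGroup ι →* Ba ι r) 1 (fun i => by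
    rw [iS_of, FreeGroup.norm_of]) z
  rwa [one_mul] at h

theorem norm_El (x : FreeGroup ι) (j : ℕ) (hj : j ≤ r + 1) :
    (pB (El x j : Gf ι r q)).norm ≤ 1 + x.norm := by
  rcases Nat.lt_or_ge j (r + 1) with h | h
  · rcases j with _ | j
    · rw [El_zero, map_one, FreeGroup.norm_one]
      exact Nat.zero_le _
    · have h1 := El_succ (q := q) x (⟨j, by omega⟩ : Fin r)
      simp only at h1
      rw [h1, pB_el, FreeGroup.norm_of]
      omega
  · have h1 : j = r + 1 := le_antisymm hj h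
    subst h1
    rw [El_last, map_mul, map_inv, map_inv, pB_iB, pB_iF, inv_one, one_mul,
      FreeGroup.norm_inv_eq]
    have := norm_iS (r := r) x
    omega

/-- The induced automorphism of the gadget. -/
theorem sA_descend (φ : MulAut (FreeGroup ι)) (x : FreeGroup ι) (c : ℕ) :
    ∃ αb : MulAut (Ba ι r), ∀ z : Gf ι r q, pB (sA φ x c z) = αb (pB z) :=
  descend _ (fun s => by rw [sA_iB, pB_iB]) (fun s => by rw [sA_symm_iB, pB_iB])

theorem fkill [Finite ι] (φ ψ : MulAut (FreeGroup ι)) (x x' : FreeGroup ι) (c L : ℕ)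
    (hL : 2 ≤ L) (hc : 2 * L + 1 ≤ c)
    (hψ : ∀ i, (ψ (FreeGroup.of i)).norm + 2 * (1 + x'.norm) ≤ L)
    (hx' : 2 * (1 + x'.norm) ≤ L) (Θ : MulAut (Gf ι r q))
    (w : Gf ι r q) (h : ∀ z, Θ (sA φ x c z) = w * sA ψ x' c (Θ z) * w⁻¹) (s : Fin (q + 2)) :
    pB (Θ (iB (FreeGroup.of s))) = 1 := by
  obtain ⟨αb, hα⟩ := sA_descend (r := r) (q := q) ψ x' c
  have hnorm : ∀ a : ι ⊕ Fin r, (αb (FreeGroup.of a)).norm ≤ L := by
    intro a
    rcases a with i | j
    · have h1 : αb (FreeGroup.of (Sum.inl i)) =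
          pB (El x' 1 : Gf ι r q) * iS (ψ (FreeGroup.of i)) * (pB (El x' 1 : Gf ι r q))⁻¹ := by
        have h2 : (FreeGroup.of (Sum.inl i) : Ba ι r) =
            pB (iF (FreeGroup.of i) : Gf ι r q) := by
          rw [pB_iF, iS_of]
        rw [h2, ← hα, sA_iF, map_mul, map_mul, map_inv, pB_iF]
      rw [h1]
      have h2 := FreeGroup.norm_mul_le
        (pB (El x' 1 : Gf ι r q) * iS (ψ (FreeGroup.of i))) (pB (El x' 1 : Gf ι r q))⁻¹
      have h3 := FreeGroup.norm_mul_le (pB (El x' 1 : Gf ι r q)) (iS (ψ (FreeGroup.of i)))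
      have h4 := norm_iS (r := r) (ψ (FreeGroup.of i))
      have h5 := norm_El (r := r) (q := q) x' 1 (by omega)
      rw [FreeGroup.norm_inv_eq] at h2
      have h6 := hψ i
      omega
    · have h1 : αb (FreeGroup.of (Sum.inr j)) =
          pB (El x' ((j : ℕ) + 2) : Gf ι r q) * (pB (El x' 1 : Gf ι r q))⁻¹ := by
        have h2 : (FreeGroup.of (Sum.inr j) : Ba ι r) = pB (el j : Gf ι r q) := by
          rw [pB_el]
        have hj := j.2
        rw [h2, ← hα, ← El_succ (q := q) x' j, sA_El _ _ _ _ (by omega), map_mul, map_inv]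
      rw [h1]
      have hj := j.2
      have h2 := FreeGroup.norm_mul_le
        (pB (El x' ((j : ℕ) + 2) : Gf ι r q)) (pB (El x' 1 : Gf ι r q))⁻¹
      rw [FreeGroup.norm_inv_eq] at h2
      have h4 := norm_El (r := r) (q := q) x' ((j : ℕ) + 2) (by omega)
      have h5 := norm_El (r := r) (q := q) x' 1 (by omega)
      omega
  have hkey : ∀ z, (pB w * αb (pB (Θ z)) * (pB w)⁻¹) = pB (Θ (sA φ x c z)) := by
    intro z
    rw [h, map_mul, map_mul, map_inv, hα]
  refine no_grow ((MulAut.conj (pB w) : Ba ι r →* Ba ι r).comp (αb : Ba ι r →* Ba ι r)) (pB w)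
    (αb : Ba ι r →* Ba ι r) (fun z => rfl) L hL hnorm q c hc
    (fun s => pB (Θ (iB (FreeGroup.of s)))) ?_ ?_ s
  · change pB w * αb (pB (Θ (iB (FreeGroup.of 0)))) * (pB w)⁻¹ = _
    rw [hkey, sA_iB, bH_of, if_pos rfl]
    simp only [map_mul, map_pow]
  · intro s hs
    change pB w * αb (pB (Θ (iB (FreeGroup.of s)))) * (pB w)⁻¹ = _
    rw [hkey, sA_iB, bH_of, if_neg]
    intro h1
    rw [h1] at hs
    simp at hs

end Pool.Agent.H22.OutF
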