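import Pool.Agent.H22.OutF.FCross

/-!
MP_57eb62_al : slow elements have vanishing orbit sums.
-/

set_option autoImplicit false

namespace Pool.Agent.H22.OutF

open Finset

variable {ι : Type} [DecidableEq ι] {r q : ℕ}

theorem one_step (ψ : MulAut (FreeGroup ι)) (x : FreeGroup ι) (c : ℕ) (w u : Gf ι r q)
    (κ : Ba ι r → ℤ) (hb : ∀ g, (κ g).natAbs ≤ 1) (hκ : ∀ g, κ (pB u * g) = κ g) :
    ∃ κ' : Ba ι r → ℤ, (∀ g, (κ' g).natAbs ≤ 1) ∧
      (∀ g, κ' (pB (w * sA ψ x c u * w⁻¹) * g) = κ' g) ∧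
      ∀ s, ev κ' (Dc c s (w * sA ψ x c u * w⁻¹)) =
        Aop q c (fun s => ev κ (Dc c s u)) s := by
  obtain ⟨αb, hα⟩ := sA_descend (r := r) (q := q) ψ x c
  have hinv : ∀ g, κ (αb⁻¹ ((pB w)⁻¹ * (pB (w * sA ψ x c u * w⁻¹) * g))) =
      κ (αb⁻¹ ((pB w)⁻¹ * g)) := by
    intro g
    have h1 : (pB w)⁻¹ * (pB (w * sA ψ x c u * w⁻¹) * g) =
        αb (pB u) * ((pB w)⁻¹ * g) := by
      rw [map_mul, map_mul, map_inv, hα]
      group
    rw [h1, map_mul, MulAut.inv_apply_self, hκ]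
  refine ⟨fun g => κ (αb⁻¹ ((pB w)⁻¹ * g)), fun g => hb _, hinv, fun s => ?_⟩
  have hz : ∀ R : ZF (ι ⊕ Fin r), ev (fun g => κ (αb⁻¹ ((pB w)⁻¹ * g)))
      ((1 - em (pB (w * sA ψ x c u * w⁻¹))) * R) = 0 := fun R => ev_inv _ _ hinv R
  have hr : ∀ X : ZF (ι ⊕ Fin r), ev (fun g => κ (αb⁻¹ ((pB w)⁻¹ * g)))
      (em (pB w) * rg (αb : Ba ι r →* Ba ι r) X) = ev κ X := by
    intro X
    rw [ev_rg]
    have h1 : (fun y => κ (αb⁻¹ ((pB w)⁻¹ * (pB w * (αb : Ba ι r →* Ba ι r) y)))) = κ := by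
      funext y
      rw [inv_mul_cancel_left]
      change κ (αb⁻¹ (αb y)) = κ y
      rw [MulAut.inv_apply_self]
    rw [h1]
  have h2 : ∀ R : ZF (ι ⊕ Fin r), em (pB w) * ((1 - em (pB (sA ψ x c u))) * R) =
      (1 - em (pB (w * sA ψ x c u * w⁻¹))) * (em (pB w) * R) := by
    intro R
    have h3 : (em (pB w) : ZF (ι ⊕ Fin r)) * em (pB (sA ψ x c u)) =
        em (pB (w * sA ψ x c u * w⁻¹)) * em (pB w) := by
      have h4 : pB w * pB (sA ψ x c u) = pB (w * sA ψ x c u * w⁻¹) * pB w := by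
        rw [map_mul pB (w * sA ψ x c u), map_mul, map_inv]
        group
      rw [← map_mul em, ← map_mul em, h4]
    rw [← mul_assoc, ← mul_assoc, mul_sub, mul_one, h3, sub_mul (1 : ZF (ι ⊕ Fin r)), one_mul]
  rw [Dc_conj, map_add, hz, zero_add, Dc_sA ψ x c αb hα, mul_add, map_add, h2, hz, add_zero,
    mul_add, map_add, hr, Aop_apply]
  congr 1
  split_ifs
  · rw [mul_smul_comm, map_zsmul, hr, smul_eq_mul]
  · rw [mul_zero, map_zero]

theorem vv_bound (c : ℕ) : ∃ C : ℕ, ∀ (a : (ι ⊕ Fin r) ⊕ Fin (q + 2)) (s : Fin (q + 2)),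
    (vv c a s).natAbs ≤ C := by
  refine ⟨(∑ j : Fin r, ∑ s : Fin (q + 2), (gs q c ((j : ℕ) + 1) (bv 0) s).natAbs) +
    ∑ t : Fin (q + 2), ∑ s : Fin (q + 2), (gs q c (r + 1) (bv t) s).natAbs, ?_⟩
  intro a s
  rcases a with (i | j) | t
  · exact Nat.zero_le _
  · have h1 : (gs q c ((j : ℕ) + 1) (bv 0) s).natAbs ≤
        ∑ s : Fin (q + 2), (gs q c ((j : ℕ) + 1) (bv 0) s).natAbs :=
      single_le_sum (f := fun s : Fin (q + 2) => (gs q c ((j : ℕ) + 1) (bv 0) s).natAbs)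
        (fun _ _ => Nat.zero_le _) (mem_univ s)
    have h2 := single_le_sum (f := fun j : Fin r =>
      ∑ s : Fin (q + 2), (gs q c ((j : ℕ) + 1) (bv 0) s).natAbs)
        (fun _ _ => Nat.zero_le _) (mem_univ j)
    exact (h1.trans h2).trans (Nat.le_add_right _ _)
  · have h1 : (gs q c (r + 1) (bv t) s).natAbs ≤
        ∑ s : Fin (q + 2), (gs q c (r + 1) (bv t) s).natAbs :=
      single_le_sum (f := fun s : Fin (q + 2) => (gs q c (r + 1) (bv t) s).natAbs)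
        (fun _ _ => Nat.zero_le _) (mem_univ s)
    have h2 := single_le_sum (f := fun t : Fin (q + 2) =>
      ∑ s : Fin (q + 2), (gs q c (r + 1) (bv t) s).natAbs)
        (fun _ _ => Nat.zero_le _) (mem_univ t)
    have h3 : (vv c (Sum.inr t : (ι ⊕ Fin r) ⊕ Fin (q + 2)) s).natAbs =
        (gs q c (r + 1) (bv t) s).natAbs := Int.natAbs_neg _
    rw [h3]
    exact (h1.trans h2).trans (Nat.le_add_left _ _)

theorem slow_zero (ψ : MulAut (FreeGroup ι)) (x : FreeGroup ι) (c L K : ℕ) (hL : 2 ≤ L)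
    (hc : 2 * L + 1 ≤ c) (w : Gf ι r q) (u : ℕ → Gf ι r q)
    (hu : ∀ j, u (j + 1) = w * sA ψ x c (u j) * w⁻¹) (hb : ∀ j, (u j).norm ≤ K * L ^ j)
    (κ : Ba ι r → ℤ) (hκb : ∀ g, (κ g).natAbs ≤ 1) (hκ : ∀ g, κ (pB (u 0) * g) = κ g)
    (s : Fin (q + 2)) : ev κ (Dc c s (u 0)) = 0 := by
  obtain ⟨C, hC⟩ := vv_bound (ι := ι) (r := r) (q := q) c
  set v0 : Fin (q + 2) → ℤ := fun s => ev κ (Dc c s (u 0)) with hv0
  have key : ∀ j, ∃ κ' : Ba ι r → ℤ, (∀ g, (κ' g).natAbs ≤ 1) ∧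
      (∀ g, κ' (pB (u j) * g) = κ' g) ∧
      ∀ s, ev κ' (Dc c s (u j)) = (Aop q c ^ j) v0 s := by
    intro j
    induction j with
    | zero => exact ⟨κ, hκb, hκ, fun s => rfl⟩
    | succ j ih =>
      obtain ⟨κ₁, h1, h2, h3⟩ := ih
      obtain ⟨κ₂, h4, h5, h6⟩ := one_step ψ x c w (u j) κ₁ h1 h2
      rw [← hu] at h5 h6
      refine ⟨κ₂, h4, h5, fun s => ?_⟩
      rw [h6, funext h3, pow_succ']
      rfl
  have hbd : ∀ j, ((Aop q c ^ j) v0 0).natAbs ≤ C * (K * L ^ j) := by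
    intro j
    obtain ⟨κ₁, h1, -, h3⟩ := key j
    rw [← h3 0]
    have h4 := cr_bound (pB : Gf ι r q →* Ba ι r) (fun a => vv c a 0) C (fun a => hC a 0) κ₁ h1
      (u j)
    exact h4.trans (Nat.mul_le_mul_left _ (hb j))
  have hz : v0 = 0 := by
    apply Aop_zero c v0
    by_contra hcon
    push Not at hcon
    obtain ⟨J, hJ⟩ := rec_growth (fun j => (Aop q c ^ j) v0 0) q c (by omega)
      (fun j => Aop_rec c v0 j) hcon
    set M := C * (K * L ^ J) with hM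
    have h1 := (hJ M).trans (hbd (J + M))
    have h2 : (2 * L) ^ M ≤ (c - 1) ^ M := Nat.pow_le_pow_left (by omega) M
    have h3 : C * (K * L ^ (J + M)) = M * L ^ M := by
      rw [hM, pow_add]
      ring
    rw [h3] at h1
    have h4 : 2 ^ M * L ^ M ≤ M * L ^ M := by
      rw [← mul_pow]
      exact h2.trans h1
    have h5 : 0 < L ^ M := pow_pos (by omega) M
    have h6 := Nat.le_of_mul_le_mul_right h4 h5
    exact absurd h6 (not_le.2 Nat.lt_two_pow_self)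
  exact congrFun hz s

/-- The sum of the coordinates of the crossed homomorphism. -/
theorem sum_Dc (c : ℕ) (z : Gf ι r q) :
    ∑ s, Dc c s z = cr (pB : Gf ι r q →* Ba ι r) (fun a => ∑ s, vv c a s) z := by
  refine crs_ext (pB : Gf ι r q →* Ba ι r) (fun z => ∑ s, Dc c s z) _ ?_ (cr_mul _ _) ?_ z
  · intro x y
    rw [mul_sum, ← sum_add_distrib]
    exact sum_congr rfl fun s _ => Dc_mul c s x y
  · intro a
    rw [cr_of, sum_smul]
    exact sum_congr rfl fun s _ => cr_of _ _ a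

theorem sum_vv (c : ℕ) (hc : r + 1 ∣ c) (a : (ι ⊕ Fin r) ⊕ Fin (q + 2)) :
    ((r : ℤ) + 1) ∣ (∑ s, vv c a s) - Sum.elim vb (fun _ => 0) a := by
  have h0 : ((r + 1 : ℕ) : ℤ) = (r : ℤ) + 1 := by push_cast; rfl
  rcases a with (i | j) | t
  · simp [vv, vb]
  · have h1 := sum_gs (q := q) c (r + 1) hc ((j : ℕ) + 1) (bv 0)
    rw [sum_bv, mul_one, h0] at h1
    have h2 : ∑ s, vv c (Sum.inl (Sum.inr j) : (ι ⊕ Fin r) ⊕ Fin (q + 2)) s =
        ∑ s, gs q c ((j : ℕ) + 1) (bv 0) s := rfl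
    rw [h2]
    simpa [vb] using h1
  · have h1 := sum_gs (q := q) c (r + 1) hc (r + 1) (bv t)
    rw [sum_bv, mul_one, h0] at h1
    have h2 : ∑ s, vv c (Sum.inr t : (ι ⊕ Fin r) ⊕ Fin (q + 2)) s =
        -∑ s, gs q c (r + 1) (bv t) s := by
      rw [← sum_neg_distrib]
      rfl
    rw [h2, Sum.elim_inr, sub_zero, dvd_neg]
    have h3 : ∑ s, gs q c (r + 1) (bv t) s =
        (∑ s, gs q c (r + 1) (bv t) s - ((r : ℤ) + 1)) + ((r : ℤ) + 1) := by ring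
    rw [h3]
    exact dvd_add h1 dvd_rfl

theorem cr_pB (z : Gf ι r q) :
    cr (pB : Gf ι r q →* Ba ι r) (fun a => Sum.elim vb (fun _ => 0) a) z = db (pB z) := by
  refine crs_ext (pB : Gf ι r q →* Ba ι r) _ (fun z => db (pB z)) (cr_mul _ _) ?_ ?_ z
  · intro x y
    unfold db
    rw [map_mul, cr_mul]
    rfl
  · intro a
    rw [cr_of]
    rcases a with a | t
    · have h1 : pB (FreeGroup.of (Sum.inl a) : Gf ι r q) = FreeGroup.of a := by simp [pB]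
      rw [h1, db, cr_of]
      rfl
    · have h1 : pB (FreeGroup.of (Sum.inr t) : Gf ι r q) = 1 := by simp [pB]
      rw [h1, db, cr_one, Sum.elim_inr, zero_smul]

theorem slow_OS (ψ : MulAut (FreeGroup ι)) (x : FreeGroup ι) (c L K : ℕ) (hL : 2 ≤ L)
    (hc : 2 * L + 1 ≤ c) (hrc : r + 1 ∣ c) (w : Gf ι r q) (u : ℕ → Gf ι r q)
    (hu : ∀ j, u (j + 1) = w * sA ψ x c (u j) * w⁻¹) (hb : ∀ j, (u j).norm ≤ K * L ^ j) :
    OS (pB (u 0)) := by
  intro κ hκb hκ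
  have h1 : ev κ (∑ s, Dc c s (u 0)) = 0 := by
    rw [map_sum]
    exact sum_eq_zero fun s _ => slow_zero ψ x c L K hL hc w u hu hb κ hκb hκ s
  choose v' hv' using sum_vv (ι := ι) (r := r) (q := q) c hrc
  have h2 : (fun a : (ι ⊕ Fin r) ⊕ Fin (q + 2) => ∑ s, vv c a s) =
      fun a => Sum.elim vb (fun _ => 0) a + ((r : ℤ) + 1) * v' a := by
    funext a
    rw [← hv' a]
    ring
  rw [sum_Dc, h2, cr_add, cr_smul, cr_pB, map_add, map_zsmul, smul_eq_mul] at h1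
  exact ⟨-(ev κ (cr (pB : Gf ι r q →* Ba ι r) v' (u 0))), by linarith⟩

end Pool.Agent.H22.OutF
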