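import Pool.Agent.H22.OutF.FOS

/-!
MP_57eb62_al : conjugate gadgets come from conjugate outer automorphisms.
-/

set_option autoImplicit false

namespace Pool.Agent.H22.OutF

open Finset

variable {ι : Type} [DecidableEq ι] {r q : ℕ}

theorem OS.conj_inS {v : Ba ι r} (hv : OS v) : ∃ p z, v = p * iS z * p⁻¹ := by
  set L := v.toWord with hL
  have hLr : FreeGroup.IsReduced L := FreeGroup.isReduced_toWord
  have hPC := FreeGroup.reduceCyclically.conj_conjugator_reduceCyclically L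
  have hC : FreeGroup.IsCyclicallyReduced (FreeGroup.reduceCyclically L) :=
    FreeGroup.reduceCyclically.isCyclicallyReduced hLr
  set P := FreeGroup.reduceCyclically.conjugator L with hPd
  set C := FreeGroup.reduceCyclically L with hCd
  have hvPC : v = FreeGroup.mk P * FreeGroup.mk C * (FreeGroup.mk P)⁻¹ := by
    rw [FreeGroup.inv_mk, FreeGroup.mul_mk, FreeGroup.mul_mk, hPC, hL, FreeGroup.mk_toWord]
  have hCE : NoE C := by
    refine OS.noE hC ?_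
    rw [hvPC] at hv
    exact hv.of_conj
  obtain ⟨z, hz⟩ := exists_of_noE hCE
  exact ⟨FreeGroup.mk P, z, by rw [hz, ← hvPC]⟩

/-- An automorphism for which the images of the small group have vanishing orbit sums maps the
small group into a conjugate of the small group. -/
theorem exists_conj [Nonempty ι] (θ : MulAut (Ba ι r)) (h : ∀ f : FreeGroup ι, OS (θ (iS f))) :
    ∃ g, ∀ f : FreeGroup ι, ∃ z : FreeGroup ι, g⁻¹ * θ (iS f) * g = iS z := by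
  obtain ⟨i₀⟩ := ‹Nonempty ι›
  obtain ⟨p, z, hz⟩ := (h (FreeGroup.of i₀)).conj_inS
  have hz' : p⁻¹ * θ (iS (FreeGroup.of i₀)) * p = iS z := by rw [hz]; group
  have hz1 : z ≠ 1 := by
    rintro rfl
    rw [map_one, mul_one, mul_inv_cancel] at hz
    have h1 : (iS (FreeGroup.of i₀) : Ba ι r) = 1 := by
      rw [← map_one θ] at hz
      exact θ.injective hz
    have h2 : FreeGroup.of i₀ = 1 := iS_inj (r := r) (by rw [h1, map_one])
    exact FreeGroup.of_ne_one i₀ h2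
  refine ⟨p, fun f => ?_⟩
  have h1 : OS (p⁻¹ * θ (iS f) * p) := by
    have := (h f).conj p⁻¹
    rwa [inv_inv] at this
  have h2 : OS (iS z * (p⁻¹ * θ (iS f) * p)) := by
    have h3 : iS z * (p⁻¹ * θ (iS f) * p) = p⁻¹ * θ (iS (FreeGroup.of i₀ * f)) * p⁻¹⁻¹ := by
      rw [← hz', map_mul, map_mul]
      group
    rw [h3]
    exact (h _).conj p⁻¹
  exact serre z hz1 _ h1 h2

theorem norm_pow_le (φ : MulAut (FreeGroup ι)) (L : ℕ)
    (hφ : ∀ i, (φ (FreeGroup.of i)).norm ≤ L) (f : FreeGroup ι) (j : ℕ) :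
    ((φ ^ j) f).norm ≤ L ^ j * f.norm := by
  induction j with
  | zero => rw [pow_zero, pow_zero, one_mul]; rfl
  | succ j ih =>
    rw [pow_succ', MulAut.mul_apply]
    have h1 := norm_map_le (φ : FreeGroup ι →* FreeGroup ι) L hφ ((φ ^ j) f)
    refine h1.trans ?_
    rw [pow_succ', mul_assoc]
    exact Nat.mul_le_mul_left L ih

theorem image_OS [Finite ι] (φ ψ : MulAut (FreeGroup ι)) (x x' : FreeGroup ι) (c L : ℕ)
    (hL : 2 ≤ L) (hc : 2 * L + 1 ≤ c) (hrc : r + 1 ∣ c)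
    (hφ : ∀ i, (φ (FreeGroup.of i)).norm ≤ L) (Θ : MulAut (Gf ι r q))
    (w : Gf ι r q) (h : ∀ z, Θ (sA φ x c z) = w * sA ψ x' c (Θ z) * w⁻¹) (f : FreeGroup ι) :
    OS (pB (Θ (iF f))) := by
  have := Fintype.ofFinite ι
  obtain ⟨K, hK⟩ : ∃ K : ℕ, ∀ a, (Θ (FreeGroup.of a)).norm ≤ K :=
    ⟨∑ a, (Θ (FreeGroup.of a)).norm, fun a =>
      single_le_sum (f := fun a => (Θ (FreeGroup.of a)).norm) (fun _ _ => Nat.zero_le _)
        (mem_univ a)⟩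
  refine slow_OS ψ x' c L (K * f.norm) hL hc hrc ((Θ (El x 1))⁻¹ * w)
    (fun j => Θ (iF ((φ ^ j) f))) ?_ ?_
  · intro j
    change Θ (iF ((φ ^ (j + 1)) f)) = _
    rw [pow_succ', MulAut.mul_apply]
    have h1 : (iF (φ ((φ ^ j) f)) : Gf ι r q) =
        (El x 1)⁻¹ * sA φ x c (iF ((φ ^ j) f)) * El x 1 := by
      rw [sA_iF]
      group
    rw [h1, map_mul, map_mul, map_inv, h]
    group
  · intro j
    change (Θ (iF ((φ ^ j) f))).norm ≤ _
    have h1 := norm_hom_le (Θ : Gf ι r q →* Gf ι r q) K hK (iF ((φ ^ j) f))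
    have h2 := norm_hom_le (iF : FreeGroup ι →* Gf ι r q) 1 (fun i => by
      rw [iF_of, FreeGroup.norm_of]) ((φ ^ j) f)
    have h3 := norm_pow_le φ L hφ f j
    calc (Θ (iF ((φ ^ j) f))).norm ≤ K * (iF ((φ ^ j) f) : Gf ι r q).norm := h1
      _ ≤ K * (L ^ j * f.norm) := Nat.mul_le_mul_left K (h2.trans (by rw [one_mul]; exact h3))
      _ = K * f.norm * L ^ j := by ring

theorem frigid [Finite ι] [Nonempty ι] (φ ψ : MulAut (FreeGroup ι)) (x x' : FreeGroup ι)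
    (c L : ℕ) (hL : 2 ≤ L) (hc : 2 * L + 1 ≤ c) (hrc : r + 1 ∣ c)
    (hφ : ∀ i, (φ (FreeGroup.of i)).norm + 2 * (1 + x.norm) ≤ L)
    (hψ : ∀ i, (ψ (FreeGroup.of i)).norm + 2 * (1 + x'.norm) ≤ L)
    (h : ∃ (Θ : MulAut (Gf ι r q)) (w : Gf ι r q),
      ∀ z, Θ (sA φ x c (Θ⁻¹ z)) = w * sA ψ x' c z * w⁻¹) :
    ∃ (χ : MulAut (FreeGroup ι)) (w : FreeGroup ι), ∀ y, χ (φ (χ⁻¹ y)) = w * ψ y * w⁻¹ := by
  obtain ⟨Θ, w, h⟩ := h
  obtain ⟨i₀⟩ := ‹Nonempty ι›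
  have hx : 2 * (1 + x.norm) ≤ L := le_trans (Nat.le_add_left _ _) (hφ i₀)
  have hx' : 2 * (1 + x'.norm) ≤ L := le_trans (Nat.le_add_left _ _) (hψ i₀)
  have h1 : ∀ z, Θ (sA φ x c z) = w * sA ψ x' c (Θ z) * w⁻¹ := by
    intro z
    have h2 := h (Θ z)
    rwa [MulAut.inv_apply_self] at h2
  have h2 : ∀ z, Θ⁻¹ (sA ψ x' c z) =
      (Θ⁻¹ w)⁻¹ * sA φ x c (Θ⁻¹ z) * ((Θ⁻¹ w)⁻¹)⁻¹ := by
    intro z
    have h3 := congrArg (fun y => Θ⁻¹ y) (h z)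
    simp only [MulAut.inv_apply_self, map_mul, map_inv] at h3
    rw [h3]
    group
  have k1 := fkill φ ψ x x' c L hL hc hψ hx' Θ w h1
  have k2 := fkill ψ φ x' x c L hL hc hφ hx Θ⁻¹ _ h2
  obtain ⟨θ, hθ⟩ := descend Θ k1 k2
  have hθi : ∀ z, pB (Θ⁻¹ z) = θ⁻¹ (pB z) := by
    intro z
    have h3 := hθ (Θ⁻¹ z)
    rw [MulAut.apply_inv_self] at h3
    rw [h3, MulAut.inv_apply_self]
  have o1 : ∀ f : FreeGroup ι, OS (θ (iS f)) := by
    intro f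
    have h3 := image_OS φ ψ x x' c L hL hc hrc (fun i => by have := hφ i; omega) Θ w h1 f
    rwa [hθ, pB_iF] at h3
  have o2 : ∀ f : FreeGroup ι, OS (θ⁻¹ (iS f)) := by
    intro f
    have h3 := image_OS ψ φ x' x c L hL hc hrc (fun i => by have := hψ i; omega) Θ⁻¹ _ h2 f
    rwa [hθi, pB_iF] at h3
  have : Nonempty ι := ⟨i₀⟩
  obtain ⟨g, hg⟩ := exists_conj θ o1
  obtain ⟨g', hg'⟩ := exists_conj θ⁻¹ o2
  choose χ₀ hχ₀ using hg
  choose χ₁ hχ₁ using hg'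
  have a0 : FreeGroup.of i₀ ≠ 1 := FreeGroup.of_ne_one i₀
  -- the composites are inner
  have e1 : ∀ f, (iS (χ₁ (χ₀ f)) : Ba ι r) =
      (θ⁻¹ g * g')⁻¹ * iS f * (θ⁻¹ g * g')⁻¹⁻¹ := by
    intro f
    rw [← hχ₁, ← hχ₀, map_mul, map_mul, map_inv, MulAut.inv_apply_self]
    group
  have e2 : ∀ f, (iS (χ₀ (χ₁ f)) : Ba ι r) =
      (θ g' * g)⁻¹ * iS f * (θ g' * g)⁻¹⁻¹ := by
    intro f
    rw [← hχ₀, ← hχ₁, map_mul, map_mul, map_inv, MulAut.apply_inv_self]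
    group
  obtain ⟨b, hb⟩ := malnormal _ _ a0 _ (e1 (FreeGroup.of i₀)).symm
  obtain ⟨b', hb'⟩ := malnormal _ _ a0 _ (e2 (FreeGroup.of i₀)).symm
  have e1' : ∀ f, χ₁ (χ₀ f) = b * f * b⁻¹ := by
    intro f
    apply iS_inj (r := r)
    rw [e1, hb, map_mul, map_mul, map_inv]
  have e2' : ∀ f, χ₀ (χ₁ f) = b' * f * b'⁻¹ := by
    intro f
    apply iS_inj (r := r)
    rw [e2, hb', map_mul, map_mul, map_inv]
  have hmul : ∀ f f', χ₀ (f * f') = χ₀ f * χ₀ f' := by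
    intro f f'
    apply iS_inj (r := r)
    rw [map_mul, ← hχ₀, ← hχ₀, ← hχ₀, map_mul, map_mul]
    group
  have hinj : Function.Injective χ₀ := by
    intro f f' hff
    have h3 := e1' f
    rw [hff, e1'] at h3
    exact (mul_left_cancel (mul_right_cancel h3)).symm
  have hsurj : Function.Surjective χ₀ := by
    intro y
    refine ⟨χ₁ (b'⁻¹ * y * b'), ?_⟩
    rw [e2']
    group
  have hone : χ₀ 1 = 1 := by
    have h3 := hmul 1 1
    rw [mul_one] at h3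
    exact left_eq_mul.1 h3
  let χm : FreeGroup ι →* FreeGroup ι := { toFun := χ₀, map_one' := hone, map_mul' := hmul }
  let χ : MulAut (FreeGroup ι) := MulEquiv.ofBijective χm ⟨hinj, hsurj⟩
  have hχ : ∀ f, χ f = χ₀ f := fun f => rfl
  -- the intertwining relation
  obtain ⟨αψ, hαψ⟩ := sA_descend (r := r) (q := q) ψ x' c
  have hαS : ∀ y, αψ (iS y) =
      pB (El x' 1 : Gf ι r q) * iS (ψ y) * (pB (El x' 1 : Gf ι r q))⁻¹ := by
    intro y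
    rw [← pB_iF (q := q), ← hαψ, sA_iF, map_mul, map_mul, map_inv, pB_iF]
  have hrel : ∀ f, (iS (χ₀ (φ f)) : Ba ι r) =
      (g⁻¹ * ((θ (pB (El x 1 : Gf ι r q)))⁻¹ * pB w * αψ g * pB (El x' 1 : Gf ι r q))) *
        iS (ψ (χ₀ f)) *
      (g⁻¹ * ((θ (pB (El x 1 : Gf ι r q)))⁻¹ * pB w * αψ g * pB (El x' 1 : Gf ι r q)))⁻¹ := by
    intro f
    have h3a : pB (Θ (sA φ x c (iF f))) = θ (pB (El x 1 : Gf ι r q)) * θ (iS (φ f)) *
        (θ (pB (El x 1 : Gf ι r q)))⁻¹ := by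
      rw [sA_iF, hθ, map_mul pB, map_mul pB, map_inv pB, pB_iF, map_mul θ, map_mul θ, map_inv θ]
    have h3b : pB (w * sA ψ x' c (Θ (iF f)) * w⁻¹) = pB w * αψ (θ (iS f)) * (pB w)⁻¹ := by
      rw [map_mul, map_mul, map_inv, hαψ, hθ, pB_iF]
    have h3 : θ (pB (El x 1 : Gf ι r q)) * θ (iS (φ f)) * (θ (pB (El x 1 : Gf ι r q)))⁻¹ =
        pB w * αψ (θ (iS f)) * (pB w)⁻¹ := by
      rw [← h3a, ← h3b, h1]
    have h4 : θ (iS f) = g * iS (χ₀ f) * g⁻¹ := by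
      rw [← hχ₀]
      group
    rw [h4, map_mul, map_mul, map_inv, hαS] at h3
    have h5 : (iS (χ₀ (φ f)) : Ba ι r) = g⁻¹ * θ (iS (φ f)) * g := (hχ₀ _).symm
    have h6 : θ (iS (φ f)) = (θ (pB (El x 1 : Gf ι r q)))⁻¹ *
        (θ (pB (El x 1 : Gf ι r q)) * θ (iS (φ f)) * (θ (pB (El x 1 : Gf ι r q)))⁻¹) *
        θ (pB (El x 1 : Gf ι r q)) := by group
    rw [h5, h6, h3]
    group
  have hne : ψ (χ₀ (FreeGroup.of i₀)) ≠ 1 := by
    intro h3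
    rw [← map_one ψ] at h3
    have h4 := ψ.injective h3
    rw [← hone] at h4
    exact a0 (hinj h4)
  obtain ⟨t, ht⟩ := malnormal _ _ hne _ (hrel (FreeGroup.of i₀)).symm
  refine ⟨χ, t, fun y => ?_⟩
  have h3 : χ₀ (φ (χ⁻¹ y)) = t * ψ (χ₀ (χ⁻¹ y)) * t⁻¹ := by
    apply iS_inj (r := r)
    rw [hrel, ht, map_mul, map_mul, map_inv]
  rw [hχ, h3, ← hχ, MulAut.apply_inv_self]

end Pool.Agent.H22.OutF
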