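import Pool.Agent.H22.OutF.Trace
import Pool.Agent.H22.OutF.Grow

/-!
MP_57eb62_al : marked extensions of an outer automorphism to a free group of larger rank.
-/

set_option autoImplicit false

namespace Pool.Agent.H22.OutF

variable {ι : Type} [DecidableEq ι] {r q : ℕ}

/-- The marker letters: `r + 1` blocks of `q + 2` letters. -/
abbrev Mk (r q : ℕ) : Type := Fin (r + 1) × Fin (q + 2)

/-- The big free group. -/
abbrev Big (ι : Type) (r q : ℕ) : Type := FreeGroup (ι ⊕ Mk r q)

/-- The inclusion of the small free group. -/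
def inl : FreeGroup ι →* Big ι r q := FreeGroup.map Sum.inl

/-- A marker letter. -/
def mkr (t : Mk r q) : Big ι r q := FreeGroup.of (Sum.inr t)

theorem inl_of (i : ι) : (inl (FreeGroup.of i) : Big ι r q) = FreeGroup.of (Sum.inl i) := by
  simp [inl]

/-- The projection that kills the marker letters. -/
def pr1 : Big ι r q →* FreeGroup ι := FreeGroup.lift (Sum.elim FreeGroup.of fun _ => 1)

theorem pr1_mkr (t : Mk r q) : pr1 (mkr t : Big ι r q) = 1 := by
  simp [pr1, mkr]

theorem pr1_inl (x : FreeGroup ι) : pr1 (inl x : Big ι r q) = x := by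
  have : (pr1 : Big ι r q →* FreeGroup ι).comp inl = MonoidHom.id _ := by
    ext i
    simp [pr1, inl]
  exact DFunLike.congr_fun this x

/-- Homomorphisms on the big group that agree on the small group and on the marker letters are
equal. -/
theorem big_ext {H : Type} [Group H] (f g : Big ι r q →* H) (h1 : ∀ x, f (inl x) = g (inl x))
    (h2 : ∀ t, f (mkr t) = g (mkr t)) (z : Big ι r q) : f z = g z := by
  have : f = g := by
    ext a
    rcases a with i | t
    · rw [← inl_of]
      exact h1 _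
    · exact h2 t
  rw [this]

/-- An automorphism from two inverse homomorphisms. -/
def mkAut {G : Type} [Group G] (f g : G →* G) (h1 : ∀ a, g (f a) = a) (h2 : ∀ a, f (g a) = a) :
    MulAut G :=
  { toFun := f, invFun := g, left_inv := h1, right_inv := h2, map_mul' := map_mul f }

theorem mkAut_apply {G : Type} [Group G] (f g : G →* G) (h1 : ∀ a, g (f a) = a)
    (h2 : ∀ a, f (g a) = a) (a : G) : mkAut f g h1 h2 a = f a := rfl

/-- The homomorphism that is `χ` on the small group and conjugates the marker letters. -/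
def cH (χ : FreeGroup ι →* FreeGroup ι) (p : Mk r q → FreeGroup ι) : Big ι r q →* Big ι r q :=
  FreeGroup.lift (Sum.elim (fun i => inl (χ (FreeGroup.of i)))
    fun t => inl (p t) * mkr t * (inl (p t))⁻¹)

theorem cH_inl (χ : FreeGroup ι →* FreeGroup ι) (p : Mk r q → FreeGroup ι) (x : FreeGroup ι) :
    cH χ p (inl x) = inl (χ x) := by
  have : ((cH χ p).comp inl : FreeGroup ι →* Big ι r q) = inl.comp χ := by
    ext i
    simp [cH, inl]
  exact DFunLike.congr_fun this x

theorem cH_mkr (χ : FreeGroup ι →* FreeGroup ι) (p : Mk r q → FreeGroup ι) (t : Mk r q) :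
    cH χ p (mkr t) = inl (p t) * mkr t * (inl (p t))⁻¹ := by
  simp [cH, mkr]

theorem cH_cH (χ χ' : FreeGroup ι →* FreeGroup ι) (p p' : Mk r q → FreeGroup ι)
    (h : ∀ x, χ' (χ x) = x) (hp : ∀ t, χ' (p t) * p' t = 1) (z : Big ι r q) :
    cH χ' p' (cH χ p z) = z := by
  refine big_ext ((cH χ' p').comp (cH χ p)) (MonoidHom.id _) ?_ ?_ z
  · intro x
    rw [MonoidHom.comp_apply, cH_inl, cH_inl, h]
    rfl
  · intro t
    rw [MonoidHom.comp_apply, cH_mkr, map_mul, map_mul, map_inv, cH_inl, cH_mkr,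
      MonoidHom.id_apply]
    have h1 : (inl (χ' (p t)) : Big ι r q) * inl (p' t) = 1 := by
      rw [← map_mul, hp, map_one]
    calc inl (χ' (p t)) * (inl (p' t) * mkr t * (inl (p' t))⁻¹) * (inl (χ' (p t)))⁻¹
        = (inl (χ' (p t)) * inl (p' t)) * mkr t * (inl (χ' (p t)) * inl (p' t))⁻¹ := by group
      _ = mkr t := by rw [h1]; group

/-- The permutation of the marker letters. -/
def mperm (r q : ℕ) : Equiv.Perm (Mk r q) where
  toFun t := (t.1 + 1, if t.1 + 1 = 0 then t.2 + 1 else t.2)
  invFun t := (t.1 - 1, if t.1 = 0 then t.2 - 1 else t.2)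
  left_inv t := by
    ext1
    · simp
    · by_cases h : t.1 + 1 = 0 <;> simp [h]
  right_inv t := by
    ext1
    · simp
    · by_cases h : t.1 = 0 <;> simp [h]

/-- The homomorphism that is `χ` on the small group and permutes the marker letters. -/
def mH (χ : FreeGroup ι →* FreeGroup ι) (σ : Mk r q → Mk r q) : Big ι r q →* Big ι r q :=
  FreeGroup.lift (Sum.elim (fun i => inl (χ (FreeGroup.of i))) fun t => mkr (σ t))

theorem mH_inl (χ : FreeGroup ι →* FreeGroup ι) (σ : Mk r q → Mk r q) (x : FreeGroup ι) :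
    mH χ σ (inl x) = inl (χ x) := by
  have : ((mH χ σ).comp inl : FreeGroup ι →* Big ι r q) = inl.comp χ := by
    ext i
    simp [mH, inl]
  exact DFunLike.congr_fun this x

theorem mH_mkr (χ : FreeGroup ι →* FreeGroup ι) (σ : Mk r q → Mk r q) (t : Mk r q) :
    mH χ σ (mkr t) = mkr (σ t) := by
  simp [mH, mkr]

theorem mH_mH (χ χ' : FreeGroup ι →* FreeGroup ι) (σ σ' : Mk r q → Mk r q)
    (h : ∀ x, χ' (χ x) = x) (hσ : ∀ t, σ' (σ t) = t) (z : Big ι r q) :
    mH χ' σ' (mH χ σ z) = z := by
  refine big_ext ((mH χ' σ').comp (mH χ σ)) (MonoidHom.id _) ?_ ?_ z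
  · intro x
    rw [MonoidHom.comp_apply, mH_inl, mH_inl, h]
    rfl
  · intro t
    rw [MonoidHom.comp_apply, mH_mkr, mH_mkr, hσ]
    rfl

/-- The homomorphism that multiplies the second letter of the first block by a power of the
first letter. -/
def eH (c : ℤ) : Big ι r q →* Big ι r q :=
  FreeGroup.lift (Sum.elim (fun i => inl (FreeGroup.of i)) fun t =>
    if t.1 = 0 ∧ t.2 = 1 then mkr (0, 0) ^ c * mkr (0, 1) else mkr t)

theorem eH_inl (c : ℤ) (x : FreeGroup ι) : (eH c (inl x) : Big ι r q) = inl x := by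
  have : ((eH c).comp inl : FreeGroup ι →* Big ι r q) = inl := by
    ext i
    simp [eH, inl]
  exact DFunLike.congr_fun this x

theorem eH_mkr (c : ℤ) (t : Mk r q) : (eH c (mkr t) : Big ι r q) =
    if t.1 = 0 ∧ t.2 = 1 then mkr (0, 0) ^ c * mkr (0, 1) else mkr t := by
  simp [eH, mkr]

theorem eH_eH (c c' : ℤ) (h : c' + c = 0) (z : Big ι r q) : eH c' (eH c z) = z := by
  have h01 : ¬ ((0 : Fin (q + 2)) = 1) := by
    intro h1
    have := congrArg Fin.val h1
    simp at this
  refine big_ext ((eH c').comp (eH c)) (MonoidHom.id _) ?_ ?_ z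
  · intro x
    rw [MonoidHom.comp_apply, eH_inl, eH_inl]
    rfl
  · intro t
    rw [MonoidHom.comp_apply, MonoidHom.id_apply, eH_mkr]
    split_ifs with ht
    · have h2 : c + c' = 0 := by omega
      rw [map_mul, map_zpow, eH_mkr, eH_mkr, if_neg (by simp), if_pos (by simp), ← mul_assoc,
        ← zpow_add, h2, zpow_zero, one_mul]
      congr 1
      exact Prod.ext ht.1.symm ht.2.symm
    · rw [eH_mkr, if_neg ht]

/-- The marked extension of `φ`. -/
def gT (φ : MulAut (FreeGroup ι)) (x : FreeGroup ι) (c : ℕ) : MulAut (Big ι r q) :=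
  mkAut (cH (MonoidHom.id _) fun t => if t.1 = 0 then x else 1)
      (cH (MonoidHom.id _) fun t => if t.1 = 0 then x⁻¹ else 1)
      (cH_cH _ _ _ _ (fun _ => rfl) fun t => by
        simp only [MonoidHom.id_apply]; split_ifs <;> simp)
      (cH_cH _ _ _ _ (fun _ => rfl) fun t => by
        simp only [MonoidHom.id_apply]; split_ifs <;> simp) *
    (mkAut (eH c) (eH (-c)) (eH_eH _ _ (by simp)) (eH_eH _ _ (by simp)) *
      mkAut (mH (φ : FreeGroup ι →* FreeGroup ι) (mperm r q))
        (mH ((φ⁻¹ : MulAut (FreeGroup ι)) : FreeGroup ι →* FreeGroup ι) (mperm r q).symm)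
        (mH_mH _ _ _ _ (fun x => φ.symm_apply_apply x) (mperm r q).symm_apply_apply)
        (mH_mH _ _ _ _ (fun x => φ.apply_symm_apply x) (mperm r q).apply_symm_apply))

theorem gT_inl (φ : MulAut (FreeGroup ι)) (x : FreeGroup ι) (c : ℕ) (y : FreeGroup ι) :
    (gT φ x c : MulAut (Big ι r q)) (inl y) = inl (φ y) := by
  unfold gT
  rw [MulAut.mul_apply, MulAut.mul_apply, mkAut_apply, mkAut_apply, mkAut_apply, mH_inl, eH_inl,
    cH_inl]
  rfl

/-- The value of the marker automorphism on the letters of the first block. -/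
def wrd (c : ℕ) (s : Fin (q + 2)) : Big ι r q :=
  if s = 1 then mkr (0, 0) ^ c * mkr (0, 1) else mkr (0, s)

theorem gT_mkr (φ : MulAut (FreeGroup ι)) (x : FreeGroup ι) (c : ℕ) (t : Mk r q) :
    (gT φ x c : MulAut (Big ι r q)) (mkr t) =
      if t.1 + 1 = 0 then inl x * wrd c (t.2 + 1) * (inl x)⁻¹ else mkr (t.1 + 1, t.2) := by
  unfold gT
  rw [MulAut.mul_apply, MulAut.mul_apply, mkAut_apply, mkAut_apply, mkAut_apply, mH_mkr, eH_mkr]
  have h1 : mperm r q t = (t.1 + 1, if t.1 + 1 = 0 then t.2 + 1 else t.2) := rfl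
  rw [h1]
  by_cases h : t.1 + 1 = 0
  · simp only [h, if_true, true_and]
    unfold wrd
    split_ifs with h2
    · rw [map_mul, map_zpow, cH_mkr, cH_mkr]
      simp only [if_true, zpow_natCast]
      have h3 : ∀ (a b : Big ι r q) (n : ℕ), (a * b * a⁻¹) ^ n = a * b ^ n * a⁻¹ := by
        intro a b n
        exact conj_pow
      rw [h3]
      group
    · rw [cH_mkr]
      simp only [if_true]
  · simp only [h, if_false, false_and]
    rw [cH_mkr]
    simp only [h, if_false, map_one, one_mul, inv_one, mul_one]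

end Pool.Agent.H22.OutF
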