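import Pool.Agent.H22.OutF.Serre
import Pool.Agent.H22.OutF.Gadget

/-!
MP_57eb62_al : the flexible gadget: a free-by-cyclic group amalgamated with a fixed one along a
cyclic group.
-/

set_option autoImplicit false

namespace Pool.Agent.H22.OutF

variable {ι : Type} [DecidableEq ι] {r q : ℕ}

/-- The big free group: small letters, `r` extra letters, `q + 2` marker letters. -/
abbrev Gf (ι : Type) (r q : ℕ) : Type := FreeGroup ((ι ⊕ Fin r) ⊕ Fin (q + 2))

/-- The inclusion of the small group. -/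
def iF : FreeGroup ι →* Gf ι r q := FreeGroup.map fun i => Sum.inl (Sum.inl i)

/-- The inclusion of the group of the marker letters. -/
def iB : FreeGroup (Fin (q + 2)) →* Gf ι r q := FreeGroup.map Sum.inr

/-- The extra letters. -/
def el (j : Fin r) : Gf ι r q := FreeGroup.of (Sum.inl (Sum.inr j))

omit [DecidableEq ι] in
theorem iF_of (i : ι) : (iF (FreeGroup.of i) : Gf ι r q) =
    FreeGroup.of (Sum.inl (Sum.inl i)) := by
  simp [iF]

omit [DecidableEq ι] in
theorem iB_of (s : Fin (q + 2)) : (iB (FreeGroup.of s) : Gf ι r q) =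
    FreeGroup.of (Sum.inr s) := by
  simp [iB]

omit [DecidableEq ι] in
/-- Homomorphisms that agree on the three kinds of letters are equal. -/
theorem gf_ext {H : Type} [Group H] (f g : Gf ι r q →* H) (h1 : ∀ x, f (iF x) = g (iF x))
    (h2 : ∀ j, f (el j) = g (el j)) (h3 : ∀ x, f (iB x) = g (iB x)) (z : Gf ι r q) :
    f z = g z := by
  have : f = g := by
    ext a
    rcases a with (i | j) | s
    · rw [← iF_of]
      exact h1 _
    · exact h2 j
    · rw [← iB_of]
      exact h3 _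
  rw [this]

/-- The marker automorphism of the marker letters. -/
def bH (q c : ℕ) : FreeGroup (Fin (q + 2)) →* FreeGroup (Fin (q + 2)) :=
  FreeGroup.lift fun s =>
    if s = 0 then FreeGroup.of 0 ^ c * FreeGroup.of 1 else FreeGroup.of (s + 1)

/-- Its inverse. -/
def bI (q c : ℕ) : FreeGroup (Fin (q + 2)) →* FreeGroup (Fin (q + 2)) :=
  FreeGroup.lift fun s =>
    if s = 1 then (FreeGroup.of (-1) ^ c)⁻¹ * FreeGroup.of 0 else FreeGroup.of (s - 1)

theorem bH_of (c : ℕ) (s : Fin (q + 2)) : bH q c (FreeGroup.of s) =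
    if s = 0 then FreeGroup.of 0 ^ c * FreeGroup.of 1 else FreeGroup.of (s + 1) := by
  rw [bH, FreeGroup.lift_apply_of]

theorem bI_of (c : ℕ) (s : Fin (q + 2)) : bI q c (FreeGroup.of s) =
    if s = 1 then (FreeGroup.of (-1) ^ c)⁻¹ * FreeGroup.of 0 else FreeGroup.of (s - 1) := by
  rw [bI, FreeGroup.lift_apply_of]

theorem f01 : ¬ ((0 : Fin (q + 2)) = 1) := by
  intro h1
  have := congrArg Fin.val h1
  simp at this

theorem fm10 : ¬ ((-1 : Fin (q + 2)) = 0) := by
  intro h1
  rw [neg_eq_zero] at h1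
  exact f01 h1.symm

theorem bI_bH (c : ℕ) (x : FreeGroup (Fin (q + 2))) : bI q c (bH q c x) = x := by
  have : (bI q c).comp (bH q c) = MonoidHom.id _ := by
    ext s
    rw [MonoidHom.comp_apply, MonoidHom.id_apply, bH_of]
    split_ifs with h
    · rw [map_mul, map_pow, bI_of, bI_of, if_neg f01, if_pos rfl, h, zero_sub]
      group
    · rw [bI_of, if_neg, add_sub_cancel_right]
      intro h1
      apply h
      have h2 : s + 1 = 0 + 1 := by rw [h1, zero_add]
      exact add_right_cancel h2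
  exact DFunLike.congr_fun this x

theorem bH_bI (c : ℕ) (x : FreeGroup (Fin (q + 2))) : bH q c (bI q c x) = x := by
  have : (bH q c).comp (bI q c) = MonoidHom.id _ := by
    ext s
    rw [MonoidHom.comp_apply, MonoidHom.id_apply, bI_of]
    split_ifs with h
    · rw [map_mul, map_inv, map_pow, bH_of, bH_of, if_neg fm10, if_pos rfl, neg_add_cancel, h]
      group
    · rw [bH_of, if_neg, sub_add_cancel]
      intro h1
      apply h
      exact sub_eq_zero.1 h1
  exact DFunLike.congr_fun this x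

/-- The elements `e_j`, with `e_0 = 1` and `e_(r+1)` given by the amalgamation. -/
def El (x : FreeGroup ι) (j : ℕ) : Gf ι r q :=
  if j = 0 then 1 else if h : j - 1 < r then el ⟨j - 1, h⟩ else
    (iB (FreeGroup.of 0))⁻¹ * (iF x)⁻¹

omit [DecidableEq ι] in
theorem El_zero (x : FreeGroup ι) : (El x 0 : Gf ι r q) = 1 := by
  simp [El]

omit [DecidableEq ι] in
theorem El_succ (x : FreeGroup ι) (j : Fin r) : (El x ((j : ℕ) + 1) : Gf ι r q) = el j := by
  have h : (j : ℕ) + 1 - 1 < r := by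
    have := j.2
    omega
  unfold El
  rw [if_neg (by omega), dif_pos h]
  congr 1

omit [DecidableEq ι] in
theorem El_last (x : FreeGroup ι) :
    (El x (r + 1) : Gf ι r q) = (iB (FreeGroup.of 0))⁻¹ * (iF x)⁻¹ := by
  unfold El
  rw [if_neg (by omega), dif_neg (by omega)]

/-- The homomorphism of the gadget. -/
def sH (φ : FreeGroup ι →* FreeGroup ι) (x : FreeGroup ι) (c : ℕ) : Gf ι r q →* Gf ι r q :=
  FreeGroup.lift (Sum.elim (Sum.elim
    (fun i => El x 1 * iF (φ (FreeGroup.of i)) * (El x 1)⁻¹)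
    (fun j : Fin r => El x ((j : ℕ) + 2) * (El x 1)⁻¹))
    (fun s => iB (bH q c (FreeGroup.of s))))

omit [DecidableEq ι] in
theorem sH_iF (φ : FreeGroup ι →* FreeGroup ι) (x : FreeGroup ι) (c : ℕ) (y : FreeGroup ι) :
    (sH φ x c (iF y) : Gf ι r q) = El x 1 * iF (φ y) * (El x 1)⁻¹ := by
  have : ((sH φ x c).comp iF : FreeGroup ι →* Gf ι r q) =
      (MulAut.conj (El x 1 : Gf ι r q) : Gf ι r q →* Gf ι r q).comp (iF.comp φ) := by
    ext i
    rw [MonoidHom.comp_apply, iF_of, sH, FreeGroup.lift_apply_of]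
    rfl
  exact DFunLike.congr_fun this y

omit [DecidableEq ι] in
theorem sH_iB (φ : FreeGroup ι →* FreeGroup ι) (x : FreeGroup ι) (c : ℕ)
    (y : FreeGroup (Fin (q + 2))) : (sH φ x c (iB y) : Gf ι r q) = iB (bH q c y) := by
  have : ((sH φ x c).comp iB : FreeGroup (Fin (q + 2)) →* Gf ι r q) = iB.comp (bH q c) := by
    ext s
    rw [MonoidHom.comp_apply, iB_of, sH, FreeGroup.lift_apply_of]
    rfl
  exact DFunLike.congr_fun this y

omit [DecidableEq ι] in
theorem sH_El (φ : FreeGroup ι →* FreeGroup ι) (x : FreeGroup ι) (c : ℕ) (j : ℕ) (hj : j ≤ r) :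
    (sH φ x c (El x j) : Gf ι r q) = El x (j + 1) * (El x 1)⁻¹ := by
  rcases j with _ | j
  · rw [El_zero, map_one, zero_add, mul_inv_cancel]
  · have h1 := El_succ (q := q) x (⟨j, hj⟩ : Fin r)
    simp only at h1
    rw [h1, el, sH, FreeGroup.lift_apply_of]
    rfl

/-- The element that conjugates back. -/
def ep (φi : FreeGroup ι →* FreeGroup ι) (x : FreeGroup ι) (c : ℕ) : Gf ι r q :=
  (iF (φi x))⁻¹ * (El x r)⁻¹ * (iB (bI q c (FreeGroup.of 0)))⁻¹

/-- The inverse homomorphism of the gadget. -/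
def sI (φi : FreeGroup ι →* FreeGroup ι) (x : FreeGroup ι) (c : ℕ) : Gf ι r q →* Gf ι r q :=
  FreeGroup.lift (Sum.elim (Sum.elim
    (fun i => (ep φi x c)⁻¹ * iF (φi (FreeGroup.of i)) * ep φi x c)
    (fun j : Fin r => El x (j : ℕ) * ep φi x c))
    (fun s => iB (bI q c (FreeGroup.of s))))

omit [DecidableEq ι] in
theorem sI_iF (φi : FreeGroup ι →* FreeGroup ι) (x : FreeGroup ι) (c : ℕ) (y : FreeGroup ι) :
    (sI φi x c (iF y) : Gf ι r q) = (ep φi x c)⁻¹ * iF (φi y) * ep φi x c := by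
  have : ((sI φi x c).comp iF : FreeGroup ι →* Gf ι r q) =
      (MulAut.conj (ep φi x c : Gf ι r q)⁻¹ : Gf ι r q →* Gf ι r q).comp (iF.comp φi) := by
    ext i
    rw [MonoidHom.comp_apply, iF_of, sI, FreeGroup.lift_apply_of]
    change _ = (ep φi x c)⁻¹ * iF (φi (FreeGroup.of i)) * (ep φi x c)⁻¹⁻¹
    rw [inv_inv]
    rfl
  have h1 := DFunLike.congr_fun this y
  change sI φi x c (iF y) = (ep φi x c)⁻¹ * iF (φi y) * (ep φi x c)⁻¹⁻¹ at h1
  rw [h1, inv_inv]

omit [DecidableEq ι] in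
theorem sI_iB (φi : FreeGroup ι →* FreeGroup ι) (x : FreeGroup ι) (c : ℕ)
    (y : FreeGroup (Fin (q + 2))) : (sI φi x c (iB y) : Gf ι r q) = iB (bI q c y) := by
  have : ((sI φi x c).comp iB : FreeGroup (Fin (q + 2)) →* Gf ι r q) = iB.comp (bI q c) := by
    ext s
    rw [MonoidHom.comp_apply, iB_of, sI, FreeGroup.lift_apply_of]
    rfl
  exact DFunLike.congr_fun this y

omit [DecidableEq ι] in
theorem sI_El (φi : FreeGroup ι →* FreeGroup ι) (x : FreeGroup ι) (c : ℕ) (j : ℕ)
    (hj : j ≤ r) : (sI φi x c (El x (j + 1)) : Gf ι r q) = El x j * ep φi x c := by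
  rcases Nat.lt_or_ge j r with h | h
  · have h1 := El_succ (q := q) x (⟨j, h⟩ : Fin r)
    simp only at h1
    rw [h1, el, sI, FreeGroup.lift_apply_of]
    rfl
  · have h1 : j = r := le_antisymm hj h
    subst h1
    rw [El_last, map_mul, map_inv, map_inv, sI_iB, sI_iF]
    unfold ep
    group

omit [DecidableEq ι] in
theorem sH_ep (φ φi : FreeGroup ι →* FreeGroup ι) (h2 : ∀ y, φ (φi y) = y) (x : FreeGroup ι)
    (c : ℕ) : (sH φ x c (ep φi x c) : Gf ι r q) = El x 1 := by
  unfold ep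
  rw [map_mul, map_mul, map_inv, map_inv, map_inv, sH_iF, sH_El _ _ _ r le_rfl, sH_iB, bH_bI, h2,
    El_last]
  group

omit [DecidableEq ι] in
theorem sI_sH (φ φi : FreeGroup ι →* FreeGroup ι) (h1 : ∀ y, φi (φ y) = y) (x : FreeGroup ι)
    (c : ℕ) (z : Gf ι r q) : sI φi x c (sH φ x c z) = z := by
  have h0 : (sI φi x c (El x 1) : Gf ι r q) = ep φi x c := by
    have := sI_El (q := q) φi x c 0 (Nat.zero_le r)
    rw [this, El_zero, one_mul]
  refine gf_ext ((sI φi x c).comp (sH φ x c)) (MonoidHom.id _) ?_ ?_ ?_ z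
  · intro y
    rw [MonoidHom.comp_apply, sH_iF, map_mul, map_mul, map_inv, h0, sI_iF, h1,
      MonoidHom.id_apply]
    group
  · intro j
    have h3 := El_succ (q := q) x j
    rw [MonoidHom.comp_apply, ← h3, sH_El _ _ _ _ j.2, map_mul, map_inv, h0,
      sI_El _ _ _ _ j.2, MonoidHom.id_apply]
    group
  · intro y
    rw [MonoidHom.comp_apply, sH_iB, sI_iB, bI_bH, MonoidHom.id_apply]

omit [DecidableEq ι] in
theorem sH_sI (φ φi : FreeGroup ι →* FreeGroup ι) (h2 : ∀ y, φ (φi y) = y) (x : FreeGroup ι)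
    (c : ℕ) (z : Gf ι r q) : sH φ x c (sI φi x c z) = z := by
  refine gf_ext ((sH φ x c).comp (sI φi x c)) (MonoidHom.id _) ?_ ?_ ?_ z
  · intro y
    rw [MonoidHom.comp_apply, sI_iF, map_mul, map_mul, map_inv, sH_ep φ φi h2, sH_iF, h2,
      MonoidHom.id_apply]
    group
  · intro j
    have h3 := El_succ (q := q) x j
    rw [MonoidHom.comp_apply, ← h3, sI_El _ _ _ _ j.2.le, map_mul, sH_ep φ φi h2,
      sH_El _ _ _ _ j.2.le, MonoidHom.id_apply]
    group
  · intro y
    rw [MonoidHom.comp_apply, sI_iB, sH_iB, bH_bI, MonoidHom.id_apply]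

/-- The automorphism of the gadget. -/
def sA (φ : MulAut (FreeGroup ι)) (x : FreeGroup ι) (c : ℕ) : MulAut (Gf ι r q) :=
  mkAut (sH (φ : FreeGroup ι →* FreeGroup ι) x c)
    (sI ((φ⁻¹ : MulAut (FreeGroup ι)) : FreeGroup ι →* FreeGroup ι) x c)
    (sI_sH _ _ (fun y => φ.symm_apply_apply y) x c)
    (sH_sI _ _ (fun y => φ.apply_symm_apply y) x c)

omit [DecidableEq ι] in
theorem sA_iF (φ : MulAut (FreeGroup ι)) (x : FreeGroup ι) (c : ℕ) (y : FreeGroup ι) :
    (sA φ x c : MulAut (Gf ι r q)) (iF y) = El x 1 * iF (φ y) * (El x 1)⁻¹ := sH_iF _ x c y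

omit [DecidableEq ι] in
theorem sA_iB (φ : MulAut (FreeGroup ι)) (x : FreeGroup ι) (c : ℕ)
    (y : FreeGroup (Fin (q + 2))) :
    (sA φ x c : MulAut (Gf ι r q)) (iB y) = iB (bH q c y) := sH_iB _ x c y

omit [DecidableEq ι] in
theorem sA_El (φ : MulAut (FreeGroup ι)) (x : FreeGroup ι) (c : ℕ) (j : ℕ) (hj : j ≤ r) :
    (sA φ x c : MulAut (Gf ι r q)) (El x j) = El x (j + 1) * (El x 1)⁻¹ := sH_El _ x c j hj

omit [DecidableEq ι] in
theorem sA_symm_iB (φ : MulAut (FreeGroup ι)) (x : FreeGroup ι) (c : ℕ)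
    (y : FreeGroup (Fin (q + 2))) :
    (sA φ x c : MulAut (Gf ι r q))⁻¹ (iB y) = iB (bI q c y) := sI_iB _ x c y

/-- The projection that kills the marker letters. -/
def pB : Gf ι r q →* Ba ι r := FreeGroup.lift (Sum.elim FreeGroup.of fun _ => 1)

/-- The section of the projection. -/
def sB : Ba ι r →* Gf ι r q := FreeGroup.map Sum.inl

omit [DecidableEq ι] in
theorem pB_sB (g : Ba ι r) : pB (sB g : Gf ι r q) = g := by
  have : (pB : Gf ι r q →* Ba ι r).comp sB = MonoidHom.id _ := by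
    ext a
    simp [pB, sB]
  exact DFunLike.congr_fun this g

omit [DecidableEq ι] in
theorem pB_iB (y : FreeGroup (Fin (q + 2))) : pB (iB y : Gf ι r q) = 1 := by
  have : (pB : Gf ι r q →* Ba ι r).comp iB = 1 := by
    ext s
    simp [pB, iB]
  exact DFunLike.congr_fun this y

omit [DecidableEq ι] in
theorem pB_iF (y : FreeGroup ι) : pB (iF y : Gf ι r q) = iS y := by
  have : (pB : Gf ι r q →* Ba ι r).comp iF = iS := by
    ext i
    simp [pB, iF, iS]
  exact DFunLike.congr_fun this y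

omit [DecidableEq ι] in
theorem pB_el (j : Fin r) : pB (el j : Gf ι r q) = FreeGroup.of (Sum.inr j) := by
  simp [pB, el]

omit [DecidableEq ι] in
/-- An automorphism that preserves the kernel of the projection descends. -/
theorem descend (α : MulAut (Gf ι r q)) (h1 : ∀ s, pB (α (iB (FreeGroup.of s))) = 1)
    (h2 : ∀ s, pB (α⁻¹ (iB (FreeGroup.of s))) = 1) :
    ∃ αb : MulAut (Ba ι r), ∀ z, pB (α z) = αb (pB z) := by
  have key : ∀ (α : MulAut (Gf ι r q)), (∀ s, pB (α (iB (FreeGroup.of s))) = 1) →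
      ∀ z, pB (α z) = pB (α (sB (pB z))) := by
    intro α h z
    have h3 : (pB : Gf ι r q →* Ba ι r).comp (α : Gf ι r q →* Gf ι r q) =
        ((pB : Gf ι r q →* Ba ι r).comp (α : Gf ι r q →* Gf ι r q)).comp (sB.comp pB) := by
      ext a
      rcases a with a | s
      · have h4 : pB (FreeGroup.of (Sum.inl a) : Gf ι r q) = FreeGroup.of a := by simp [pB]
        have h5 : (sB (FreeGroup.of a) : Gf ι r q) = FreeGroup.of (Sum.inl a) := by simp [sB]
        change pB (α (FreeGroup.of (Sum.inl a))) =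
          pB (α (sB (pB (FreeGroup.of (Sum.inl a) : Gf ι r q))))
        rw [h4, h5]
      · have h4 := h s
        change pB (α (FreeGroup.of (Sum.inr s))) =
          pB (α (sB (pB (FreeGroup.of (Sum.inr s) : Gf ι r q))))
        rw [← iB_of, h4, pB_iB, map_one, map_one, map_one]
    exact DFunLike.congr_fun h3 z
  refine ⟨mkAut ((pB : Gf ι r q →* Ba ι r).comp ((α : Gf ι r q →* Gf ι r q).comp sB))
    ((pB : Gf ι r q →* Ba ι r).comp
      (((α⁻¹ : MulAut (Gf ι r q)) : Gf ι r q →* Gf ι r q).comp sB)) ?_ ?_, ?_⟩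
  · intro g
    change pB (α⁻¹ (sB (pB (α (sB g))))) = g
    rw [← key α⁻¹ h2, MulAut.inv_apply_self, pB_sB]
  · intro g
    change pB (α (sB (pB (α⁻¹ (sB g))))) = g
    rw [← key α h1, MulAut.apply_inv_self, pB_sB]
  · intro z
    exact key α h1 z

end Pool.Agent.H22.OutF
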