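import Mathlib

/-!
MP_57eb62_al : Fox derivatives and the invariance of the Reidemeister trace.
-/

set_option autoImplicit false

namespace Pool.Agent.H22.OutF

open Finset

variable {ι : Type} [DecidableEq ι]

/-- The integral group ring of the free group. -/
abbrev ZF (ι : Type) : Type := MonoidAlgebra ℤ (FreeGroup ι)

/-- The embedding of the free group in its group ring. -/
noncomputable def em : FreeGroup ι →* ZF ι := MonoidAlgebra.of ℤ (FreeGroup ι)

theorem em_mul_inv (x : FreeGroup ι) : (em x : ZF ι) * em x⁻¹ = 1 := by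
  rw [← map_mul, mul_inv_cancel, map_one]

theorem em_inv_mul (x : FreeGroup ι) : (em x⁻¹ : ZF ι) * em x = 1 := by
  rw [← map_mul, inv_mul_cancel, map_one]

/-- The affine action on the group ring that defines the Fox derivative. -/
noncomputable def aff (i : ι) : FreeGroup ι →* Equiv.Perm (ZF ι) :=
  FreeGroup.lift fun j =>
    { toFun := fun r => em (FreeGroup.of j) * r + (if i = j then 1 else 0)
      invFun := fun r => em (FreeGroup.of j)⁻¹ * (r - (if i = j then 1 else 0))
      left_inv := fun r => by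
        simp only [add_sub_cancel_right]
        rw [← mul_assoc, em_inv_mul, one_mul]
      right_inv := fun r => by
        simp only
        rw [← mul_assoc, em_mul_inv, one_mul, sub_add_cancel] }

/-- The Fox derivative. -/
noncomputable def fox (i : ι) (x : FreeGroup ι) : ZF ι := aff i x 0

theorem aff_of (i j : ι) (r : ZF ι) :
    aff i (FreeGroup.of j) r = em (FreeGroup.of j) * r + (if i = j then 1 else 0) := by
  rw [aff, FreeGroup.lift_apply_of]
  rfl

theorem aff_of_inv (i j : ι) (r : ZF ι) :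
    aff i (FreeGroup.of j)⁻¹ r =
      em (FreeGroup.of j)⁻¹ * (r - (if i = j then 1 else 0)) := by
  rw [map_inv, aff, FreeGroup.lift_apply_of]
  rfl

theorem aff_apply (i : ι) (x : FreeGroup ι) (r : ZF ι) : aff i x r = em x * r + fox i x := by
  unfold fox
  induction x using FreeGroup.induction_on generalizing r with
  | C1 => rw [map_one, map_one, one_mul]; simp
  | of j => rw [aff_of, aff_of, mul_zero, zero_add]
  | inv_of j _ => rw [aff_of_inv, aff_of_inv, mul_sub, mul_sub]; simp; abel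
  | mul x y hx hy =>
    rw [map_mul, Equiv.Perm.mul_apply, Equiv.Perm.mul_apply, hx, hy, hx (aff i y 0), map_mul]
    rw [mul_add, mul_assoc, add_assoc]

theorem fox_mul (i : ι) (x y : FreeGroup ι) :
    fox i (x * y) = fox i x + em x * fox i y := by
  unfold fox
  rw [map_mul, Equiv.Perm.mul_apply, aff_apply i x]
  unfold fox
  rw [add_comm]

theorem fox_one (i : ι) : fox i (1 : FreeGroup ι) = 0 := by
  unfold fox
  rw [map_one]
  rfl

theorem fox_of (i j : ι) : fox i (FreeGroup.of j) = if i = j then 1 else 0 := by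
  unfold fox
  rw [aff_of, mul_zero, zero_add]

theorem fox_inv (i : ι) (x : FreeGroup ι) : fox i x⁻¹ = -(em x⁻¹ * fox i x) := by
  have h := fox_mul i x⁻¹ x
  rw [inv_mul_cancel, fox_one] at h
  exact eq_neg_of_add_eq_zero_left h.symm

/-- Two crossed homomorphisms that agree on the generators are equal. -/
theorem crossed_ext (Φ : FreeGroup ι →* FreeGroup ι) (u v : FreeGroup ι → ZF ι)
    (hu : ∀ x y, u (x * y) = u x + em (Φ x) * u y)
    (hv : ∀ x y, v (x * y) = v x + em (Φ x) * v y)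
    (h : ∀ j, u (FreeGroup.of j) = v (FreeGroup.of j)) (x : FreeGroup ι) : u x = v x := by
  have h1 : ∀ w : FreeGroup ι → ZF ι, (∀ x y, w (x * y) = w x + em (Φ x) * w y) →
      w 1 = 0 := by
    intro w hw
    have h2 := hw 1 1
    rw [one_mul, map_one, map_one, one_mul] at h2
    exact left_eq_add.1 h2
  have h2 : ∀ w : FreeGroup ι → ZF ι, (∀ x y, w (x * y) = w x + em (Φ x) * w y) →
      ∀ x, w x⁻¹ = -(em (Φ x⁻¹) * w x) := by
    intro w hw x
    have h3 := hw x⁻¹ x
    rw [inv_mul_cancel, h1 w hw] at h3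
    exact eq_neg_of_add_eq_zero_left h3.symm
  induction x using FreeGroup.induction_on with
  | C1 => rw [h1 u hu, h1 v hv]
  | of j => exact h j
  | inv_of j hj => rw [h2 u hu, h2 v hv, hj]
  | mul x y hx hy => rw [hu, hv, hx, hy]

/-- The extension of a homomorphism to the group rings. -/
noncomputable def rh (Φ : FreeGroup ι →* FreeGroup ι) : ZF ι →+* ZF ι :=
  MonoidAlgebra.mapDomainRingHom ℤ Φ

theorem rh_em (Φ : FreeGroup ι →* FreeGroup ι) (x : FreeGroup ι) :
    rh Φ (em x) = em (Φ x) := by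
  simp [rh, em, MonoidAlgebra.of_apply, MonoidAlgebra.mapDomain_single]

/-- Additive maps on the group ring that agree on group elements are equal. -/
theorem add_ext {A : Type} [AddCommGroup A] (u v : ZF ι →+ A) (h : ∀ x, u (em x) = v (em x))
    (r : ZF ι) : u r = v r := by
  have : u = v := by
    apply MonoidAlgebra.addMonoidHom_ext
    intro x n
    have h1 : (MonoidAlgebra.single x n : ZF ι) = n • em x := by
      simp [em, MonoidAlgebra.of_apply]
    rw [h1, map_zsmul, map_zsmul, h]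
  rw [this]

theorem rh_rh (Φ Ψ : FreeGroup ι →* FreeGroup ι) (h : ∀ x, Φ (Ψ x) = x) (r : ZF ι) :
    rh Φ (rh Ψ r) = r := by
  have := add_ext ((rh Φ).toAddMonoidHom.comp (rh Ψ).toAddMonoidHom)
    (AddMonoidHom.id (ZF ι)) (fun x => by
      change rh Φ (rh Ψ (em x)) = em x
      rw [rh_em, rh_em, h]) r
  exact this

/-- The linear extension of a function on the group. -/
noncomputable def ev (κ : FreeGroup ι → ℤ) : ZF ι →+ ℤ :=
  MonoidAlgebra.liftNC (AddMonoidHom.id ℤ) κ

theorem ev_em (κ : FreeGroup ι → ℤ) (x : FreeGroup ι) : ev κ (em x) = κ x := by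
  simp [ev, em, MonoidAlgebra.of_apply]

theorem ev_trans (κ : FreeGroup ι → ℤ) (Θ : FreeGroup ι →* FreeGroup ι) (g : FreeGroup ι)
    (r : ZF ι) : ev (fun x => κ (g * Θ x)) r = ev κ (em g * rh Θ r) := by
  refine add_ext (ev fun x => κ (g * Θ x))
    ((ev κ).comp ((AddMonoidHom.mulLeft (em g)).comp (rh Θ).toAddMonoidHom)) (fun x => ?_) r
  change ev (fun x => κ (g * Θ x)) (em x) = ev κ (em g * rh Θ (em x))
  rw [ev_em, rh_em, ← map_mul, ev_em]

theorem ev_cyc (κ : FreeGroup ι → ℤ) (Ψ : FreeGroup ι →* FreeGroup ι)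
    (hκ : ∀ p x, κ (Ψ p * x * p⁻¹) = κ x) (r s : ZF ι) :
    ev κ (rh Ψ r * s) = ev κ (s * r) := by
  refine add_ext ((ev κ).comp ((AddMonoidHom.mulRight s).comp (rh Ψ).toAddMonoidHom))
    ((ev κ).comp (AddMonoidHom.mulLeft s)) (fun x => ?_) r
  change ev κ (rh Ψ (em x) * s) = ev κ (s * em x)
  rw [rh_em]
  refine add_ext ((ev κ).comp (AddMonoidHom.mulLeft (em (Ψ x))))
    ((ev κ).comp (AddMonoidHom.mulRight (em x))) (fun y => ?_) s
  change ev κ (em (Ψ x) * em y) = ev κ (em y * em x)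
  rw [← map_mul, ← map_mul, ev_em, ev_em, ← hκ x (y * x)]
  congr 1
  group

section sums

variable [Fintype ι]

theorem fox_chain (i : ι) (Φ : FreeGroup ι →* FreeGroup ι) (w : FreeGroup ι) :
    fox i (Φ w) = ∑ j, rh Φ (fox j w) * fox i (Φ (FreeGroup.of j)) := by
  refine crossed_ext Φ (fun w => fox i (Φ w))
    (fun w => ∑ j, rh Φ (fox j w) * fox i (Φ (FreeGroup.of j))) ?_ ?_ ?_ w
  · intro x y
    rw [map_mul, fox_mul]
  · intro x y
    rw [mul_sum, ← sum_add_distrib]
    refine sum_congr rfl fun j _ => ?_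
    rw [fox_mul, map_add, map_mul, rh_em, add_mul, mul_assoc]
  · intro j
    rw [Finset.sum_eq_single j]
    · rw [fox_of, if_pos rfl, map_one, one_mul]
    · intro k _ hk
      rw [fox_of, if_neg hk, map_zero, zero_mul]
    · intro h
      exact absurd (mem_univ j) h

theorem fox_fund (w : FreeGroup ι) :
    ∑ i, fox i w * (em (FreeGroup.of i) - 1) = em w - 1 := by
  refine crossed_ext (MonoidHom.id _) (fun w => ∑ i, fox i w * (em (FreeGroup.of i) - 1))
    (fun w => em w - 1) ?_ ?_ ?_ w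
  · intro x y
    rw [mul_sum, ← sum_add_distrib]
    refine sum_congr rfl fun j _ => ?_
    rw [fox_mul, add_mul, mul_assoc]
    rfl
  · intro x y
    rw [map_mul, MonoidHom.id_apply, mul_sub, mul_one]
    abel
  · intro j
    rw [Finset.sum_eq_single j]
    · rw [fox_of, if_pos rfl, one_mul]
    · intro k _ hk
      rw [fox_of, if_neg hk, zero_mul]
    · intro h
      exact absurd (mem_univ j) h

/-- The Reidemeister trace is invariant under conjugation in the outer automorphism group. -/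
theorem rt_invariance (Φ Ψ Θ Θ' : FreeGroup ι →* FreeGroup ι) (hΘ : ∀ x, Θ (Θ' x) = x)
    (hΘ' : ∀ x, Θ' (Θ x) = x) (g : FreeGroup ι)
    (h : ∀ x, Θ (Φ x) = g * Ψ (Θ x) * g⁻¹) (κ : FreeGroup ι → ℤ)
    (hκ : ∀ p x, κ (Ψ p * x * p⁻¹) = κ x) :
    κ g⁻¹ - ∑ j, ev (fun x => κ (g⁻¹ * Θ x)) (fox j (Φ (FreeGroup.of j))) =
      κ 1 - ∑ j, ev κ (fox j (Ψ (FreeGroup.of j))) := by
  -- the Jacobian matrix of `Θ` and its inverse
  set P : ι → ι → ZF ι := fun j k => fox k (Θ (FreeGroup.of j)) with hP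
  set Q : ι → ι → ZF ι := fun j k => rh Θ (fox k (Θ' (FreeGroup.of j))) with hQ
  have hQP : ∀ j i, ∑ k, Q j k * P k i = if i = j then 1 else 0 := by
    intro j i
    rw [← fox_of, ← hΘ (FreeGroup.of j), fox_chain]
  have hPQ : ∀ j i, ∑ k, P j k * Q k i = if i = j then 1 else 0 := by
    intro j i
    have h1 := fox_chain i Θ' (Θ (FreeGroup.of j))
    rw [hΘ', fox_of] at h1
    have h2 := congrArg (rh Θ) h1
    rw [map_sum] at h2
    simp only [map_mul, rh_rh Θ Θ' hΘ] at h2
    rw [← h2]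
    split_ifs with h3
    · rw [map_one]
    · rw [map_zero]
  have hQf : ∀ i, ∑ j, Q i j * (em (Θ (FreeGroup.of j)) - 1) = em (FreeGroup.of i) - 1 := by
    intro i
    have h1 := congrArg (rh Θ) (fox_fund (Θ' (FreeGroup.of i)))
    rw [map_sum, map_sub, rh_em, map_one, hΘ] at h1
    rw [← h1]
    refine sum_congr rfl fun j _ => ?_
    rw [map_mul, map_sub, rh_em, map_one]
  -- the transformation formula
  have hE : ∀ j i, ∑ k, rh Θ (fox k (Φ (FreeGroup.of j))) * P k i =
      fox i g + em g * (∑ k, rh Ψ (P j k) * fox i (Ψ (FreeGroup.of k))) -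
        em g * (em (Ψ (Θ (FreeGroup.of j))) * (em g⁻¹ * fox i g)) := by
    intro j i
    rw [← fox_chain, h, fox_mul, fox_mul, ← fox_chain, fox_inv, map_mul]
    simp only [mul_neg, mul_assoc]
    abel
  have hmain : ∀ j, rh Θ (fox j (Φ (FreeGroup.of j))) =
      ∑ i, (fox i g + em g * (∑ k, rh Ψ (P j k) * fox i (Ψ (FreeGroup.of k))) -
        em g * (em (Ψ (Θ (FreeGroup.of j))) * (em g⁻¹ * fox i g))) * Q i j := by
    intro j
    simp only [← hE, sum_mul]
    rw [sum_comm]
    simp only [mul_assoc, ← mul_sum, hPQ]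
    rw [Finset.sum_eq_single j]
    · rw [if_pos rfl, mul_one]
    · intro k _ hk
      rw [if_neg (Ne.symm hk), mul_zero]
    · intro h
      exact absurd (mem_univ j) h
  have hleft : ∀ j, em g⁻¹ * rh Θ (fox j (Φ (FreeGroup.of j))) =
      ∑ i, (em g⁻¹ * fox i g * Q i j +
        (∑ k, rh Ψ (P j k) * (fox i (Ψ (FreeGroup.of k)) * Q i j)) -
        rh Ψ (em (Θ (FreeGroup.of j))) * (em g⁻¹ * fox i g * Q i j)) := by
    intro j
    rw [hmain j, mul_sum]
    refine sum_congr rfl fun i _ => ?_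
    rw [sub_mul, add_mul, mul_sub, mul_add, rh_em]
    have h1 : ∀ r : ZF ι, em g⁻¹ * (em g * r) = r := fun r => by
      rw [← mul_assoc, em_inv_mul, one_mul]
    simp only [mul_assoc, h1, sum_mul]
  have hterm : ∀ j, ev κ (em g⁻¹ * rh Θ (fox j (Φ (FreeGroup.of j)))) =
      ∑ i, (ev κ (em g⁻¹ * fox i g * Q i j) +
        (∑ k, ev κ (fox i (Ψ (FreeGroup.of k)) * Q i j * P j k)) -
        ev κ (em g⁻¹ * fox i g * Q i j * em (Θ (FreeGroup.of j)))) := by
    intro j
    rw [hleft j, map_sum]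
    refine sum_congr rfl fun i _ => ?_
    rw [map_sub, map_add, map_sum, ev_cyc κ Ψ hκ]
    simp only [ev_cyc κ Ψ hκ]
  have hA : ∑ j, ∑ i, ∑ k, ev κ (fox i (Ψ (FreeGroup.of k)) * Q i j * P j k) =
      ∑ k, ev κ (fox k (Ψ (FreeGroup.of k))) := by
    rw [sum_comm]
    have h1 : ∀ i, ∑ j, ∑ k, ev κ (fox i (Ψ (FreeGroup.of k)) * Q i j * P j k) =
        ev κ (fox i (Ψ (FreeGroup.of i))) := by
      intro i
      rw [sum_comm]
      have h2 : ∀ k, ∑ j, ev κ (fox i (Ψ (FreeGroup.of k)) * Q i j * P j k) =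
          if k = i then ev κ (fox i (Ψ (FreeGroup.of k))) else 0 := by
        intro k
        rw [← map_sum]
        simp only [mul_assoc, ← mul_sum, hQP]
        split_ifs
        · rw [mul_one]
        · rw [mul_zero, map_zero]
      simp only [h2]
      rw [Finset.sum_ite_eq' univ i, if_pos (mem_univ i)]
    exact sum_congr rfl fun i _ => h1 i
  have hB : ∑ j, ∑ i, (ev κ (em g⁻¹ * fox i g * Q i j) -
      ev κ (em g⁻¹ * fox i g * Q i j * em (Θ (FreeGroup.of j)))) = κ g⁻¹ - κ 1 := by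
    rw [sum_comm]
    have h1 : ∀ i, ∑ j, (ev κ (em g⁻¹ * fox i g * Q i j) -
        ev κ (em g⁻¹ * fox i g * Q i j * em (Θ (FreeGroup.of j)))) =
        ev κ (-(em g⁻¹ * (fox i g * (em (FreeGroup.of i) - 1)))) := by
      intro i
      simp only [← map_sub]
      rw [← map_sum, ← hQf i]
      congr 1
      rw [mul_sum, mul_sum, ← sum_neg_distrib]
      refine sum_congr rfl fun j _ => ?_
      noncomm_ring
    rw [sum_congr rfl fun i _ => h1 i, ← map_sum, sum_neg_distrib, ← mul_sum, fox_fund, mul_sub,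
      mul_one, em_inv_mul, neg_sub, map_sub, ev_em, ← map_one em, ev_em]
  have hS : ∑ j, ev κ (em g⁻¹ * rh Θ (fox j (Φ (FreeGroup.of j)))) =
      ∑ k, ev κ (fox k (Ψ (FreeGroup.of k))) + (κ g⁻¹ - κ 1) := by
    rw [← hA, ← hB, ← sum_add_distrib]
    refine sum_congr rfl fun j _ => ?_
    rw [hterm j, ← sum_add_distrib]
    refine sum_congr rfl fun i _ => ?_
    ring
  simp only [ev_trans]
  rw [hS]
  ring

end sums

/-- The value of a linear functional on a Fox derivative depends only on the values on the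
prefixes of a word. -/
theorem ev_prefix (κ κ' : FreeGroup ι → ℤ) (i : ι) (W : List (ι × Bool))
    (h : ∀ U V, W = U ++ V → κ (FreeGroup.mk U) = κ' (FreeGroup.mk U)) :
    ev κ (fox i (FreeGroup.mk W)) = ev κ' (fox i (FreeGroup.mk W)) := by
  induction W using List.reverseRecOn with
  | nil =>
    have h1 : (FreeGroup.mk [] : FreeGroup ι) = 1 := rfl
    rw [h1, fox_one, map_zero, map_zero]
  | append_singleton W s ih =>
    obtain ⟨j, b⟩ := s
    have h1 : (FreeGroup.mk (W ++ [(j, b)]) : FreeGroup ι) =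
        FreeGroup.mk W * FreeGroup.mk [(j, b)] := rfl
    have h2 := ih fun U V hUV => h U (V ++ [(j, b)]) (by rw [hUV, List.append_assoc])
    have h3 := h W [(j, b)] rfl
    have h4 := h (W ++ [(j, b)]) [] (by rw [List.append_nil])
    rw [h1, fox_mul, map_add, map_add, h2]
    congr 1
    cases b
    · have h5 : (FreeGroup.mk [(j, false)] : FreeGroup ι) = (FreeGroup.of j)⁻¹ := rfl
      rw [h1] at h4
      rw [h5] at h4 ⊢
      rw [fox_inv, fox_of]
      split_ifs
      · rw [mul_one, mul_neg, ← map_mul, map_neg, map_neg, ev_em, ev_em, h4]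
      · rw [mul_zero, neg_zero, mul_zero, map_zero, map_zero]
    · have h5 : (FreeGroup.mk [(j, true)] : FreeGroup ι) = FreeGroup.of j := rfl
      rw [h5, fox_of]
      split_ifs
      · rw [mul_one, ev_em, ev_em, h3]
      · rw [mul_zero, map_zero, map_zero]

/-- The values of the prefixes of the words. -/
def Pref (f : ι → List (ι × Bool)) (x : FreeGroup ι) : Prop :=
  x = 1 ∨ ∃ i U V, f i = U ++ V ∧ x = FreeGroup.mk U

/-- Conjugate outer automorphisms with nonzero Lefschetz number have matching prefixes. -/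
theorem rt_match [Fintype ι] (Φ Ψ Θ Θ' : FreeGroup ι →* FreeGroup ι)
    (hΘ : ∀ x, Θ (Θ' x) = x) (hΘ' : ∀ x, Θ' (Θ x) = x) (g : FreeGroup ι)
    (h : ∀ x, Θ (Φ x) = g * Ψ (Θ x) * g⁻¹) (f f' : ι → List (ι × Bool))
    (hf : ∀ i, FreeGroup.mk (f i) = Φ (FreeGroup.of i))
    (hf' : ∀ i, FreeGroup.mk (f' i) = Ψ (FreeGroup.of i))
    (htr : ∑ j, ev (fun _ => 1) (fox j (Φ (FreeGroup.of j))) ≠ 1) :
    ∃ x x' z, Pref f x ∧ Pref f' x' ∧ g⁻¹ * Θ x = Ψ z * x' * z⁻¹ := by
  classical
  by_contra hcon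
  push Not at hcon
  let κ : FreeGroup ι → ℤ := fun y =>
    if ∃ x' z, Pref f' x' ∧ y = Ψ z * x' * z⁻¹ then 0 else 1
  have hκ : ∀ p x, κ (Ψ p * x * p⁻¹) = κ x := by
    intro p x
    have h1 : (∃ x' z, Pref f' x' ∧ Ψ p * x * p⁻¹ = Ψ z * x' * z⁻¹) ↔
        ∃ x' z, Pref f' x' ∧ x = Ψ z * x' * z⁻¹ := by
      constructor
      · rintro ⟨x', z, hx', h2⟩
        refine ⟨x', p⁻¹ * z, hx', ?_⟩
        rw [map_mul, map_inv]
        calc x = (Ψ p)⁻¹ * (Ψ p * x * p⁻¹) * p := by group
          _ = _ := by rw [h2]; group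
      · rintro ⟨x', z, hx', h2⟩
        refine ⟨x', p * z, hx', ?_⟩
        rw [map_mul, h2]
        group
    simp only [κ, h1]
  have h0 : ∀ x', Pref f' x' → κ x' = 0 := fun x' hx' =>
    if_pos ⟨x', 1, hx', by rw [map_one, one_mul, inv_one, mul_one]⟩
  have h1 : ∀ x, Pref f x → κ (g⁻¹ * Θ x) = 1 := fun x hx =>
    if_neg fun ⟨x', z, hx', h2⟩ => hcon x x' z hx hx' h2
  have hinv := rt_invariance Φ Ψ Θ Θ' hΘ hΘ' g h κ hκ
  have hz : ev (fun _ : FreeGroup ι => (0 : ℤ)) = 0 := by
    exact AddMonoidHom.ext fun r => add_ext (ev fun _ => 0) 0 (fun x => by rw [ev_em]; rfl) r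
  have h2 : ∀ j, ev κ (fox j (Ψ (FreeGroup.of j))) = 0 := by
    intro j
    rw [← hf', ev_prefix κ (fun _ => 0) j (f' j) fun U V hUV => h0 _ (Or.inr ⟨j, U, V, hUV, rfl⟩),
      hz]
    rfl
  have h3 : ∀ j, ev (fun x => κ (g⁻¹ * Θ x)) (fox j (Φ (FreeGroup.of j))) =
      ev (fun _ => 1) (fox j (Φ (FreeGroup.of j))) := by
    intro j
    rw [← hf]
    exact ev_prefix _ _ j (f j) fun U V hUV => h1 _ (Or.inr ⟨j, U, V, hUV, rfl⟩)
  have h4 : κ g⁻¹ = 1 := by
    have := h1 1 (Or.inl rfl)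
    rwa [map_one, mul_one] at this
  rw [h4, h0 1 (Or.inl rfl), sum_congr rfl fun j _ => h3 j, sum_congr rfl fun j _ => h2 j,
    sum_const_zero, sub_zero] at hinv
  exact htr (by omega)

end Pool.Agent.H22.OutF
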