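import Pool.Agent.H22.OutF.Cross
import Pool.Agent.H22.OutF.Dist

/-!
MP_57eb62_al : free groups have unique products; the units of their group rings are trivial.
-/

set_option autoImplicit false

namespace Pool.Agent.H22.OutF

open Finset

variable {ι : Type} [DecidableEq ι]

theorem uniq_one (N : ℕ)
    (ih : ∀ A B : Finset (FreeGroup ι), A.Nonempty → B.Nonempty → #A + #B ≤ N →
      ∃ a ∈ A, ∃ b ∈ B, UniqueMul A B a b)
    (C D : Finset (FreeGroup ι)) (hC : 1 ∈ C) (hD : 1 ∈ D) (hN : #C + #D ≤ N + 1)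
    (z : FreeGroup ι) (hz : z ∈ C ∪ D) (hz1 : z ≠ 1) :
    ∃ c ∈ C, ∃ d ∈ D, UniqueMul C D c d := by
  classical
  let y : {z // z ∈ C ∪ D} → FreeGroup ι := Subtype.val
  let I : Subgroup (FreeGroup ι) := Subgroup.closure (Set.range y)
  obtain ⟨e, k, hk, hek⟩ := exists_hom y ⟨⟨z, hz⟩, hz1⟩ I rfl
  have hI : ∀ g ∈ C ∪ D, g ∈ I := fun g hg => Subgroup.subset_closure ⟨⟨g, hg⟩, rfl⟩
  let E : FreeGroup ι → ℤ := fun b => if h : b ∈ I then (e ⟨b, h⟩).toAdd else 0
  have hEm : ∀ a ∈ I, ∀ b ∈ I, E (a * b) = E a + E b := by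
    intro a ha b hb
    have h1 : (e ⟨a * b, mul_mem ha hb⟩).toAdd = (e ⟨a, ha⟩).toAdd + (e ⟨b, hb⟩).toAdd := by
      have : (⟨a * b, mul_mem ha hb⟩ : I) = ⟨a, ha⟩ * ⟨b, hb⟩ := rfl
      rw [this, map_mul]
      rfl
    simp only [E, dif_pos ha, dif_pos hb, dif_pos (mul_mem ha hb), h1]
  have hE1 : E 1 = 0 := by
    have h1 := hEm 1 (one_mem _) 1 (one_mem _)
    rw [one_mul] at h1
    omega
  have hEk : E k.1 ≠ 0 := by
    intro h
    apply hek
    apply Multiplicative.toAdd.injective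
    have h2 : E k.1 = (e ⟨k.1, hk⟩).toAdd := dif_pos hk
    rw [h2] at h
    exact h
  obtain ⟨c1, hc1, hc1m⟩ := C.exists_max_image E ⟨1, hC⟩
  obtain ⟨d1, hd1, hd1m⟩ := D.exists_max_image E ⟨1, hD⟩
  obtain ⟨C', hC'⟩ : ∃ C', C' = C.filter fun g => E g = E c1 := ⟨_, rfl⟩
  obtain ⟨D', hD'⟩ : ∃ D', D' = D.filter fun g => E g = E d1 := ⟨_, rfl⟩
  have hCs : C' ⊆ C := by rw [hC']; exact filter_subset _ _
  have hDs : D' ⊆ D := by rw [hD']; exact filter_subset _ _
  have key : ∀ (X X' : Finset (FreeGroup ι)) (x : FreeGroup ι),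
      X' = X.filter (fun g => E g = E x) → 1 ∈ X → k.1 ∈ X → #X' < #X := by
    intro X X' x hX h1 h2
    apply card_lt_card
    rw [hX, filter_ssubset]
    by_cases h3 : E x = 0
    · exact ⟨k.1, h2, fun h4 => hEk (h4.trans h3)⟩
    · exact ⟨1, h1, fun h4 => h3 (by rw [← h4, hE1])⟩
  have hlt : #C' + #D' < #C + #D := by
    have h1 := card_le_card hCs
    have h2 := card_le_card hDs
    rcases mem_union.1 k.2 with h3 | h3
    · have := key C C' c1 hC' hC h3
      omega
    · have := key D D' d1 hD' hD h3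
      omega
  obtain ⟨c, hc, d, hd, hu⟩ := ih C' D'
    ⟨c1, by rw [hC', mem_filter]; exact ⟨hc1, rfl⟩⟩
    ⟨d1, by rw [hD', mem_filter]; exact ⟨hd1, rfl⟩⟩ (by omega)
  refine ⟨c, hCs hc, d, hDs hd, fun a b ha hb hab => ?_⟩
  have hcE : E c = E c1 := by
    rw [hC', mem_filter] at hc
    exact hc.2
  have hdE : E d = E d1 := by
    rw [hD', mem_filter] at hd
    exact hd.2
  have h1 := hEm a (hI a (mem_union_left _ ha)) b (hI b (mem_union_right _ hb))
  have h2 := hEm c (hI c (mem_union_left _ (hCs hc))) d (hI d (mem_union_right _ (hDs hd)))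
  rw [hab] at h1
  have h3 := hc1m a ha
  have h4 := hd1m b hb
  refine hu ?_ ?_ hab
  · rw [hC', mem_filter]
    exact ⟨ha, by omega⟩
  · rw [hD', mem_filter]
    exact ⟨hb, by omega⟩

theorem uniq_all (N : ℕ) : ∀ A B : Finset (FreeGroup ι), A.Nonempty → B.Nonempty →
    #A + #B ≤ N → ∃ a ∈ A, ∃ b ∈ B, UniqueMul A B a b := by
  classical
  induction N with
  | zero =>
    intro A B hA _ h
    have := hA.card_pos
    omega
  | succ N ih =>
    intro A B hA hB hN
    by_cases hc : #A ≤ 1 ∧ #B ≤ 1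
    · exact UniqueMul.of_card_le_one hA hB hc.1 hc.2
    obtain ⟨a0, ha0⟩ := hA
    obtain ⟨b0, hb0⟩ := hB
    obtain ⟨C, hC⟩ : ∃ C, C = A.image fun a => a0⁻¹ * a := ⟨_, rfl⟩
    obtain ⟨D, hD⟩ : ∃ D, D = B.image fun b => b * b0⁻¹ := ⟨_, rfl⟩
    have h1C : 1 ∈ C := by
      rw [hC, mem_image]
      exact ⟨a0, ha0, inv_mul_cancel a0⟩
    have h1D : 1 ∈ D := by
      rw [hD, mem_image]
      exact ⟨b0, hb0, mul_inv_cancel b0⟩
    have hcC : #C = #A := by
      rw [hC]
      exact card_image_of_injective _ fun x y h => mul_left_cancel h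
    have hcD : #D = #B := by
      rw [hD]
      exact card_image_of_injective _ fun x y h => mul_right_cancel h
    obtain ⟨z, hz, hz1⟩ : ∃ z ∈ C ∪ D, z ≠ 1 := by
      rw [not_and_or, not_le, not_le] at hc
      rcases hc with hc | hc
      · rw [← hcC] at hc
        obtain ⟨z, hz, hz1⟩ := exists_mem_ne hc 1
        exact ⟨z, mem_union_left _ hz, hz1⟩
      · rw [← hcD] at hc
        obtain ⟨z, hz, hz1⟩ := exists_mem_ne hc 1
        exact ⟨z, mem_union_right _ hz, hz1⟩
    obtain ⟨c, hc', d, hd', hu⟩ := uniq_one N ih C D h1C h1D (by omega) z hz hz1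
    rw [hC, mem_image] at hc'
    rw [hD, mem_image] at hd'
    obtain ⟨a, ha, rfl⟩ := hc'
    obtain ⟨b, hb, rfl⟩ := hd'
    refine ⟨a, ha, b, hb, fun a' b' ha' hb' h => ?_⟩
    have h1 := @hu (a0⁻¹ * a') (b' * b0⁻¹) (by rw [hC, mem_image]; exact ⟨a', ha', rfl⟩)
      (by rw [hD, mem_image]; exact ⟨b', hb', rfl⟩) (by
        calc a0⁻¹ * a' * (b' * b0⁻¹) = a0⁻¹ * (a' * b') * b0⁻¹ := by group
          _ = a0⁻¹ * a * (b * b0⁻¹) := by rw [h]; group)
    exact ⟨mul_left_cancel h1.1, mul_right_cancel h1.2⟩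

instance uniqueProds_freeGroup : UniqueProds (FreeGroup ι) where
  uniqueMul_of_nonempty {A B} hA hB := uniq_all (#A + #B) A B hA hB le_rfl

/-- One-sided units of the real group ring of a free group are trivial. -/
theorem trivial_unit (X Y : MonoidAlgebra ℝ (FreeGroup ι)) (h : X * Y = 1) :
    ∃ g : FreeGroup ι, Y.coeff.support = {g} := by
  have h2 : TwoUniqueProds (FreeGroup ι) := UniqueProds.toTwoUniqueProds_of_group
  have hX : X.coeff.support.Nonempty := by
    rw [Finsupp.support_nonempty_iff]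
    intro h0
    have h3 : X = 0 := by
      rwa [MonoidAlgebra.coeff_eq_zero] at h0
    rw [h3, zero_mul] at h
    exact zero_ne_one h
  have hY : Y.coeff.support.Nonempty := by
    rw [Finsupp.support_nonempty_iff]
    intro h0
    have h3 : Y = 0 := by
      rwa [MonoidAlgebra.coeff_eq_zero] at h0
    rw [h3, mul_zero] at h
    exact zero_ne_one h
  have hcard : #(X.coeff.support) * #(Y.coeff.support) ≤ 1 := by
    by_contra hlt
    rw [not_le] at hlt
    obtain ⟨p, hp, p', hp', hne, hu, hu'⟩ := TwoUniqueProds.uniqueMul_of_one_lt_card hlt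
    rw [mem_product] at hp hp'
    have key : ∀ s : FreeGroup ι × FreeGroup ι, s.1 ∈ X.coeff.support →
        s.2 ∈ Y.coeff.support → UniqueMul X.coeff.support Y.coeff.support s.1 s.2 →
        s.1 * s.2 = 1 := by
      intro s h1 h2 h3
      have h4 := MonoidAlgebra.coeff_mul_mul_of_uniqueMul h3
      have h5 : X.coeff s.1 * Y.coeff s.2 ≠ 0 :=
        mul_ne_zero (Finsupp.mem_support_iff.1 h1) (Finsupp.mem_support_iff.1 h2)
      rw [← h4, h] at h5
      by_contra h6
      apply h5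
      rw [MonoidAlgebra.one_def]
      simp [MonoidAlgebra.coeff_single, Ne.symm h6]
    have h1 := key p hp.1 hp.2 hu
    have h2 := key p' hp'.1 hp'.2 hu'
    apply hne
    have h3 := hu hp'.1 hp'.2 (by rw [h1, h2])
    exact Prod.ext h3.1.symm h3.2.symm
  have h1 := hX.card_pos
  have h3 : #(Y.coeff.support) = 1 := by
    have := hY.card_pos
    nlinarith
  obtain ⟨g, hg⟩ := card_eq_one.1 h3
  exact ⟨g, hg⟩

end Pool.Agent.H22.OutF
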