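import Pool.Agent.H22.OutF.FCross
import Pool.Agent.H22.OutF.Uniq

/-!
MP_57eb62_al : the real crossed homomorphism of the gadget along an eigenvector.
-/

set_option autoImplicit false

namespace Pool.Agent.H22.OutF

open Finset

/-- The real group ring of the free group. -/
abbrev RF (ι : Type) : Type := MonoidAlgebra ℝ (FreeGroup ι)

section ring

variable {α β : Type} [DecidableEq α] [DecidableEq β]

/-- The extension of the coefficients. -/
noncomputable def toR : ZF α →+* RF α :=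
  MonoidAlgebra.mapRingHom (FreeGroup α) (Int.castRingHom ℝ)

/-- The embedding of the free group in its real group ring. -/
noncomputable def emR : FreeGroup α →* RF α := MonoidAlgebra.of ℝ (FreeGroup α)

/-- The extension of a homomorphism to the real group rings. -/
noncomputable def rR (Φ : FreeGroup α →* FreeGroup β) : RF α →ₐ[ℝ] RF β :=
  MonoidAlgebra.mapDomainAlgHom ℝ ℝ Φ

omit [DecidableEq α] in
theorem toR_em (x : FreeGroup α) : toR (em x : ZF α) = emR x := by
  simp [toR, em, emR, MonoidAlgebra.of_apply]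

omit [DecidableEq α] [DecidableEq β] in
theorem rR_emR (Φ : FreeGroup α →* FreeGroup β) (x : FreeGroup α) :
    rR Φ (emR x) = emR (Φ x) := by
  simp [rR, emR, MonoidAlgebra.of_apply]

theorem toR_rg (Φ : FreeGroup α →* FreeGroup β) (X : ZF α) :
    toR (rg Φ X) = rR Φ (toR X) := by
  refine add_ext ((toR : ZF β →+* RF β).toAddMonoidHom.comp (rg Φ).toAddMonoidHom)
    ((rR Φ : RF α →+* RF β).toAddMonoidHom.comp (toR : ZF α →+* RF α).toAddMonoidHom)
    (fun x => ?_) X
  change toR (rg Φ (em x)) = rR Φ (toR (em x))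
  rw [rg_em, toR_em, toR_em, rR_emR]

omit [DecidableEq α] in
theorem emR_mul_inv (x : FreeGroup α) : (emR x : RF α) * emR x⁻¹ = 1 := by
  rw [← map_mul, mul_inv_cancel, map_one]

omit [DecidableEq α] [DecidableEq β] in
/-- Real crossed homomorphisms are determined by their values on the letters. -/
theorem crsR_ext (Φ : FreeGroup α →* FreeGroup β) (u v : FreeGroup α → RF β)
    (hu : ∀ x y, u (x * y) = u x + emR (Φ x) * u y)
    (hv : ∀ x y, v (x * y) = v x + emR (Φ x) * v y)
    (h : ∀ j, u (FreeGroup.of j) = v (FreeGroup.of j)) (x : FreeGroup α) : u x = v x := by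
  have h1 : ∀ w : FreeGroup α → RF β, (∀ x y, w (x * y) = w x + emR (Φ x) * w y) →
      w 1 = 0 := by
    intro w hw
    have h2 := hw 1 1
    rw [one_mul, map_one, map_one, one_mul] at h2
    exact left_eq_add.1 h2
  have h2 : ∀ w : FreeGroup α → RF β, (∀ x y, w (x * y) = w x + emR (Φ x) * w y) →
      ∀ x, w x⁻¹ = -(emR (Φ x⁻¹) * w x) := by
    intro w hw x
    have h3 := hw x⁻¹ x
    rw [inv_mul_cancel, h1 w hw] at h3
    exact eq_neg_of_add_eq_zero_left h3.symm
  induction x using FreeGroup.induction_on with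
  | C1 => rw [h1 u hu, h1 v hv]
  | of j => exact h j
  | inv_of j hj => rw [h2 u hu, h2 v hv, hj]
  | mul x y hx hy => rw [hu, hv, hx, hy]

/-- The twisted translation. -/
noncomputable def TT (w : FreeGroup β) (a : MulAut (FreeGroup β)) : RF β →ₗ[ℝ] RF β where
  toFun X := emR w * rR (a : FreeGroup β →* FreeGroup β) X
  map_add' X Y := by rw [map_add, mul_add]
  map_smul' r X := by rw [map_smul, mul_smul_comm, RingHom.id_apply]

omit [DecidableEq β] in
theorem TT_apply (w : FreeGroup β) (a : MulAut (FreeGroup β)) (X : RF β) :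
    TT w a X = emR w * rR (a : FreeGroup β →* FreeGroup β) X := rfl

omit [DecidableEq β] in
theorem coeff_TT (w : FreeGroup β) (a : MulAut (FreeGroup β)) (X : RF β) (g : FreeGroup β) :
    (TT w a X).coeff (w * a g) = X.coeff g := by
  have h1 : (emR w : RF β) = MonoidAlgebra.single w 1 := rfl
  have h2 : (rR (a : FreeGroup β →* FreeGroup β) X).coeff =
      Finsupp.mapDomain (a : FreeGroup β → FreeGroup β) X.coeff := rfl
  rw [TT_apply, h1, MonoidAlgebra.coeff_single_mul_mul, one_mul, h2,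
    Finsupp.mapDomain_apply a.injective]

/-- The permutation of the group that belongs to the twisted translation. -/
def sg (w : FreeGroup β) (a : MulAut (FreeGroup β)) : Equiv.Perm (FreeGroup β) :=
  a.toEquiv.trans (Equiv.mulLeft w)

omit [DecidableEq β] in
theorem sg_apply (w : FreeGroup β) (a : MulAut (FreeGroup β)) (g : FreeGroup β) :
    sg w a g = w * a g := rfl

omit [DecidableEq β] in
theorem coeff_TT_pow (w : FreeGroup β) (a : MulAut (FreeGroup β)) (X : RF β) (k : ℕ)
    (g : FreeGroup β) : ((TT w a ^ k) X).coeff ((sg w a ^ k) g) = X.coeff g := by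
  induction k with
  | zero => rfl
  | succ k ih =>
    rw [pow_succ', pow_succ', Module.End.mul_apply, Equiv.Perm.mul_apply, sg_apply, coeff_TT, ih]

/-- An element with a large multiple of a power in terms of small powers vanishes. -/
theorem TT_zero (w : FreeGroup β) (a : MulAut (FreeGroup β)) (X : RF β) (k : ℕ) (l : ℝ)
    (hl : (k : ℝ) < l) (h : l • (TT w a ^ k) X = -∑ i ∈ range k, (TT w a ^ i) X) : X = 0 := by
  by_contra hX
  have hs : X.coeff.support.Nonempty := by
    rw [Finsupp.support_nonempty_iff]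
    intro h0
    exact hX (by rwa [MonoidAlgebra.coeff_eq_zero] at h0)
  obtain ⟨g, hg, hmax⟩ := X.coeff.support.exists_max_image (fun g => |X.coeff g|) hs
  have hg0 : 0 < |X.coeff g| := abs_pos.2 (Finsupp.mem_support_iff.1 hg)
  have hle : ∀ b, |X.coeff b| ≤ |X.coeff g| := by
    intro b
    by_cases hb : b ∈ X.coeff.support
    · exact hmax b hb
    · rw [Finsupp.notMem_support_iff.1 hb, abs_zero]
      exact hg0.le
  have h1 := congrArg (fun Y : RF β => Y.coeff ((sg w a ^ k) g)) h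
  rw [MonoidAlgebra.coeff_smul_apply, coeff_TT_pow, MonoidAlgebra.coeff_neg, Finsupp.neg_apply,
    MonoidAlgebra.coeff_sum, Finsupp.finsetSum_apply, smul_eq_mul] at h1
  have h2 : ∀ i ∈ range k, |((TT w a ^ i) X).coeff ((sg w a ^ k) g)| ≤ |X.coeff g| := by
    intro i hi
    have h3 : (sg w a ^ k) g = (sg w a ^ i) ((sg w a ^ (k - i)) g) := by
      rw [← Equiv.Perm.mul_apply, ← pow_add]
      congr 2
      have := mem_range.1 hi
      omega
    rw [h3, coeff_TT_pow]
    exact hle _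
  have h3 : |∑ i ∈ range k, ((TT w a ^ i) X).coeff ((sg w a ^ k) g)| ≤ k * |X.coeff g| := by
    refine (abs_sum_le_sum_abs _ _).trans ((sum_le_card_nsmul _ _ _ h2).trans ?_)
    rw [card_range, nsmul_eq_mul]
  have h4 : |l * X.coeff g| ≤ k * |X.coeff g| := by
    rw [h1, abs_neg]
    exact h3
  have h5 : (0 : ℝ) < l := (Nat.cast_nonneg k).trans_lt hl
  rw [abs_mul, abs_of_pos h5] at h4
  have h6 := le_of_mul_le_mul_right h4 hg0
  linarith

end ring

/-- The eigenvalue. -/
theorem exists_lam (c q : ℕ) (hc : 1 ≤ c) :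
    ∃ l : ℝ, (c : ℝ) < l ∧ l ^ (q + 2) = c * l ^ (q + 1) + 1 := by
  have hc1 : (1 : ℝ) ≤ c := by exact_mod_cast hc
  have hcont : ContinuousOn (fun t : ℝ => t ^ (q + 2) - c * t ^ (q + 1)) (Set.Icc (c : ℝ) (c + 1)) := by
    fun_prop
  have h1 := intermediate_value_Icc (by linarith : (c : ℝ) ≤ c + 1) hcont
  have h2 : (1 : ℝ) ∈ Set.Icc ((c : ℝ) ^ (q + 2) - c * (c : ℝ) ^ (q + 1))
      (((c : ℝ) + 1) ^ (q + 2) - c * ((c : ℝ) + 1) ^ (q + 1)) := by
    constructor
    · have : (c : ℝ) ^ (q + 2) - c * (c : ℝ) ^ (q + 1) = 0 := by ring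
      rw [this]
      exact zero_le_one
    · have h3 : ((c : ℝ) + 1) ^ (q + 2) - c * ((c : ℝ) + 1) ^ (q + 1) =
          ((c : ℝ) + 1) ^ (q + 1) := by ring
      rw [h3]
      exact one_le_pow₀ (by linarith)
  obtain ⟨l, hl, hl1⟩ := h1 h2
  simp only at hl1
  refine ⟨l, lt_of_le_of_ne hl.1 ?_, by linarith⟩
  intro h3
  rw [← h3] at hl1
  have : (c : ℝ) ^ (q + 2) - c * (c : ℝ) ^ (q + 1) = 0 := by ring
  rw [this] at hl1
  exact zero_ne_one hl1

/-- The left eigenvector. -/
noncomputable def mu (q : ℕ) (l : ℝ) (s : Fin (q + 2)) : ℝ :=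
  if s = 0 then l ^ (q + 1) else l ^ ((s : ℕ) - 1)

theorem mu_zero (q : ℕ) (l : ℝ) : mu q l 0 = l ^ (q + 1) := by
  simp [mu]

theorem mu_one (q : ℕ) (l : ℝ) : mu q l 1 = 1 := by
  unfold mu
  rw [if_neg]
  · simp
  · intro h
    have := congrArg Fin.val h
    simp at this

theorem mu_succ (q : ℕ) (l : ℝ) (s : Fin (q + 2)) (hs : s ≠ 0) :
    mu q l (s + 1) = l * mu q l s := by
  have hs0 : (s : ℕ) ≠ 0 := fun h => hs (Fin.ext h)
  unfold mu
  rw [if_neg hs]
  by_cases h : (s : ℕ) + 1 < q + 2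
  · have h1 : ((s + 1 : Fin (q + 2)) : ℕ) = (s : ℕ) + 1 := by
      rw [Fin.val_add, Fin.val_one, Nat.mod_eq_of_lt h]
    have h2 : s + 1 ≠ 0 := by
      intro h3
      rw [h3] at h1
      simp at h1
    rw [if_neg h2, h1, ← pow_succ']
    congr 1
    omega
  · have h1 : (s : ℕ) + 1 = q + 2 := by
      have := s.2
      omega
    have h2 : s + 1 = 0 := by
      apply Fin.ext
      rw [Fin.val_add, Fin.val_one, h1]
      simp
    rw [if_pos h2, ← pow_succ']
    congr 1
    omega

section gadget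

variable {ι : Type} [DecidableEq ι] {r q : ℕ}

/-- The real crossed homomorphism. -/
noncomputable def DR (c : ℕ) (m : Fin (q + 2) → ℝ) (z : Gf ι r q) : RF (ι ⊕ Fin r) :=
  ∑ s, m s • toR (Dc c s z)

theorem DR_mul (c : ℕ) (m : Fin (q + 2) → ℝ) (x y : Gf ι r q) :
    DR c m (x * y) = DR c m x + emR (pB x) * DR c m y := by
  unfold DR
  rw [mul_sum, ← sum_add_distrib]
  refine sum_congr rfl fun s _ => ?_
  rw [Dc_mul, map_add, map_mul, toR_em, smul_add, mul_smul_comm]

theorem DR_one (c : ℕ) (m : Fin (q + 2) → ℝ) : DR c m (1 : Gf ι r q) = 0 := by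
  unfold DR
  refine sum_eq_zero fun s _ => ?_
  have h : Dc c s (1 : Gf ι r q) = 0 := cr_one _ _
  rw [h, map_zero, smul_zero]

theorem DR_conj (c : ℕ) (m : Fin (q + 2) → ℝ) (w x : Gf ι r q) (hx : pB x = 1) :
    DR c m (w * x * w⁻¹) = emR (pB w) * DR c m x := by
  unfold DR
  rw [mul_sum]
  refine sum_congr rfl fun s _ => ?_
  have h1 : pB (w * x * w⁻¹) = 1 := by
    rw [map_mul, map_mul, hx, mul_one, map_inv, mul_inv_cancel]
  rw [Dc_conj, h1, map_one, sub_self, zero_mul, zero_add, map_mul, toR_em, mul_smul_comm]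

theorem DR_iF (c : ℕ) (m : Fin (q + 2) → ℝ) (y : FreeGroup ι) :
    DR c m (iF y : Gf ι r q) = 0 := by
  unfold DR
  refine sum_eq_zero fun s _ => ?_
  rw [Dc_iF, map_zero, smul_zero]

theorem DR_bl (c : ℕ) (m : Fin (q + 2) → ℝ) (t : Fin (q + 2)) :
    DR c m (iB (FreeGroup.of t) : Gf ι 0 q) = (-m t) • (1 : RF (ι ⊕ Fin 0)) := by
  unfold DR
  rw [sum_eq_single t]
  · have h1 : gs q c 1 (bv t) t = 1 := by
      simp [gs, bv]
    rw [Dc_bl, zero_add, h1, neg_one_smul, map_neg, map_one, smul_neg, neg_smul]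
  · intro s _ hs
    have h1 : gs q c 1 (bv t) s = 0 := by
      simp [gs, bv, hs]
    rw [Dc_bl, zero_add, h1, neg_zero, zero_smul, map_zero, smul_zero]
  · intro h
    exact absurd (mem_univ t) h

theorem DR_pow (c : ℕ) (m : Fin (q + 2) → ℝ) (x : Gf ι r q) (hx : pB x = 1) (n : ℕ) :
    DR c m (x ^ n) = (n : ℝ) • DR c m x := by
  induction n with
  | zero => rw [pow_zero, DR_one, Nat.cast_zero, zero_smul]
  | succ n ih =>
    rw [pow_succ, DR_mul, ih, map_pow, hx, one_pow, map_one, one_mul, Nat.cast_succ, add_smul,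
      one_smul]

/-- The equivariance on the kernel of the projection. -/
theorem DR_sA (ψ : MulAut (FreeGroup ι)) (x : FreeGroup ι) (c : ℕ) (αb : MulAut (Ba ι r))
    (hα : ∀ z : Gf ι r q, pB (sA ψ x c z) = αb (pB z)) (l : ℝ)
    (hl : l ^ (q + 2) = c * l ^ (q + 1) + 1) (z : Gf ι r q) (hz : pB z = 1) :
    DR c (mu q l) (sA ψ x c z) =
      l • rR (αb : Ba ι r →* Ba ι r) (DR c (mu q l) z) := by
  have h1 : ∀ s, toR (Dc c s (sA ψ x c z)) =
      rR (αb : Ba ι r →* Ba ι r) (toR (Dc c (s - 1) z)) +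
        (if s = 0 then (c : ℝ) • rR (αb : Ba ι r →* Ba ι r) (toR (Dc c 0 z)) else 0) := by
    intro s
    rw [Dc_sA ψ x c αb hα, hα, hz, map_one, map_one, sub_self, zero_mul, add_zero, map_add,
      toR_rg]
    congr 1
    split_ifs
    · rw [map_zsmul, toR_rg, ← Int.cast_smul_eq_zsmul ℝ]
      simp
    · exact map_zero _
  obtain ⟨X, hX⟩ : ∃ X : Fin (q + 2) → RF (ι ⊕ Fin r),
    ∀ s, X s = rR (αb : Ba ι r →* Ba ι r) (toR (Dc c s z)) := ⟨_, fun _ => rfl⟩
  have h2 : DR c (mu q l) (sA ψ x c z) = ∑ s, (mu q l s • X (s - 1) +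
      (if s = 0 then (mu q l 0 * c) • X 0 else 0)) := by
    unfold DR
    refine sum_congr rfl fun s _ => ?_
    rw [h1, smul_add, ← hX, ← hX]
    congr 1
    split_ifs with hs
    · rw [smul_smul, hs]
    · exact smul_zero _
  have h3 : ∑ s, mu q l s • X (s - 1) = ∑ s, mu q l (s + 1) • X s := by
    rw [← Equiv.sum_comp (Equiv.addRight (1 : Fin (q + 2)))]
    refine sum_congr rfl fun s _ => ?_
    rw [Equiv.coe_addRight, add_sub_cancel_right]
  have h4 : ∑ s : Fin (q + 2), (if s = 0 then (mu q l 0 * c) • X 0 else 0) =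
      ∑ s, (if s = 0 then mu q l 0 * c else 0) • X s := by
    refine sum_congr rfl fun s _ => ?_
    split_ifs with hs
    · rw [hs]
    · rw [zero_smul]
  have h5 : rR (αb : Ba ι r →* Ba ι r) (DR c (mu q l) z) = ∑ s, mu q l s • X s := by
    unfold DR
    rw [map_sum]
    refine sum_congr rfl fun s _ => ?_
    rw [map_smul, hX]
  rw [h2, sum_add_distrib, h3, h4, ← sum_add_distrib, h5, smul_sum]
  refine sum_congr rfl fun s _ => ?_
  rw [← add_smul, smul_smul]
  congr 1
  by_cases hs : s = 0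
  · rw [hs, if_pos rfl, zero_add, mu_zero, mu_one]
    rw [pow_succ' l (q + 1)] at hl
    rw [hl]
    ring
  · rw [if_neg hs, add_zero, mu_succ q l s hs]

end gadget

end Pool.Agent.H22.OutF
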