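import Pool.Agent.H22.OutF.Gadget

/-!
MP_57eb62_al : conjugate marked extensions come from conjugate outer automorphisms.
-/

set_option autoImplicit false

namespace Pool.Agent.H22.OutF

variable {ι : Type} [DecidableEq ι] {r q : ℕ}

theorem pr1_wrd (c : ℕ) (s : Fin (q + 2)) : pr1 (wrd c s : Big ι r q) = 1 := by
  unfold wrd
  split_ifs
  · rw [map_mul, map_pow, pr1_mkr, pr1_mkr, one_pow, one_mul]
  · exact pr1_mkr _

theorem pr1_gT (φ : MulAut (FreeGroup ι)) (x : FreeGroup ι) (c : ℕ) (z : Big ι r q) :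
    pr1 (gT φ x c z) = φ (pr1 z) := by
  refine big_ext (pr1.comp ((gT φ x c : MulAut (Big ι r q)) : Big ι r q →* Big ι r q))
    ((φ : FreeGroup ι →* FreeGroup ι).comp pr1) ?_ ?_ z
  · intro y
    change pr1 (gT φ x c (inl y)) = φ (pr1 (inl y))
    rw [gT_inl, pr1_inl, pr1_inl]
  · intro t
    change pr1 (gT φ x c (mkr t)) = φ (pr1 (mkr t))
    rw [gT_mkr, pr1_mkr, map_one]
    split_ifs
    · rw [map_mul, map_mul, map_inv, pr1_wrd, mul_one, mul_inv_cancel]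
    · exact pr1_mkr _

theorem kill_markers [Finite ι] (φ ψ : MulAut (FreeGroup ι)) (x x' : FreeGroup ι) (c L : ℕ)
    (hL : 2 ≤ L) (hc : 2 * L + 1 ≤ c)
    (hψ : ∀ i, ((ψ ^ (r + 1)) (FreeGroup.of i)).norm ≤ L) (Θ : MulAut (Big ι r q))
    (w : Big ι r q) (h : ∀ z, Θ (gT φ x c z) = w * gT ψ x' c (Θ z) * w⁻¹) (t : Mk r q) :
    pr1 (Θ (mkr t)) = 1 := by
  let κ : Big ι r q →* FreeGroup ι := pr1.comp (Θ : Big ι r q →* Big ι r q)
  have hκ0 : ∀ z, κ z = pr1 (Θ z) := fun z => rfl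
  let f : FreeGroup ι → FreeGroup ι := fun y => pr1 w * ψ y * (pr1 w)⁻¹
  have hκ : ∀ z, κ (gT φ x c z) = f (κ z) := by
    intro z
    rw [hκ0, h, map_mul, map_mul, map_inv, pr1_gT]
    rfl
  -- the letters of the other blocks
  have hblk : ∀ (j : ℕ) (hj : j < r + 1) (s : Fin (q + 2)),
      κ (mkr (⟨j, hj⟩, s)) = f^[j] (κ (mkr (0, s))) := by
    intro j
    induction j with
    | zero => intro hj s; rfl
    | succ j ih =>
      intro hj s
      rw [Function.iterate_succ_apply', ← ih (by omega) s, ← hκ, gT_mkr]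
      have h1 : (⟨j, by omega⟩ : Fin (r + 1)) + 1 = ⟨j + 1, hj⟩ := by
        apply Fin.ext
        rw [Fin.val_add]
        have h2 : ((1 : Fin (r + 1)) : ℕ) = 1 := by
          change 1 % (r + 1) = 1
          exact Nat.mod_eq_of_lt (by omega)
        rw [h2]
        exact Nat.mod_eq_of_lt hj
      have h3 : ¬ ((⟨j + 1, hj⟩ : Fin (r + 1)) = 0) := by
        intro h4
        have := congrArg Fin.val h4
        simp at this
      simp only [h1, h3, if_false]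
  have hlast : ∀ s : Fin (q + 2), f^[r + 1] (κ (mkr (0, s))) =
      κ (inl x) * κ (wrd c (s + 1)) * (κ (inl x))⁻¹ := by
    intro s
    rw [Function.iterate_succ_apply', ← hblk r (by omega) s, ← hκ, gT_mkr]
    have h1 : (⟨r, by omega⟩ : Fin (r + 1)) + 1 = 0 := by
      apply Fin.ext
      rw [Fin.val_add]
      rcases Nat.eq_zero_or_pos r with h2 | h2
      · subst h2
        simp
      · have h3 : ((1 : Fin (r + 1)) : ℕ) = 1 := by
          change 1 % (r + 1) = 1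
          exact Nat.mod_eq_of_lt (by omega)
        rw [h3]
        simp
    simp only [h1, if_true, map_mul, map_inv]
  have hiter : ∀ j : ℕ, ∃ v, ∀ y, f^[j] y = v * (ψ ^ j) y * v⁻¹ := by
    intro j
    induction j with
    | zero => exact ⟨1, fun y => by rw [one_mul, inv_one, mul_one]; rfl⟩
    | succ j ih =>
      obtain ⟨v, hv⟩ := ih
      refine ⟨v * (ψ ^ j) (pr1 w), fun y => ?_⟩
      rw [Function.iterate_succ_apply, hv, pow_succ, MulAut.mul_apply]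
      simp only [f, map_mul, map_inv]
      group
  obtain ⟨v, hv⟩ := hiter (r + 1)
  let h' : FreeGroup ι →* FreeGroup ι :=
    (MulAut.conj ((κ (inl x))⁻¹ * v) : FreeGroup ι →* FreeGroup ι).comp
      ((ψ ^ (r + 1) : MulAut (FreeGroup ι)) : FreeGroup ι →* FreeGroup ι)
  have hh' : ∀ y, h' y = ((κ (inl x))⁻¹ * v) * (ψ ^ (r + 1)) y * ((κ (inl x))⁻¹ * v)⁻¹ :=
    fun y => rfl
  have hy : ∀ s : Fin (q + 2), h' (κ (mkr (0, s))) = κ (wrd c (s + 1)) := by
    intro s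
    have h1 := hlast s
    rw [hv] at h1
    rw [hh']
    calc (κ (inl x))⁻¹ * v * (ψ ^ (r + 1)) (κ (mkr (0, s))) * ((κ (inl x))⁻¹ * v)⁻¹
        = (κ (inl x))⁻¹ * (v * (ψ ^ (r + 1)) (κ (mkr (0, s))) * v⁻¹) * κ (inl x) := by group
      _ = κ (wrd c (s + 1)) := by rw [h1]; group
  have h01 : (0 : Fin (q + 2)) + 1 = 1 := zero_add 1
  have hone := no_grow h' ((κ (inl x))⁻¹ * v)
    ((ψ ^ (r + 1) : MulAut (FreeGroup ι)) : FreeGroup ι →* FreeGroup ι) hh' L hL hψ q c hc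
    (fun s => κ (mkr (0, s))) (by
      rw [hy, h01]
      unfold wrd
      rw [if_pos rfl, map_mul, map_pow]) (by
      intro s hs
      rw [hy]
      unfold wrd
      rw [if_neg]
      intro h1
      have h2 : s = 0 := by
        rw [← h01] at h1
        exact add_right_cancel h1
      rw [h2] at hs
      simp at hs)
  have hf1 : ∀ j : ℕ, f^[j] 1 = 1 := by
    intro j
    induction j with
    | zero => rfl
    | succ j ih =>
      rw [Function.iterate_succ_apply', ih]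
      simp only [f, map_one, mul_one, mul_inv_cancel]
  obtain ⟨⟨j, hj⟩, s⟩ := t
  rw [← hκ0, hblk j hj s]
  have h1 : κ (mkr (0, s)) = 1 := hone s
  rw [h1, hf1]

/-- If marked extensions are conjugate as outer automorphisms, so are the original outer
automorphisms. -/
theorem rigid [Finite ι] (φ ψ : MulAut (FreeGroup ι)) (x x' : FreeGroup ι) (c L : ℕ)
    (hL : 2 ≤ L) (hc : 2 * L + 1 ≤ c)
    (hφ : ∀ i, ((φ ^ (r + 1)) (FreeGroup.of i)).norm ≤ L)
    (hψ : ∀ i, ((ψ ^ (r + 1)) (FreeGroup.of i)).norm ≤ L)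
    (h : ∃ (Θ : MulAut (Big ι r q)) (w : Big ι r q),
      ∀ z, Θ (gT φ x c (Θ⁻¹ z)) = w * gT ψ x' c z * w⁻¹) :
    ∃ (χ : MulAut (FreeGroup ι)) (w : FreeGroup ι), ∀ y, χ (φ (χ⁻¹ y)) = w * ψ y * w⁻¹ := by
  obtain ⟨Θ, w, h⟩ := h
  have h1 : ∀ z, Θ (gT φ x c z) = w * gT ψ x' c (Θ z) * w⁻¹ := by
    intro z
    have h2 := h (Θ z)
    rwa [MulAut.inv_apply_self] at h2
  have h2 : ∀ z, Θ⁻¹ (gT ψ x' c z) = (Θ⁻¹ w)⁻¹ * gT φ x c (Θ⁻¹ z) * ((Θ⁻¹ w)⁻¹)⁻¹ := by
    intro z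
    have h3 := congrArg (fun y => Θ⁻¹ y) (h z)
    simp only [MulAut.inv_apply_self, map_mul, map_inv] at h3
    rw [h3]
    group
  have k1 := kill_markers φ ψ x x' c L hL hc hψ Θ w h1
  have k2 := kill_markers ψ φ x' x c L hL hc hφ Θ⁻¹ _ h2
  have e1 : ∀ z, pr1 (Θ z) = pr1 (Θ (inl (pr1 z))) := by
    intro z
    refine big_ext (pr1.comp (Θ : Big ι r q →* Big ι r q))
      ((pr1.comp (Θ : Big ι r q →* Big ι r q)).comp (inl.comp pr1)) ?_ ?_ z
    · intro y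
      change pr1 (Θ (inl y)) = pr1 (Θ (inl (pr1 (inl y))))
      rw [pr1_inl]
    · intro t
      change pr1 (Θ (mkr t)) = pr1 (Θ (inl (pr1 (mkr t))))
      rw [k1, pr1_mkr, map_one, map_one, map_one]
  have e2 : ∀ z, pr1 (Θ⁻¹ z) = pr1 (Θ⁻¹ (inl (pr1 z))) := by
    intro z
    refine big_ext (pr1.comp ((Θ⁻¹ : MulAut (Big ι r q)) : Big ι r q →* Big ι r q))
      ((pr1.comp ((Θ⁻¹ : MulAut (Big ι r q)) : Big ι r q →* Big ι r q)).comp
        (inl.comp pr1)) ?_ ?_ z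
    · intro y
      change pr1 (Θ⁻¹ (inl y)) = pr1 (Θ⁻¹ (inl (pr1 (inl y))))
      rw [pr1_inl]
    · intro t
      change pr1 (Θ⁻¹ (mkr t)) = pr1 (Θ⁻¹ (inl (pr1 (mkr t))))
      rw [k2, pr1_mkr, map_one, map_one, map_one]
  let χ : MulAut (FreeGroup ι) := mkAut
    ((pr1.comp (Θ : Big ι r q →* Big ι r q)).comp inl)
    ((pr1.comp ((Θ⁻¹ : MulAut (Big ι r q)) : Big ι r q →* Big ι r q)).comp inl)
    (fun y => by
      change pr1 (Θ⁻¹ (inl (pr1 (Θ (inl y))))) = y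
      rw [← e2, MulAut.inv_apply_self, pr1_inl])
    (fun y => by
      change pr1 (Θ (inl (pr1 (Θ⁻¹ (inl y))))) = y
      rw [← e1, MulAut.apply_inv_self, pr1_inl])
  have hχ : ∀ y, χ y = pr1 (Θ (inl y)) := fun y => rfl
  refine ⟨χ, pr1 w, fun y => ?_⟩
  have h3 : ∀ u, χ (φ u) = pr1 w * ψ (χ u) * (pr1 w)⁻¹ := by
    intro u
    rw [hχ, hχ, ← gT_inl φ x c u, h1, map_mul, map_mul, map_inv, pr1_gT]
  rw [h3, MulAut.apply_inv_self]

end Pool.Agent.H22.OutF
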