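import Pool.Agent.H22.OutF.Words

/-!
MP_57eb62_al : subgroups all of whose elements are conjugate into a free factor.
-/

set_option autoImplicit false

namespace Pool.Agent.H22.OutF

open Finset

variable {ι : Type} [DecidableEq ι] {r : ℕ}

/-- The inclusion of the small free group. -/
def iS : FreeGroup ι →* Ba ι r := FreeGroup.map Sum.inl

omit [DecidableEq ι] in
theorem iS_inj : Function.Injective (iS : FreeGroup ι → Ba ι r) :=
  FreeGroup.map_injective Sum.inl_injective

omit [DecidableEq ι] in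
theorem iS_of (i : ι) : (iS (FreeGroup.of i) : Ba ι r) = FreeGroup.of (Sum.inl i) := by
  simp [iS]

omit [DecidableEq ι] in
theorem exists_of_noE {L : List ((ι ⊕ Fin r) × Bool)} (h : NoE L) :
    ∃ z : FreeGroup ι, (iS z : Ba ι r) = FreeGroup.mk L := by
  induction L with
  | nil => exact ⟨1, map_one _⟩
  | cons s L ih =>
    obtain ⟨z, hz⟩ := ih fun t ht => h t (List.mem_cons_of_mem _ ht)
    obtain ⟨i, hi⟩ := h s List.mem_cons_self
    obtain ⟨a, b⟩ := s
    simp only at hi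
    subst hi
    refine ⟨FreeGroup.mk [(i, b)] * z, ?_⟩
    rw [map_mul, hz]
    unfold iS
    rw [FreeGroup.map.mk, FreeGroup.mul_mk]
    rfl

theorem noE_toWord (z : FreeGroup ι) : NoE (iS z : Ba ι r).toWord := by
  have h1 : (iS z : Ba ι r) = FreeGroup.mk (z.toWord.map fun x => (Sum.inl x.1, x.2)) := by
    conv_lhs => rw [← FreeGroup.mk_toWord (x := z)]
    unfold iS
    rw [FreeGroup.map.mk]
  rw [h1, FreeGroup.toWord_mk]
  intro s hs
  have h2 := FreeGroup.Red.sublist (FreeGroup.reduce.red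
    (L := z.toWord.map fun x => ((Sum.inl x.1 : ι ⊕ Fin r), x.2)))
  have h3 := h2.mem hs
  rw [List.mem_map] at h3
  obtain ⟨x, -, rfl⟩ := h3
  exact ⟨x.1, rfl⟩

omit [DecidableEq ι] in
theorem split_word (P : List ((ι ⊕ Fin r) × Bool)) : NoE P ∨ ∃ F Q F', P = F ++ (Q ++ F') ∧
    NoE F ∧ NoE F' ∧ (∃ j b Q', Q = (Sum.inr j, b) :: Q') ∧
    (∃ j b Q', Q = Q' ++ [(Sum.inr j, b)]) := by
  induction P with
  | nil => exact Or.inl fun s hs => by simp at hs
  | cons s P ih =>
    obtain ⟨a, b⟩ := s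
    rcases ih with ih | ⟨F, Q, F', hP, hF, hF', ⟨j, b', Q', hQ⟩, ⟨j', b'', Q'', hQ'⟩⟩
    · rcases a with i | j
      · refine Or.inl fun s hs => ?_
        rcases List.mem_cons.1 hs with rfl | hs
        · exact ⟨i, rfl⟩
        · exact ih s hs
      · exact Or.inr ⟨[], [(Sum.inr j, b)], P, rfl, fun s hs => by simp at hs, ih,
          ⟨j, b, [], rfl⟩, ⟨j, b, [], rfl⟩⟩
    · rcases a with i | j₀
      · refine Or.inr ⟨(Sum.inl i, b) :: F, Q, F', by rw [hP]; rfl, ?_, hF', ⟨j, b', Q', hQ⟩,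
          ⟨j', b'', Q'', hQ'⟩⟩
        intro s hs
        rcases List.mem_cons.1 hs with rfl | hs
        · exact ⟨i, rfl⟩
        · exact hF s hs
      · refine Or.inr ⟨[], (Sum.inr j₀, b) :: (F ++ Q), F', by rw [hP]; simp,
          fun s hs => by simp at hs, hF', ⟨j₀, b, F ++ Q, rfl⟩,
          ⟨j', b'', (Sum.inr j₀, b) :: (F ++ Q''), by rw [hQ']; simp⟩⟩

theorem red_invRev {Q : List ((ι ⊕ Fin r) × Bool)} (hQ : FreeGroup.IsReduced Q) :
    FreeGroup.IsReduced (FreeGroup.invRev Q) := by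
  have h1 : (FreeGroup.mk Q).toWord = Q := by rw [FreeGroup.toWord_mk, hQ.reduce_eq]
  have h2 : (FreeGroup.mk Q)⁻¹.toWord = FreeGroup.invRev Q := by
    rw [FreeGroup.toWord_inv, h1]
  rw [← h2]
  exact FreeGroup.isReduced_toWord

omit [DecidableEq ι] in
theorem red_block {Q B : List ((ι ⊕ Fin r) × Bool)} (hQ : FreeGroup.IsReduced Q)
    (hQi : FreeGroup.IsReduced (FreeGroup.invRev Q))
    (hB : FreeGroup.IsReduced B) (hB0 : B ≠ []) (hBE : NoE B)
    (hl : ∃ j b Q', Q = Q' ++ [(Sum.inr j, b)]) :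
    FreeGroup.IsReduced (Q ++ (B ++ FreeGroup.invRev Q)) := by
  obtain ⟨j, b, Q', rfl⟩ := hl
  have h1 : FreeGroup.invRev (Q' ++ [(Sum.inr j, b)]) =
      ((Sum.inr j, !b) : (ι ⊕ Fin r) × Bool) :: FreeGroup.invRev Q' := by
    simp [FreeGroup.invRev]
  rw [h1] at hQi ⊢
  refine List.isChain_append.2 ⟨hQ, List.isChain_append.2 ⟨hB, hQi, ?_⟩, ?_⟩
  · intro x hx y hy
    obtain ⟨i, hi⟩ := hBE x (List.mem_of_getLast? hx)
    simp only [List.head?_cons, Option.mem_def, Option.some.injEq] at hy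
    rw [← hy, hi]
    intro h2
    simp at h2
  · intro x hx y hy
    obtain ⟨b0, B', rfl⟩ := List.exists_cons_of_ne_nil hB0
    simp only [List.getLast?_append, List.getLast?_singleton, Option.some_or, Option.mem_def,
      Option.some.injEq] at hx
    simp only [List.cons_append, List.head?_cons, Option.mem_def, Option.some.injEq] at hy
    obtain ⟨i, hi⟩ := hBE b0 List.mem_cons_self
    rw [← hx, ← hy, hi]
    intro h2
    simp at h2

/-- A free factor is malnormal. -/
theorem malnormal (u t : FreeGroup ι) (hu : u ≠ 1) (g : Ba ι r)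
    (h : g * iS u * g⁻¹ = iS t) : ∃ z, g = iS z := by
  rcases split_word g.toWord with hN | ⟨F, Q, F', hP, hF, hF', hQ1, hQ2⟩
  · obtain ⟨z, hz⟩ := exists_of_noE hN
    exact ⟨z, by rw [hz, FreeGroup.mk_toWord]⟩
  exfalso
  obtain ⟨a, ha⟩ := exists_of_noE hF
  obtain ⟨a', ha'⟩ := exists_of_noE hF'
  have hg : g = iS a * (FreeGroup.mk Q * iS a') := by
    rw [ha, ha', FreeGroup.mul_mk, FreeGroup.mul_mk, ← hP, FreeGroup.mk_toWord]
  have hred : FreeGroup.IsReduced g.toWord := FreeGroup.isReduced_toWord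
  have hQr : FreeGroup.IsReduced Q := red_mid (F := F) (F' := F') (by rw [← hP]; exact hred)
  set c0 : FreeGroup ι := a' * u * a'⁻¹ with hc0
  have hc0n : c0 ≠ 1 := by
    intro h1
    apply hu
    calc u = a'⁻¹ * (a' * u * a'⁻¹) * a' := by group
      _ = 1 := by rw [← hc0, h1]; group
  have h1 : (FreeGroup.mk Q : Ba ι r) * iS c0 * (FreeGroup.mk Q)⁻¹ = iS (a⁻¹ * t * a) := by
    have h2 : (iS (a⁻¹ * t * a) : Ba ι r) = (iS a)⁻¹ * iS t * iS a := by
      rw [map_mul, map_mul, map_inv]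
    rw [h2, ← h, hg, hc0, map_mul, map_mul, map_inv]
    group
  have hB0 : (iS c0 : Ba ι r).toWord ≠ [] := by
    intro h2
    rw [FreeGroup.toWord_eq_nil_iff] at h2
    exact hc0n (iS_inj (by rw [h2, map_one]))
  have h3 := red_block hQr (red_invRev hQr) FreeGroup.isReduced_toWord hB0 (noE_toWord c0) hQ2
  have h4 : (iS (a⁻¹ * t * a) : Ba ι r).toWord =
      Q ++ ((iS c0 : Ba ι r).toWord ++ FreeGroup.invRev Q) := by
    have h5 : (iS (a⁻¹ * t * a) : Ba ι r) =
        FreeGroup.mk (Q ++ ((iS c0 : Ba ι r).toWord ++ FreeGroup.invRev Q)) := by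
      rw [← h1, ← FreeGroup.mul_mk, ← FreeGroup.mul_mk, FreeGroup.mk_toWord,
        ← FreeGroup.inv_mk, mul_assoc]
    rw [h5, FreeGroup.toWord_mk, h3.reduce_eq]
  have h5 := noE_toWord (r := r) (a⁻¹ * t * a)
  rw [h4] at h5
  obtain ⟨j, b, Q', hQ'⟩ := hQ1
  obtain ⟨i, hi⟩ := h5 (Sum.inr j, b) (by rw [hQ']; simp)
  simp at hi

/-- The key step for global fixed points. -/
theorem serre (u : FreeGroup ι) (hu : u ≠ 1) (v : Ba ι r) (hv : OS v) (huv : OS (iS u * v)) :
    ∃ z, v = iS z := by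
  by_cases hv1 : v = 1
  · exact ⟨1, by rw [hv1, map_one]⟩
  set L := v.toWord with hL
  have hLr : FreeGroup.IsReduced L := FreeGroup.isReduced_toWord
  set P := FreeGroup.reduceCyclically.conjugator L with hPd
  set C := FreeGroup.reduceCyclically L with hCd
  have hPC : P ++ C ++ FreeGroup.invRev P = L :=
    FreeGroup.reduceCyclically.conj_conjugator_reduceCyclically L
  have hC : FreeGroup.IsCyclicallyReduced C :=
    FreeGroup.reduceCyclically.isCyclicallyReduced hLr
  have hvPC : v = FreeGroup.mk P * FreeGroup.mk C * (FreeGroup.mk P)⁻¹ := by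
    rw [FreeGroup.inv_mk, FreeGroup.mul_mk, FreeGroup.mul_mk, hPC, hL, FreeGroup.mk_toWord]
  have hCE : NoE C := by
    refine OS.noE hC ?_
    rw [hvPC] at hv
    exact hv.of_conj
  rcases split_word P with hN | ⟨F, Q, F', hP, hF, hF', hQ1, hQ2⟩
  · have hLE : NoE L := by
      rw [← hPC]
      intro s hs
      rw [List.mem_append, List.mem_append] at hs
      rcases hs with (hs | hs) | hs
      · exact hN s hs
      · exact hCE s hs
      · unfold FreeGroup.invRev at hs
        rw [List.mem_reverse, List.mem_map] at hs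
        obtain ⟨t, ht, rfl⟩ := hs
        exact hN t ht
    obtain ⟨z, hz⟩ := exists_of_noE hLE
    exact ⟨z, by rw [hz, hL, FreeGroup.mk_toWord]⟩
  exfalso
  obtain ⟨a, ha⟩ := exists_of_noE hF
  obtain ⟨a', ha'⟩ := exists_of_noE hF'
  obtain ⟨c1, hc1⟩ := exists_of_noE hCE
  have hPa : (FreeGroup.mk P : Ba ι r) = iS a * (FreeGroup.mk Q * iS a') := by
    rw [ha, ha', FreeGroup.mul_mk, FreeGroup.mul_mk, ← hP]
  have hQr : FreeGroup.IsReduced Q :=
    red_mid (F := F) (F' := F' ++ (C ++ FreeGroup.invRev P)) (by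
      have h1 : F ++ (Q ++ (F' ++ (C ++ FreeGroup.invRev P))) = L := by
        rw [← hPC, hP]
        simp
      rw [h1]
      exact hLr)
  set c0 : FreeGroup ι := a' * c1 * a'⁻¹ with hc0
  set u1 : FreeGroup ι := a⁻¹ * u * a with hu1
  have hu1n : u1 ≠ 1 := by
    intro h1
    apply hu
    calc u = a * (a⁻¹ * u * a) * a⁻¹ := by group
      _ = 1 := by rw [← hu1, h1]; group
  have hvc : v = iS a * (FreeGroup.mk Q * iS c0 * (FreeGroup.mk Q)⁻¹) * (iS a)⁻¹ := by
    rw [hvPC, hPa, hc0, map_mul, map_mul, map_inv, ← hc1]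
    group
  have hc0n : c0 ≠ 1 := by
    intro h1
    apply hv1
    rw [hvc, h1, map_one]
    group
  have hB0 : (iS c0 : Ba ι r).toWord ≠ [] := by
    intro h2
    rw [FreeGroup.toWord_eq_nil_iff] at h2
    exact hc0n (iS_inj (by rw [h2, map_one]))
  have hA0 : (iS u1 : Ba ι r).toWord ≠ [] := by
    intro h2
    rw [FreeGroup.toWord_eq_nil_iff] at h2
    exact hu1n (iS_inj (by rw [h2, map_one]))
  have h3 := red_block hQr (red_invRev hQr) FreeGroup.isReduced_toWord hB0 (noE_toWord c0) hQ2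
  obtain ⟨j, b, Q', hQ'⟩ := hQ1
  set W := (iS u1 : Ba ι r).toWord ++ (Q ++ ((iS c0 : Ba ι r).toWord ++ FreeGroup.invRev Q))
    with hW
  have hWr : FreeGroup.IsReduced W := by
    rw [hW]
    unfold FreeGroup.IsReduced at h3 ⊢
    rw [List.isChain_append]
    refine ⟨FreeGroup.isReduced_toWord, h3, ?_⟩
    intro x hx y hy
    obtain ⟨i, hi⟩ := noE_toWord (r := r) u1 x (List.mem_of_getLast? hx)
    rw [hQ'] at hy
    simp only [List.cons_append, List.head?_cons, Option.mem_def, Option.some.injEq] at hy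
    rw [← hy, hi]
    intro h4
    simp at h4
  have hWc : FreeGroup.IsCyclicallyReduced W := by
    refine ⟨hWr, ?_⟩
    intro x hx y hy
    have h4 : FreeGroup.invRev Q = FreeGroup.invRev Q' ++ [(Sum.inr j, !b)] := by
      rw [hQ']
      simp [FreeGroup.invRev]
    have h5 : W = ((iS u1 : Ba ι r).toWord ++ (Q ++ ((iS c0 : Ba ι r).toWord ++
        FreeGroup.invRev Q'))) ++ [(Sum.inr j, !b)] := by
      rw [hW, h4]
      simp
    rw [h5] at hx
    simp only [List.getLast?_append, List.getLast?_singleton, Option.some_or, Option.mem_def,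
      Option.some.injEq] at hx
    obtain ⟨a0, A', hA'⟩ := List.exists_cons_of_ne_nil hA0
    rw [hW, hA'] at hy
    simp only [List.cons_append, List.head?_cons, Option.mem_def, Option.some.injEq] at hy
    obtain ⟨i, hi⟩ := noE_toWord (r := r) u1 a0 (by rw [hA']; exact List.mem_cons_self)
    rw [← hx, ← hy, hi]
    intro h6
    simp at h6
  have hWm : iS u * v = iS a * FreeGroup.mk W * (iS a)⁻¹ := by
    have h4 : (FreeGroup.mk W : Ba ι r) =
        iS u1 * (FreeGroup.mk Q * (iS c0 * (FreeGroup.mk Q)⁻¹)) := by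
      rw [hW, ← FreeGroup.mul_mk, ← FreeGroup.mul_mk, ← FreeGroup.mul_mk, FreeGroup.mk_toWord,
        FreeGroup.mk_toWord, ← FreeGroup.inv_mk]
    have h6 : (iS u1 : Ba ι r) = (iS a)⁻¹ * iS u * iS a := by
      rw [hu1, map_mul, map_mul, map_inv]
    rw [h4, hvc, h6]
    group
  rw [hWm] at huv
  have h4 := OS.noE hWc huv.of_conj
  obtain ⟨i, hi⟩ := h4 (Sum.inr j, b) (by rw [hW, hQ']; simp)
  simp at hi

end Pool.Agent.H22.OutF
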