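import Pool.Agent.H22.OutF.Fox

/-!
MP_57eb62_al : the action on the abelianization and its traces.
-/

set_option autoImplicit false

namespace Pool.Agent.H22.OutF

open Finset

variable {ι : Type} [DecidableEq ι]

/-- The augmentation of the group ring. -/
noncomputable def aug : ZF ι →+ ℤ := ev fun _ => 1

theorem aug_em (x : FreeGroup ι) : aug (em x) = 1 := ev_em _ x

theorem aug_mul (r s : ZF ι) : aug (r * s) = aug r * aug s := by
  refine add_ext (aug.comp (AddMonoidHom.mulRight s))
    ((AddMonoidHom.mulRight (aug s)).comp aug) (fun x => ?_) r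
  change aug (em x * s) = aug (em x) * aug s
  refine add_ext (aug.comp (AddMonoidHom.mulLeft (em x)))
    ((AddMonoidHom.mulLeft (aug (em x))).comp aug) (fun y => ?_) s
  change aug (em x * em y) = aug (em x) * aug (em y)
  rw [← map_mul, aug_em, aug_em, aug_em, one_mul]

theorem aug_rh (Φ : FreeGroup ι →* FreeGroup ι) (r : ZF ι) : aug (rh Φ r) = aug r := by
  refine add_ext (aug.comp (rh Φ).toAddMonoidHom) aug (fun x => ?_) r
  change aug (rh Φ (em x)) = aug (em x)
  rw [rh_em, aug_em, aug_em]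

variable [Fintype ι]

/-- The matrix of the exponent sums. -/
noncomputable def ab (Φ : FreeGroup ι →* FreeGroup ι) : Matrix ι ι ℤ :=
  fun j i => aug (fox i (Φ (FreeGroup.of j)))

theorem ab_comp (Φ Ψ : FreeGroup ι →* FreeGroup ι) : ab (Φ.comp Ψ) = ab Ψ * ab Φ := by
  ext j i
  rw [Matrix.mul_apply]
  unfold ab
  rw [MonoidHom.comp_apply, fox_chain, map_sum]
  exact sum_congr rfl fun k _ => by rw [aug_mul, aug_rh]

theorem ab_id : ab (MonoidHom.id (FreeGroup ι)) = 1 := by
  ext j i
  unfold ab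
  rw [MonoidHom.id_apply, fox_of, Matrix.one_apply]
  by_cases h : i = j
  · subst h
    rw [if_pos rfl, if_pos rfl]
    have := aug_em (1 : FreeGroup ι)
    rwa [map_one] at this
  · rw [if_neg h, if_neg (Ne.symm h), map_zero]

/-- The trace of an automorphism on the abelianization. -/
noncomputable def tr (φ : MulAut (FreeGroup ι)) : ℤ := (ab (φ : FreeGroup ι →* FreeGroup ι)).trace

theorem ab_pow (φ : MulAut (FreeGroup ι)) (m : ℕ) :
    ab ((φ ^ m : MulAut (FreeGroup ι)) : FreeGroup ι →* FreeGroup ι) =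
      ab (φ : FreeGroup ι →* FreeGroup ι) ^ m := by
  induction m with
  | zero => rw [pow_zero, pow_zero, ← ab_id]; rfl
  | succ m ih =>
    rw [pow_succ', pow_succ, ← ih, ← ab_comp]
    rfl

theorem exists_trace_pow (A B : Matrix ι ι ℤ) (hAB : A * B = 1) (hc : 2 ≤ Fintype.card ι) :
    ∃ m, 1 ≤ m ∧ m ≤ Fintype.card ι + 1 ∧ (A ^ m).trace ≠ 1 := by
  by_contra hcon
  push Not at hcon
  set n := Fintype.card ι with hn
  have hne : Nonempty ι := Fintype.card_pos_iff.1 (by omega)
  have h1 : ∑ k ∈ range (n + 1), A.charpoly.coeff k • A ^ k = 0 := by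
    have h2 := Matrix.aeval_self_charpoly A
    rw [Polynomial.aeval_eq_sum_range, Matrix.charpoly_natDegree_eq_dim] at h2
    exact h2
  have h2 : ∑ k ∈ range (n + 1), A.charpoly.coeff k * (A ^ k).trace = 0 := by
    have h3 := congrArg Matrix.trace h1
    rw [Matrix.trace_sum, Matrix.trace_zero] at h3
    simpa only [Matrix.trace_smul, smul_eq_mul] using h3
  have h3 : ∑ k ∈ range (n + 1), A.charpoly.coeff k * (A ^ (k + 1)).trace = 0 := by
    have h4 := congrArg (fun M => (M * A).trace) h1
    simp only [sum_mul, Matrix.trace_sum, zero_mul, Matrix.trace_zero, smul_mul_assoc,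
      Matrix.trace_smul, smul_eq_mul, ← pow_succ] at h4
    exact h4
  have h4 : ∑ k ∈ range (n + 1), A.charpoly.coeff k = 0 := by
    rw [← h3]
    refine sum_congr rfl fun k hk => ?_
    rw [mem_range] at hk
    rw [hcon (k + 1) (by omega) (by omega), mul_one]
  have h5 : A.charpoly.coeff 0 * (n : ℤ) +
      ∑ k ∈ range n, A.charpoly.coeff (k + 1) = 0 := by
    rw [sum_range_succ'] at h2
    rw [pow_zero, Matrix.trace_one, ← hn] at h2
    rw [add_comm]
    rw [← h2]
    congr 1
    refine sum_congr rfl fun k hk => ?_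
    rw [mem_range] at hk
    rw [hcon (k + 1) (by omega) (by omega), mul_one]
  rw [sum_range_succ'] at h4
  have h6 : A.charpoly.coeff 0 * ((n : ℤ) - 1) = 0 := by
    rw [mul_sub, mul_one]
    omega
  have h7 : A.charpoly.coeff 0 = 0 := by
    rcases mul_eq_zero.1 h6 with h8 | h8
    · exact h8
    · omega
  have h8 := Matrix.det_eq_sign_charpoly_coeff A
  rw [h7, mul_zero] at h8
  have h9 := congrArg Matrix.det hAB
  rw [Matrix.det_mul, h8, zero_mul, Matrix.det_one] at h9
  exact zero_ne_one h9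

/-- Some small power of an automorphism has Lefschetz number different from zero. -/
theorem exists_tr_pow (φ : MulAut (FreeGroup ι)) (hc : 2 ≤ Fintype.card ι) :
    ∃ m, 1 ≤ m ∧ m ≤ Fintype.card ι + 1 ∧ tr (φ ^ m) ≠ 1 := by
  have h1 : ab (φ : FreeGroup ι →* FreeGroup ι) *
      ab ((φ⁻¹ : MulAut (FreeGroup ι)) : FreeGroup ι →* FreeGroup ι) = 1 := by
    rw [← ab_comp, ← ab_id]
    congr 1
    ext x
    exact φ.symm_apply_apply _
  obtain ⟨m, hm1, hm2, hm3⟩ := exists_trace_pow _ _ h1 hc
  refine ⟨m, hm1, hm2, ?_⟩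
  unfold tr
  rw [ab_pow]
  exact hm3

end Pool.Agent.H22.OutF
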