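import Pool.Agent.H22.OutF.Cross

/-!
MP_57eb62_al : orbit sums of a crossed homomorphism detect the conjugates of a free factor.
-/

set_option autoImplicit false

namespace Pool.Agent.H22.OutF

open Finset

variable {ι : Type} [DecidableEq ι] {r : ℕ}

/-- The group with the extra letters. -/
abbrev Ba (ι : Type) (r : ℕ) : Type := FreeGroup (ι ⊕ Fin r)

/-- The values of the crossed homomorphism on the letters. -/
def vb : ι ⊕ Fin r → ℤ
  | Sum.inl _ => 0
  | Sum.inr j => ((j : ℕ) : ℤ) + 1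

omit [DecidableEq ι] in
theorem vb_inl (i : ι) : vb (Sum.inl i : ι ⊕ Fin r) = 0 := rfl

omit [DecidableEq ι] in
theorem vb_inr (j : Fin r) : vb (Sum.inr j : ι ⊕ Fin r) = ((j : ℕ) : ℤ) + 1 := rfl

/-- The crossed homomorphism. -/
noncomputable def db (z : Ba ι r) : ZF (ι ⊕ Fin r) := cr (MonoidHom.id _) vb z

/-- All orbit sums are divisible by `r + 1`. -/
def OS (z : Ba ι r) : Prop :=
  ∀ κ : Ba ι r → ℤ, (∀ g, (κ g).natAbs ≤ 1) → (∀ g, κ (z * g) = κ g) →
    ((r : ℤ) + 1) ∣ ev κ (db z)

theorem OS.conj {z : Ba ι r} (h : OS z) (p : Ba ι r) : OS (p * z * p⁻¹) := by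
  intro κ hb hκ
  unfold db
  rw [cr_conj, map_add, MonoidHom.id_apply, MonoidHom.id_apply, ev_inv κ _ hκ, zero_add,
    ev_em_mul]
  refine h (fun x => κ (p * x)) (fun g => hb _) fun g => ?_
  have h1 : p * (z * g) = p * z * p⁻¹ * (p * g) := by group
  change κ (p * (z * g)) = κ (p * g)
  rw [h1, hκ]

theorem OS.of_conj {z p : Ba ι r} (h : OS (p * z * p⁻¹)) : OS z := by
  have h1 := h.conj p⁻¹
  have h2 : p⁻¹ * (p * z * p⁻¹) * p⁻¹⁻¹ = z := by group
  rwa [h2] at h1

section general

variable {α : Type} [DecidableEq α]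

omit [DecidableEq α] in
theorem red_mid {F Q F' : List (α × Bool)} (h : FreeGroup.IsReduced (F ++ (Q ++ F'))) :
    FreeGroup.IsReduced Q :=
  (List.isChain_append.1 (List.isChain_append.1 h).2.1).1

theorem norm_red {L : List (α × Bool)} (h : FreeGroup.IsReduced L) :
    (FreeGroup.mk L).norm = L.length := by
  unfold FreeGroup.norm
  rw [FreeGroup.toWord_mk, h.reduce_eq]

theorem cyc_pow_norm {L : List (α × Bool)} (h : FreeGroup.IsCyclicallyReduced L) (n : ℕ) :
    (FreeGroup.mk L ^ n).norm = n * L.length := by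
  rw [FreeGroup.pow_mk, norm_red (h.flatten_replicate n).isReduced]
  simp

theorem not_mem_zpowers {L U V : List (α × Bool)} (h : FreeGroup.IsCyclicallyReduced L)
    (hL : L = U ++ V) (hU : U ≠ []) (hV : V ≠ []) :
    FreeGroup.mk U ∉ Subgroup.zpowers (FreeGroup.mk L) := by
  intro hmem
  obtain ⟨i, hi⟩ := Subgroup.mem_zpowers_iff.1 hmem
  have h1 : (FreeGroup.mk U).norm = U.length :=
    norm_red (red_mid (F := []) (F' := V) (by rw [List.nil_append, ← hL]; exact h.isReduced))
  have h2 : (FreeGroup.mk L ^ i).norm = i.natAbs * L.length := by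
    rcases Int.natAbs_eq i with h3 | h3
    · rw [h3, zpow_natCast, cyc_pow_norm h, Int.natAbs_natCast]
    · rw [h3, zpow_neg, zpow_natCast, FreeGroup.norm_inv_eq, cyc_pow_norm h, Int.natAbs_neg,
        Int.natAbs_natCast]
  rw [hi, h1] at h2
  have h3 : L.length = U.length + V.length := by rw [hL, List.length_append]
  have h4 : 0 < U.length := List.length_pos_of_ne_nil hU
  have h5 : 0 < V.length := List.length_pos_of_ne_nil hV
  rcases Nat.eq_zero_or_pos i.natAbs with h6 | h6
  · rw [h6] at h2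
    omega
  · have h7 : L.length ≤ i.natAbs * L.length := Nat.le_mul_of_pos_left _ h6
    omega

theorem cyc_rotate {U V : List (α × Bool)} (h : FreeGroup.IsCyclicallyReduced (U ++ V)) :
    FreeGroup.IsCyclicallyReduced (V ++ U) := by
  rcases U with _ | ⟨u, U⟩
  · simpa using h
  rcases V with _ | ⟨v, V⟩
  · simpa using h
  have h3 := (h.flatten_replicate 3).isReduced
  have h4 : (List.replicate 3 (u :: U ++ v :: V)).flatten =
      (u :: U) ++ (((v :: V ++ u :: U) ++ (v :: V ++ u :: U)) ++ (v :: V)) := by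
    simp [List.replicate_succ]
  rw [h4] at h3
  have h5 : FreeGroup.IsReduced ((v :: V ++ u :: U) ++ (v :: V ++ u :: U)) := red_mid h3
  refine ⟨red_mid (F := []) (F' := v :: V ++ u :: U) (by rw [List.nil_append]; exact h5), ?_⟩
  intro a ha b hb
  unfold FreeGroup.IsReduced at h5
  rw [List.isChain_append] at h5
  exact h5.2.2 a ha b hb

end general

/-- The contribution of a first letter. -/
def pv (s : (ι ⊕ Fin r) × Bool) : ℤ := if s.2 then vb s.1 else 0

/-- The contribution of a last letter. -/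
def nv (s : (ι ⊕ Fin r) × Bool) : ℤ := if s.2 then 0 else vb s.1

theorem ev_db_step (κ : Ba ι r → ℤ) (U : List ((ι ⊕ Fin r) × Bool)) (s : (ι ⊕ Fin r) × Bool) :
    ev κ (db (FreeGroup.mk (U ++ [s]))) = ev κ (db (FreeGroup.mk U)) +
      pv s * κ (FreeGroup.mk U) - nv s * κ (FreeGroup.mk (U ++ [s])) := by
  obtain ⟨a, b⟩ := s
  have h2 : (FreeGroup.mk (U ++ [(a, b)]) : Ba ι r) =
      FreeGroup.mk U * FreeGroup.mk [(a, b)] := rfl
  have h1 : ∀ g : Ba ι r, ev κ (em g * (vb a • (1 : ZF (ι ⊕ Fin r)))) = vb a * κ g := by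
    intro g
    rw [mul_smul_comm, mul_one, map_zsmul, ev_em, smul_eq_mul]
  unfold db pv nv
  rw [h2, cr_mul, map_add, MonoidHom.id_apply]
  cases b
  · have h5 : (FreeGroup.mk [(a, false)] : Ba ι r) = (FreeGroup.of a)⁻¹ := rfl
    rw [h5, cr_inv, cr_of, mul_neg, map_neg, ← mul_assoc, ← map_mul, MonoidHom.id_apply, h1]
    simp
    ring
  · have h5 : (FreeGroup.mk [(a, true)] : Ba ι r) = FreeGroup.of a := rfl
    rw [h5, cr_of, h1]
    simp

theorem OS.dvd {L : List ((ι ⊕ Fin r) × Bool)} (h : FreeGroup.IsCyclicallyReduced L)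
    (hOS : OS (FreeGroup.mk L : Ba ι r)) (U : List ((ι ⊕ Fin r) × Bool))
    (t s : (ι ⊕ Fin r) × Bool) (ht : ∃ V, L = t :: V) (hs : L = U ++ [s]) :
    ((r : ℤ) + 1) ∣ pv t - nv s := by
  classical
  obtain ⟨κ, hκ⟩ : ∃ κ : Ba ι r → ℤ,
      κ = fun g => if g ∈ Subgroup.zpowers (FreeGroup.mk L) then 1 else 0 := ⟨_, rfl⟩
  have hb : ∀ g, (κ g).natAbs ≤ 1 := by
    intro g
    rw [hκ]
    simp only
    split_ifs <;> simp
  have hinv : ∀ g, κ (FreeGroup.mk L * g) = κ g := by
    intro g
    have h1 : FreeGroup.mk L * g ∈ Subgroup.zpowers (FreeGroup.mk L) ↔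
        g ∈ Subgroup.zpowers (FreeGroup.mk L) :=
      Subgroup.mul_mem_cancel_left _ (Subgroup.mem_zpowers _)
    rw [hκ]
    simp only [h1]
  have hmid : ∀ U V : List ((ι ⊕ Fin r) × Bool), L = U ++ V → U ≠ [] → V ≠ [] →
      κ (FreeGroup.mk U) = 0 := by
    intro U V hL hU hV
    rw [hκ]
    exact if_neg (not_mem_zpowers h hL hU hV)
  have h0 : κ (FreeGroup.mk []) = 1 := by
    rw [hκ]
    exact if_pos (one_mem _)
  have hend : κ (FreeGroup.mk L) = 1 := by
    rw [hκ]
    exact if_pos (Subgroup.mem_zpowers _)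
  have hnil : ev κ (db (FreeGroup.mk [] : Ba ι r)) = 0 := by
    have h1 : (FreeGroup.mk [] : Ba ι r) = 1 := rfl
    unfold db
    rw [h1, cr_one, map_zero]
  -- the partial sums
  have hpart : ∀ U V : List ((ι ⊕ Fin r) × Bool), L = U ++ V → U ≠ [] → V ≠ [] →
      ev κ (db (FreeGroup.mk U : Ba ι r)) = pv t := by
    intro U
    induction U using List.reverseRecOn with
    | nil => intro V _ hU; exact absurd rfl hU
    | append_singleton U s' ih =>
      intro V hL _ hV
      rw [ev_db_step, hmid (U ++ [s']) V hL (by simp) hV]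
      rcases U with _ | ⟨u, U⟩
      · obtain ⟨V', hV'⟩ := ht
        have h1 : s' = t := by
          rw [hV'] at hL
          simp at hL
          exact hL.1.symm
        rw [hnil, h0, h1]
        ring
      · rw [ih (s' :: V) (by rw [hL]; simp) (by simp) (by simp),
          hmid (u :: U) (s' :: V) (by rw [hL]; simp) (by simp) (by simp)]
        ring
  have hfin : ev κ (db (FreeGroup.mk L : Ba ι r)) = pv t - nv s := by
    have h1 := ev_db_step κ U s
    rw [← hs, hend] at h1
    rw [h1]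
    rcases U with _ | ⟨u, U⟩
    · obtain ⟨V', hV'⟩ := ht
      have h2 : s = t := by
        rw [hV'] at hs
        simp at hs
        exact hs.1.symm
      rw [hnil, h0, h2]
      ring
    · rw [hpart (u :: U) [s] hs (by simp) (by simp),
        hmid (u :: U) [s] hs (by simp) (by simp)]
      ring
  rw [← hfin]
  exact hOS κ hb hinv

/-- The words without extra letters. -/
def NoE (L : List ((ι ⊕ Fin r) × Bool)) : Prop := ∀ s ∈ L, ∃ i, s.1 = Sum.inl i

theorem vb_bounds (a : ι ⊕ Fin r) : 0 ≤ vb a ∧ vb a ≤ r := by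
  rcases a with i | j
  · rw [vb_inl]
    omega
  · have := j.2
    rw [vb_inr]
    omega

theorem vb_eq {j : Fin r} {a : ι ⊕ Fin r} (h : vb a = vb (Sum.inr j : ι ⊕ Fin r)) :
    a = Sum.inr j := by
  rcases a with i | j'
  · rw [vb_inl, vb_inr] at h
    omega
  · rw [vb_inr, vb_inr] at h
    congr 1
    apply Fin.ext
    omega

theorem OS.noE {L : List ((ι ⊕ Fin r) × Bool)} (h : FreeGroup.IsCyclicallyReduced L)
    (hOS : OS (FreeGroup.mk L : Ba ι r)) : NoE L := by
  intro s hs
  obtain ⟨a, b⟩ := s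
  rcases a with i | j
  · exact ⟨i, rfl⟩
  exfalso
  obtain ⟨U, V, hL⟩ := List.append_of_mem hs
  have hvj : 0 < vb (Sum.inr j : ι ⊕ Fin r) := by
    rw [vb_inr]
    omega
  have hvj' := (vb_bounds (Sum.inr j : ι ⊕ Fin r)).2
  cases b
  · -- a negative letter, rotate it to the end
    have h1 : L = (U ++ [(Sum.inr j, false)]) ++ V := by rw [hL]; simp
    have h2 : FreeGroup.IsCyclicallyReduced (V ++ (U ++ [(Sum.inr j, false)])) :=
      cyc_rotate (by rw [← h1]; exact h)
    have h3 : OS (FreeGroup.mk (V ++ (U ++ [(Sum.inr j, false)])) : Ba ι r) := by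
      have h4 : (FreeGroup.mk (V ++ (U ++ [(Sum.inr j, false)])) : Ba ι r) =
          FreeGroup.mk V * FreeGroup.mk L * (FreeGroup.mk V)⁻¹ := by
        rw [h1, ← FreeGroup.mul_mk, ← FreeGroup.mul_mk (L₁ := U ++ [(Sum.inr j, false)])]
        group
      rw [h4]
      exact hOS.conj _
    obtain ⟨t, W, ht⟩ : ∃ t W, V ++ (U ++ [(Sum.inr j, false)]) = t :: W := by
      rcases V with _ | ⟨v, V⟩
      · rcases U with _ | ⟨u, U⟩
        · exact ⟨_, _, rfl⟩
        · exact ⟨_, _, rfl⟩
      · exact ⟨_, _, rfl⟩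
    have h5 := h3.dvd h2 (V ++ U) t (Sum.inr j, false) ⟨W, ht⟩ (by simp)
    have h6 := vb_bounds t.1
    have h7 : nv ((Sum.inr j, false) : (ι ⊕ Fin r) × Bool) = vb (Sum.inr j : ι ⊕ Fin r) := by
      simp [nv]
    have h8 : pv t ≠ vb (Sum.inr j : ι ⊕ Fin r) := by
      intro h9
      obtain ⟨a, b⟩ := t
      cases b
      · simp only [pv, Bool.false_eq_true, if_false] at h9
        omega
      · simp only [pv, if_true] at h9
        have h10 := vb_eq h9
        have h11 := h2.2 (Sum.inr j, false) (by simp) (a, true) (by rw [ht]; rfl) h10.symm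
        simp at h11
    have h9 : 0 ≤ pv t ∧ pv t ≤ r := by
      unfold pv
      split_ifs
      · exact h6
      · exact ⟨le_rfl, by omega⟩
    rw [h7] at h5
    obtain ⟨k, hk⟩ := h5
    rcases lt_trichotomy k 0 with h10 | h10 | h10
    · nlinarith
    · rw [h10, mul_zero] at hk
      exact h8 (by omega)
    · nlinarith
  · -- a positive letter, rotate it to the front
    have h2 : FreeGroup.IsCyclicallyReduced ((Sum.inr j, true) :: V ++ U) :=
      cyc_rotate (by rw [← hL]; exact h)
    have h3 : OS (FreeGroup.mk ((Sum.inr j, true) :: V ++ U) : Ba ι r) := by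
      have h4 : (FreeGroup.mk ((Sum.inr j, true) :: V ++ U) : Ba ι r) =
          (FreeGroup.mk U)⁻¹ * FreeGroup.mk L * (FreeGroup.mk U)⁻¹⁻¹ := by
        rw [hL, ← FreeGroup.mul_mk, ← FreeGroup.mul_mk]
        group
      rw [h4]
      exact hOS.conj _
    obtain ⟨W, s, hs'⟩ : ∃ W s, (Sum.inr j, true) :: V ++ U = W ++ [s] := by
      rcases List.eq_nil_or_concat ((Sum.inr j, true) :: V ++ U) with h5 | ⟨W, s, h5⟩
      · simp at h5
      · exact ⟨W, s, by rw [h5, List.concat_eq_append]⟩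
    have h5 := h3.dvd h2 W (Sum.inr j, true) s ⟨V ++ U, rfl⟩ hs'
    have h6 := vb_bounds s.1
    have h7 : pv ((Sum.inr j, true) : (ι ⊕ Fin r) × Bool) = vb (Sum.inr j : ι ⊕ Fin r) := by
      simp [pv]
    have h8 : nv s ≠ vb (Sum.inr j : ι ⊕ Fin r) := by
      intro h9
      obtain ⟨a, b⟩ := s
      cases b
      · simp only [nv, Bool.false_eq_true, if_false] at h9
        have h10 := vb_eq h9
        have h11 := h2.2 (a, false) (by rw [hs']; simp) (Sum.inr j, true) (by simp) h10
        simp at h11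
      · simp only [nv, if_true] at h9
        omega
    have h9 : 0 ≤ nv s ∧ nv s ≤ r := by
      unfold nv
      split_ifs
      · exact ⟨le_rfl, by omega⟩
      · exact h6
    rw [h7] at h5
    obtain ⟨k, hk⟩ := h5
    rcases lt_trichotomy k 0 with h10 | h10 | h10
    · nlinarith
    · rw [h10, mul_zero] at hk
      exact h8 (by omega)
    · nlinarith

end Pool.Agent.H22.OutF
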